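import Pool.Agent.V8H88.UF.Mov

/-!
# The patterns imply that the relations are balanced: CM fields
-/

set_option autoImplicit false
set_option linter.unusedSectionVars false

open Polynomial NumberField

namespace Pool.Agent.V8H88.UF

open Pool.Agent.W521.Frob Pool.Agent.W458.MF Pool.Agent.W338.MF

/-- The patterns of the pieces at suitable primes. -/
structure Pats {I : Type} (K : I → Type) [∀ i, Field (K i)] [∀ i, NumberField (K i)]
    [∀ i, IsCMField (K i)] (h : I → ℤ[X]) (P : ∀ i, (𝓞 (K i))[X])
    (θ : ∀ i, 𝓞 (K i)) (Nθ : I → ℕ) (R : ℤ[X]) (N : ℕ) : Prop where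
  gen : ∀ i, IsGen (K i) (θ i) (Nθ i)
  R_monic : R.Monic
  uni : ∀ i, ∀ z : ℂ, (∃ t : ℕ, 0 < t ∧ z ^ t = 1) → (∃ Q : ℚ[X], Q ≠ 0 ∧
    Q.natDegree ≤ (2 * (h i).natDegree) * (2 * (h i).natDegree) ∧ aeval z Q = 0) → z ^ N = 1
  patA : ∀ i₀, ∃ l : ℕ, l.Prime ∧ SplitsMod R l ∧ (∀ i, SplitsMod (minpoly ℤ (θ i)) l) ∧
    (∀ i, ¬ l ∣ Nθ i) ∧ ∃ χ₀ : 𝓞 (K i₀) →+* ZMod l, PatA (K i₀) l χ₀ (fun χ => (P i₀).map χ) ∧
      ∀ i, i ≠ i₀ → Pass (K i) l (fun χ => (P i).map χ)
  patB : ∀ i₀, ∃ l : ℕ, l.Prime ∧ SplitsMod (minpoly ℤ (θ i₀)) l ∧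
    ∃ χ₀ : 𝓞 (K i₀) →+* ZMod l, PatB (K i₀) l χ₀ (fun χ => (P i₀).map χ)
  patC : ∀ i₀, ∃ l : ℕ, l.Prime ∧
    ∃ χ₀ : 𝓞 (K i₀) →+* ZMod l, PatC (K i₀) l N χ₀ (fun χ => (P i₀).map χ)

lemma coprime_of_no_root {K : Type*} [Field K] [IsAlgClosed K] {f g : K[X]} (hf : f ≠ 0)
    (h : ∀ μ, f.IsRoot μ → ¬ g.IsRoot μ) : IsCoprime f g := by
  classical
  by_contra hc
  rw [← EuclideanDomain.gcd_isUnit_iff] at hc
  have h0 : EuclideanDomain.gcd f g ≠ 0 := fun h0 => hf ((EuclideanDomain.gcd_eq_zero_iff.1 h0).1)
  have hdeg : (EuclideanDomain.gcd f g).degree ≠ 0 := fun hd =>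
    hc (Polynomial.isUnit_iff_degree_eq_zero.2 hd)
  obtain ⟨μ, hμ⟩ := IsAlgClosed.exists_root _ hdeg
  exact h μ (hμ.dvd (EuclideanDomain.gcd_dvd_left f g)) (hμ.dvd (EuclideanDomain.gcd_dvd_right f g))

/-- Products over a list in terms of the multiplicities. -/
lemma list_prod_eq {I L : Type} [Fintype I] [DecidableEq I] [DecidableEq L] [Field L]
    {Φ : I → Type} [∀ i, Fintype (Φ i)] (B : ∀ i, Φ i → Finset L)
    (hdisj : ∀ i φ φ', φ ≠ φ' → Disjoint (B i φ) (B i φ')) (f : I → L → L) (l : List (I × L))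
    (hl : ∀ x ∈ l, ∃ φ, x.2 ∈ B x.1 φ) :
    (l.map fun x => f x.1 x.2).prod = ∏ i, ∏ φ, ∏ x ∈ B i φ, f i x ^ l.count (i, x) := by
  classical
  induction l with
  | nil => simp
  | cons a l ih =>
    obtain ⟨i₀, x₀⟩ := a
    obtain ⟨φ₀, hφ₀⟩ := hl (i₀, x₀) List.mem_cons_self
    have ih' := ih fun x hx => hl x (List.mem_cons_of_mem _ hx)
    rw [List.map_cons, List.prod_cons, ih']
    have h1 : ∀ i φ, ∏ x ∈ B i φ, f i x ^ ((i₀, x₀) :: l).count (i, x) =
        (∏ x ∈ B i φ, f i x ^ l.count (i, x)) *
          ∏ x ∈ B i φ, (if (i₀, x₀) = (i, x) then f i x else 1) := by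
      intro i φ
      rw [← Finset.prod_mul_distrib]
      refine Finset.prod_congr rfl fun x _ => ?_
      rw [List.count_cons, pow_add]
      congr 1
      by_cases h : (i₀, x₀) = (i, x)
      · rw [if_pos h, if_pos (by rw [h]; exact beq_self_eq_true _), pow_one]
      · rw [if_neg h, if_neg (by rw [beq_iff_eq]; exact h), pow_zero]
    rw [Finset.prod_congr rfl fun i _ => Finset.prod_congr rfl fun φ _ => h1 i φ]
    simp only [Finset.prod_mul_distrib]
    rw [mul_comm]
    congr 1
    rw [Finset.prod_eq_single_of_mem i₀ (Finset.mem_univ _),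
      Finset.prod_eq_single_of_mem φ₀ (Finset.mem_univ _),
      Finset.prod_eq_single_of_mem x₀ hφ₀, if_pos rfl]
    · intro x _ hx
      rw [if_neg]
      intro e
      exact hx (Prod.ext_iff.1 e).2.symm
    · intro φ _ hφ
      refine Finset.prod_eq_one fun x hx => ?_
      rw [if_neg]
      intro e
      have e2 : x₀ = x := (Prod.ext_iff.1 e).2
      subst e2
      exact Finset.disjoint_left.1 (hdisj i₀ φ φ₀ hφ) hx hφ₀
    · intro i _ hi
      refine Finset.prod_eq_one fun φ _ => Finset.prod_eq_one fun x _ => ?_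
      rw [if_neg]
      intro e
      exact hi (Prod.ext_iff.1 e).1.symm

section

variable {I : Type} [Fintype I] {K : I → Type} [∀ i, Field (K i)] [∀ i, NumberField (K i)]
  [∀ i, IsCMField (K i)] {q : I → ℕ} {h : I → ℤ[X]} {P : ∀ i, (𝓞 (K i))[X]}
  {θ : ∀ i, 𝓞 (K i)} {Nθ : I → ℕ} {R : ℤ[X]} {N : ℕ}

/-- **The patterns imply that the relations are balanced.** -/
theorem balanced_of_pats (H : UData K q h P) (H2 : Pats K h P θ Nθ R N)
    (hnd : NonDegenerate K (fun i => (P i).coeff 0) {z : ℂ | aeval z R = 0}) :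
    Balanced q h R ∧ ∀ i, ((weil (q i) (h i)).map (Int.castRingHom ℚ)).Separable := by
  classical
  -- the field
  have hθm : ∀ i, (minpoly ℤ (θ i)).Monic := fun i => minpoly.monic (Algebra.IsIntegral.isIntegral _)
  have hPm : ((∏ i, weil (q i) (h i)) * R * ∏ i, minpoly ℤ (θ i)).Monic :=
    ((monic_prod_of_monic _ _ fun i _ => weil_monic (q i) (H.hmonic i)).mul H2.R_monic).mul
      (monic_prod_of_monic _ _ fun i _ => hθm i)
  obtain ⟨L, _, _, _, j, hj⟩ := exists_field' _ hPm
  have hL : ∀ i, ∀ z : ℂ, aeval z (weil (q i) (h i)) = 0 → ∃ x : L, j x = z := by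
    intro i z hz
    apply hj
    rw [map_mul, map_mul, map_prod, Finset.prod_eq_zero (Finset.mem_univ i) hz, zero_mul, zero_mul]
  have hLR : ∀ z : ℂ, aeval z R = 0 → ∃ x : L, j x = z := by
    intro z hz
    apply hj
    rw [map_mul, map_mul, hz, mul_zero, zero_mul]
  have hLθ : ∀ i, ∀ z : ℂ, aeval z (minpoly ℤ (θ i)) = 0 → ∃ x : L, j x = z := by
    intro i z hz
    apply hj
    have h1 : aeval z (∏ i, minpoly ℤ (θ i)) = 0 := by
      rw [map_prod]
      exact Finset.prod_eq_zero (Finset.mem_univ i) hz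
    rw [map_mul, h1, mul_zero]
  choose em hem using fun i (φ : K i →+* ℂ) => (H2.gen i).exists_emb j (hLθ i) φ
  have E : EData K q h j em := ⟨hem, hL⟩
  -- the automorphisms
  choose lA hlA hlA1 hlA2 hlA3 χA hχA hχA' using H2.patA
  choose lB hlB hlB1 χB hχB using H2.patB
  choose lC hlC χC hχC using H2.patC
  choose g hg1 hg2 hg3 hg4 hg5 using fun i φ => exists_g H E H2.gen R H2.R_monic i (lA i) (hlA i)
    (hlA1 i) (hlA2 i) (hlA3 i) (χA i) (hχA i) (hχA' i) φ
  choose g' x₁ hg6 hx₁ hg7 hg8 using fun i φ => exists_h H E i (H2.gen i) (lB i) (hlB i) (hlB1 i)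
    (χB i) (hχB i) φ
  have hno := fun i φ T hT => exists_ne H E i N (H2.uni i) (lC i) (hlC i) (χC i) (hχC i) φ T hT
  have hprodD : ∀ i (φ : K i →+* ℂ), j (∏ x ∈ bl P em i φ, x) =
      (-1) ^ (P i).natDegree * emb φ ((P i).coeff 0) := fun i φ => bl_prod H E i φ (hg5 i φ)
  have hcard : ∀ i (φ : K i →+* ℂ), 2 ≤ (bl P em i φ).card := fun i φ => by
    rw [bl_card H E i φ (hg5 i φ)]
    exact H.degree i
  -- the blocks are disjoint
  have hdisj : ∀ i (φ φ' : K i →+* ℂ), φ ≠ φ' → Disjoint (bl P em i φ) (bl P em i φ') := by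
    intro i φ φ' hne
    rw [Finset.disjoint_left]
    intro x hx hx'
    by_cases hc : φ' = ComplexEmbedding.conjugate φ
    · -- the block is contained in the conjugate block
      have hsub : ∀ y ∈ bl P em i φ, y ∈ bl P em i φ' := by
        intro y hy
        obtain ⟨n, hn⟩ := hg4 i φ x hx y hy
        rw [← hn]
        have hst : ∀ n : ℕ, ((g i φ) ^ n) x ∈ bl P em i φ' := by
          intro n
          induction n with
          | zero => exact hx'
          | succ n ih =>
            rw [pow_succ', AlgEquiv.mul_apply]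
            exact bl_stable H i φ' (g i φ) (hg2 i φ i _) _ ih
        exact hst n
      have heq : bl P em i φ = bl P em i φ' := by
        refine Finset.eq_of_subset_of_card_le hsub ?_
        rw [bl_card H E i φ (hg5 i φ), bl_card H E i φ' (hg5 i φ')]
      have h1 : emb φ ((P i).coeff 0) = emb φ' ((P i).coeff 0) := by
        have h2 := hprodD i φ
        rw [heq, hprodD i φ'] at h2
        exact (mul_left_cancel₀ (pow_ne_zero _ (neg_ne_zero.2 one_ne_zero)) h2).symm
      have hD0 : emb φ ((P i).coeff 0) ≠ 0 := by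
        intro h0
        have h2 := hprodD i φ
        rw [h0, mul_zero] at h2
        have h3 := (map_eq_zero j).1 h2
        rw [Finset.prod_eq_zero_iff] at h3
        obtain ⟨y, hy, hy0⟩ := h3
        exact bl_ne_zero H E i φ y hy hy0
      have h2 := hnd (fun i' ψ => if h : i' = i then
          (if h ▸ ψ = φ then 1 else if h ▸ ψ = φ' then -1 else 0) else 0) 1
        (one_mem _) 1 one_ne_zero (by
          rw [mul_one, Rat.cast_one, Finset.prod_eq_single_of_mem i (Finset.mem_univ i)]
          · rw [← Finset.prod_subset (Finset.subset_univ {φ, φ'})]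
            · rw [Finset.prod_pair hne]
              simp only [dif_pos, if_true, if_neg hne.symm]
              rw [zpow_one, zpow_neg, zpow_one, h1, mul_inv_cancel₀ (by rw [← h1]; exact hD0)]
            · intro ψ _ hψ
              rw [Finset.mem_insert, Finset.mem_singleton, not_or] at hψ
              simp only [dif_pos, if_neg hψ.1, if_neg hψ.2, zpow_zero]
          · intro i' _ hi'
            refine Finset.prod_eq_one fun ψ _ => ?_
            simp only [dif_neg hi', zpow_zero]) i φ
      rw [← hc] at h2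
      simp only [dif_pos, if_true, if_neg hne.symm] at h2
      norm_num at h2
    · -- the automorphism `g` fixes the other block
      have hfix : g i φ x = x := by
        refine (hg3 i φ).fix i φ' ?_ x hx'
        rintro ⟨hh, h1⟩
        rcases h1 with h1 | h1
        · exact hne h1.symm
        · exact hc h1
      obtain ⟨y, hy, hyx⟩ := Finset.exists_mem_ne (s := bl P em i φ)
        (by have := hcard i φ; omega) x
      obtain ⟨n, hn⟩ := hg4 i φ x hx y hy
      apply hyx
      rw [← hn]
      have hst : ∀ n : ℕ, ((g i φ) ^ n) x = x := by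
        intro n
        induction n with
        | zero => rfl
        | succ n ih => rw [pow_succ', AlgEquiv.mul_apply, ih, hfix]
      exact hst n
  have HB : Blocks q (fun i φ => ComplexEmbedding.conjugate φ) (bl P em) :=
    ⟨fun i => (H.q_pos i).ne', fun i φ => by simp, fun i φ => conjugate_ne φ,
      fun i φ x hx => bl_ne_zero H E i φ x hx, fun i φ x hx => bl_inv H E i φ x hx, hdisj⟩
  refine ⟨?_, ?_⟩
  swap
  · intro i
    -- separability
    have hs : ((weil (q i) (h i)).map (Int.castRingHom ℂ)).Separable := by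
      rw [H.norm i]
      refine separable_prod' ?_ ?_
      · intro φ _ φ' _ hne
        refine coprime_of_no_root ((H.monic i).map _).ne_zero ?_
        intro z hz hz'
        obtain ⟨x, rfl⟩ := hL i z (root_weil H i φ z hz)
        exact Finset.disjoint_left.1 (hdisj i φ φ' hne) (bl_of_root H E i φ x hz)
          (bl_of_root H E i φ' x hz')
      · intro φ _
        rw [← blkL_map E P i φ]
        exact (hg5 i φ).map
    have h2 : ((weil (q i) (h i)).map (Int.castRingHom ℂ)) =
        ((weil (q i) (h i)).map (Int.castRingHom ℚ)).map (algebraMap ℚ ℂ) := by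
      rw [Polynomial.map_map]
      congr 1
    rw [h2, separable_map] at hs
    exact hs
  · intro l hl t ht ν hν c hc hprod i z
    by_cases hz0 : z = 0
    · rw [hz0, div_zero]
    have hqC : ((q i : ℕ) : ℂ) ≠ 0 := by exact_mod_cast (H.q_pos i).ne'
    have hq' : ∀ i, q i ≠ 0 := fun i => (H.q_pos i).ne'
    by_cases hz : aeval z (weil (q i) (h i)) = 0
    swap
    · have h1 : (i, z) ∉ l := by
        intro h1
        have h3 : aeval z (weil (q i) (h i)) = 0 := hl (i, z) h1
        exact hz h3
      have h2 : (i, (q i : ℂ) / z) ∉ l := by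
        intro h2
        have h3 : aeval ((q i : ℂ) / z) (weil (q i) (h i)) = 0 := hl (i, (q i : ℂ) / z) h2
        have h4 := root_conj (hq' i) (H.hmonic i) h3
        rw [div_div_cancel₀ hqC] at h4
        exact hz h4
      exact (List.count_eq_zero.2 h1).trans (List.count_eq_zero.2 h2).symm
    have hmemL : ∀ i (x : L), aeval x (weil (q i) (h i)) = 0 → ∃ φ, x ∈ bl P em i φ := by
      intro i x hx
      have h1 : ((weil (q i) (h i)).map (Int.castRingHom ℂ)).eval (j x) = 0 := by
        rw [eval_map]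
        exact aeval_up j _ x hx
      rw [H.norm i, eval_prod, Finset.prod_eq_zero_iff] at h1
      obtain ⟨φ, -, hφ⟩ := h1
      exact ⟨φ, bl_of_root H E i φ x hφ⟩
    -- everything in `L`
    obtain ⟨l', rfl, hl'⟩ : ∃ l' : List (I × L), l'.map (Prod.map id j) = l ∧
        ∀ x ∈ l', aeval x.2 (weil (q x.1) (h x.1)) = 0 := by
      clear hprod
      induction l with
      | nil => exact ⟨[], rfl, by simp⟩
      | cons a T ih =>
        obtain ⟨T', h1, h2⟩ := ih fun z hz => hl z (List.mem_cons_of_mem a hz)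
        have h3 := hl a List.mem_cons_self
        obtain ⟨x, hx⟩ := hL a.1 a.2 h3
        refine ⟨(a.1, x) :: T', ?_, ?_⟩
        · rw [List.map_cons, h1]
          congr 1
          exact Prod.ext rfl hx
        · intro y hy
          rcases List.mem_cons.1 hy with e | e
          · rw [e]
            exact aeval_down j _ x (by rw [hx]; exact h3)
          · exact h2 y e
    obtain ⟨ν', hνj, hν'⟩ : ∃ ν' : L, j ν' = ν ∧
        ν' ∈ Submonoid.closure {x : L | aeval x R = 0} := by
      clear hprod
      induction hν using Submonoid.closure_induction with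
      | mem x hx =>
        obtain ⟨y, hy⟩ := hLR x hx
        exact ⟨y, hy, Submonoid.subset_closure (aeval_down j _ y (by rw [hy]; exact hx))⟩
      | one => exact ⟨1, map_one j, one_mem _⟩
      | mul x y _ _ h1 h2 =>
        obtain ⟨a, ha, ha'⟩ := h1
        obtain ⟨b, hb, hb'⟩ := h2
        exact ⟨a * b, by rw [map_mul, ha, hb], mul_mem ha' hb'⟩
    obtain ⟨α, rfl⟩ := hL i z hz
    have hα : aeval α (weil (q i) (h i)) = 0 := aeval_down j _ α hz
    obtain ⟨φα, hφα⟩ := hmemL i α hα
    have hinj : Function.Injective (Prod.map id j : I × L → I × ℂ) :=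
      Function.Injective.prodMap Function.injective_id j.injective
    have hqj : (q i : ℂ) / j α = j (q i / α) := by rw [map_div₀, map_natCast]
    rw [hqj]
    refine count_transfer (Prod.map id j) hinj l' (i, α) (i, (q i : L) / α) ?_
    set a : I → L → ℕ := fun i x => l'.count (i, x) with ha
    set Pr : L := (l'.map fun x => x.2).prod with hPr
    have hPe : Pr ^ t * ν' = (c : L) := by
      apply j.injective
      have e1 : ∀ k : List (I × L),
          ((k.map (Prod.map id j)).map fun x : I × ℂ => x.2 ^ t).prod =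
          (j (k.map fun x => x.2).prod) ^ t := by
        intro k
        induction k with
        | nil => simp
        | cons a k ih =>
          rw [List.map_cons, List.map_cons, List.prod_cons, ih, List.map_cons, List.prod_cons,
            map_mul, mul_pow]
          rfl
      rw [map_mul, map_pow, map_natCast, hνj, ← hprod, hPr, e1]
    have hc0 : ((c : ℕ) : L) ≠ 0 := by
      have : c ≠ 0 := hc.ne'
      exact_mod_cast this
    have hν0 : ν' ≠ 0 := by
      intro h0
      rw [h0, mul_zero] at hPe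
      exact hc0 hPe.symm
    have hPt : Pr ^ t ≠ 0 := by
      intro h0
      rw [h0, zero_mul] at hPe
      exact hc0 hPe.symm
    -- the products for automorphisms which fix the roots of `R`
    have hgen : ∀ σ : L ≃ₐ[ℚ] L, (∀ β : L, aeval β R = 0 → σ β = β) →
        ((l'.map fun x : I × L => σ x.2 / x.2).prod) ^ t = 1 := by
      intro σ s5
      have hσν : σ ν' = ν' := by
        have hall : ∀ y ∈ Submonoid.closure {x : L | aeval x R = 0}, σ y = y := by
          intro y hy
          induction hy using Submonoid.closure_induction with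
          | mem x hx => exact s5 x hx
          | one => exact map_one σ
          | mul x y _ _ h1 h2 => rw [map_mul, h1, h2]
        exact hall ν' hν'
      have hσP : (σ Pr) ^ t = Pr ^ t := by
        have h1 := congrArg σ hPe
        rw [map_mul, map_pow, hσν, map_natCast, ← hPe] at h1
        exact mul_right_cancel₀ hν0 h1
      have hprodf : (l'.map fun x : I × L => σ x.2 / x.2).prod = σ Pr / Pr := by
        have e1 : ∀ k : List (I × L), (k.map fun x : I × L => σ x.2 / x.2).prod =
            σ (k.map fun x => x.2).prod / (k.map fun x => x.2).prod := by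
          intro k
          induction k with
          | nil => simp
          | cons a k ih =>
            rw [List.map_cons, List.prod_cons, ih, List.map_cons, List.prod_cons, map_mul,
              div_mul_div_comm]
        exact e1 l'
      rw [hprodf, div_pow, hσP, div_self hPt]
    have hlB : ∀ x ∈ l', ∃ φ, x.2 ∈ bl P em x.1 φ := fun x hx => hmemL x.1 x.2 (hl' x hx)
    -- the exponents are constant on the blocks
    have hconst : ∀ i φ, ∃ cc : ℤ, ∀ x ∈ bl P em i φ, dif q a i x = cc := by
      intro i φ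
      refine HB.const a i φ (g i φ) (g' i φ) (hg3 i φ) (hg4 i φ) (hg6 i φ) (x₁ i φ) (hx₁ i φ)
        (hg7 i φ) (hg8 i φ) (fun T hT => hno i φ T hT) t ht ?_
      have h1 := hgen (g i φ) (hg1 i φ)
      rw [list_prod_eq (bl P em) hdisj (fun _ x => (g i φ) x / x) l' hlB] at h1
      exact h1
    choose e he using hconst
    have hbar : ∀ i φ, e i (ComplexEmbedding.conjugate φ) = - e i φ := by
      intro i φ
      have h1 := he i φ (x₁ i φ) (hx₁ i φ)
      have h2 := he i (ComplexEmbedding.conjugate φ) _ (bl_inv H E i φ _ (hx₁ i φ))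
      rw [HB.dif_inv, h1] at h2
      exact h2.symm
    obtain ⟨n, hn, htot⟩ := HB.tot_sq a e he
    have hPtot : Pr = tot (bl P em) a (fun _ x => x) := by
      rw [hPr, list_prod_eq (bl P em) hdisj (fun _ x => x) l' hlB]
      rfl
    -- the relation between the determinants
    have hrel : (∏ i, ∏ φ : K i →+* ℂ, (emb φ ((P i).coeff 0)) ^ (2 * (t : ℤ) * e i φ)) * ν ^ 4 =
        (((c : ℚ) ^ 4 / (n : ℚ) ^ (2 * t) : ℚ) : ℂ) := by
      have h1 : (Pr ^ 2) ^ (2 * t) * ν' ^ 4 = (c : L) ^ 4 := by
        rw [← hPe, mul_pow, ← pow_mul, ← pow_mul]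
        congr 2
        ring
      rw [hPtot, htot] at h1
      have h2 := congrArg j h1
      rw [map_mul, map_pow, map_mul, map_natCast, map_pow, map_pow, map_natCast, hνj] at h2
      have h3 : (j (∏ i, ∏ φ, (∏ x ∈ bl P em i φ, x) ^ e i φ)) ^ (2 * t) =
          ∏ i, ∏ φ : K i →+* ℂ, (emb φ ((P i).coeff 0)) ^ (2 * (t : ℤ) * e i φ) := by
        rw [map_prod, ← Finset.prod_pow]
        refine Finset.prod_congr rfl fun i _ => ?_
        rw [map_prod, ← Finset.prod_pow]
        refine Finset.prod_congr rfl fun φ _ => ?_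
        rw [map_zpow₀, hprodD i φ, ← zpow_natCast, ← zpow_mul, mul_zpow, ← zpow_natCast,
          ← zpow_mul]
        have h4 : ((-1 : ℂ)) ^ (((P i).natDegree : ℤ) * (e i φ * ((2 * t : ℕ) : ℤ))) = 1 := by
          have h5 : ((P i).natDegree : ℤ) * (e i φ * ((2 * t : ℕ) : ℤ)) =
              2 * (((P i).natDegree : ℤ) * (e i φ * (t : ℤ))) := by
            push_cast
            ring
          rw [h5, zpow_mul]
          norm_num
        rw [h4, one_mul]
        congr 1
        push_cast
        ring
      rw [mul_pow, h3] at h2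
      have hn0 : (n : ℂ) ≠ 0 := Nat.cast_ne_zero.2 hn.ne'
      push_cast
      rw [eq_div_iff (pow_ne_zero _ hn0), ← h2]
      ring
    have hnd' := hnd (fun i φ => 2 * (t : ℤ) * e i φ) (ν ^ 4) (pow_mem hν 4)
      ((c : ℚ) ^ 4 / (n : ℚ) ^ (2 * t)) (by
        have : (c : ℚ) ≠ 0 := Nat.cast_ne_zero.2 hc.ne'
        have : (n : ℚ) ≠ 0 := Nat.cast_ne_zero.2 hn.ne'
        positivity) hrel i φα
    rw [hbar] at hnd'
    have h0 : e i φα = 0 := by
      have h1 : (4 * (t : ℤ)) * e i φα = 0 := by linarith
      rcases mul_eq_zero.1 h1 with h2 | h2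
      · have : (0 : ℤ) < t := by exact_mod_cast ht
        omega
      · exact h2
    have h1 := he i φα α hφα
    rw [h0] at h1
    unfold dif at h1
    have h2 : (a i α : ℤ) = (a i ((q i : L) / α) : ℤ) := by linarith
    exact_mod_cast h2

end

end Pool.Agent.V8H88.UF
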