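import Pool.Agent.W458.MF.Fin2

/-!
# The sieve for products of families, abstract form
-/

set_option autoImplicit false
set_option linter.unusedSectionVars false

namespace Pool.Agent.V8H88.UF

open Pool.Agent.W458.MF

/-- **Almost all tuples have the patterns.** -/
theorem almost_all_abs (hS : St_SIEVE) {I K : Type} [Fintype I] [Fintype K]
    (S : I → ℕ → Type) [∀ i m, Fintype (S i m)] (G : Set ℕ) (hG : G.Infinite)
    (pat : K → ∀ (i : I) (m : ℕ), ℕ → Set (S i m)) (μ : K → I → ℕ → ℕ → ℝ)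
    (h1 : ∀ κ i, ∀ l ∈ G, ∀ ε : ℝ, 0 < ε → ∃ m₀ : ℕ, ∀ m ≥ m₀, Nonempty (S i m) →
      |((pat κ i m l).ncard : ℝ) / (Nat.card (S i m) : ℝ) - μ κ i m l| ≤ ε)
    (h2 : ∀ κ i, ∀ l ∈ G, ∀ l' ∈ G, l ≠ l' → ∀ ε : ℝ, 0 < ε → ∃ m₀ : ℕ, ∀ m ≥ m₀,
      Nonempty (S i m) →
      |((pat κ i m l ∩ pat κ i m l').ncard : ℝ) / (Nat.card (S i m) : ℝ) -
        μ κ i m l * μ κ i m l'| ≤ ε) {c₀ : ℝ} (hc₀ : 0 < c₀)
    (hμ : ∀ κ i, ∀ l ∈ G, ∀ m, Nonempty (S i m) → c₀ ≤ μ κ i m l ∧ μ κ i m l ≤ 1) (ε : ℝ)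
    (hε : 0 < ε) :
    ∃ m₀ : ℕ, ∀ m ≥ m₀, ({s : ∀ i, S i m | ¬ ∀ κ, ∃ l ∈ G, ∀ i, s i ∈ pat κ i m l}.ncard : ℝ) ≤
      ε * ∏ i, (Nat.card (S i m) : ℝ) := by
  classical
  have hempty : ∀ m, (∃ i, IsEmpty (S i m)) → ∀ B : Set (∀ i, S i m),
      (B.ncard : ℝ) ≤ ε * ∏ i, (Nat.card (S i m) : ℝ) := by
    rintro m ⟨i, hi⟩ B
    have : IsEmpty (∀ i, S i m) := ⟨fun s => hi.false (s i)⟩
    rw [Set.eq_empty_of_isEmpty B, Set.ncard_empty, Nat.cast_zero]
    positivity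
  set C : ℝ := c₀ ^ Fintype.card I with hC
  have hCpos : 0 < C := pow_pos hc₀ _
  set η : ℝ := ε / ((Fintype.card K : ℝ) + 1) with hη
  have hηpos : 0 < η := by positivity
  obtain ⟨M, hM⟩ := exists_nat_gt (2 / (C * η))
  obtain ⟨P, hP, hPM⟩ := hG.exists_subset_card_eq (M + 2)
  set δ : ℝ := η * C ^ 2 / (8 * ((Fintype.card I : ℝ) + 1)) with hδ
  have hδpos : 0 < δ := by positivity
  have hev1 : ∀ᶠ m in Filter.atTop, ∀ κ i, ∀ l : P, Nonempty (S i m) →
      |((pat κ i m l).ncard : ℝ) / (Nat.card (S i m) : ℝ) - μ κ i m l| ≤ δ := by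
    rw [Filter.eventually_all]
    intro κ
    rw [Filter.eventually_all]
    intro i
    rw [Filter.eventually_all]
    intro l
    obtain ⟨m₀, h4⟩ := h1 κ i l (hP l.2) δ hδpos
    exact Filter.eventually_atTop.2 ⟨m₀, fun m hm => h4 m hm⟩
  have hev2 : ∀ᶠ m in Filter.atTop, ∀ κ i, ∀ l l' : P, l ≠ l' → Nonempty (S i m) →
      |((pat κ i m l ∩ pat κ i m l').ncard : ℝ) / (Nat.card (S i m) : ℝ) -
        μ κ i m l * μ κ i m l'| ≤ δ := by
    rw [Filter.eventually_all]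
    intro κ
    rw [Filter.eventually_all]
    intro i
    rw [Filter.eventually_all]
    intro l
    rw [Filter.eventually_all]
    intro l'
    by_cases hll : l = l'
    · exact Filter.Eventually.of_forall fun m h => absurd hll h
    · obtain ⟨m₀, h4⟩ := h2 κ i l (hP l.2) l' (hP l'.2) (fun h => hll (Subtype.ext h)) δ hδpos
      exact Filter.eventually_atTop.2 ⟨m₀, fun m hm _ => h4 m hm⟩
  obtain ⟨m₀, hm₀⟩ := Filter.eventually_atTop.1 (hev1.and hev2)
  refine ⟨m₀, fun m hm => ?_⟩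
  by_cases hne : ∀ i, Nonempty (S i m)
  swap
  · push Not at hne
    exact hempty m hne _
  have hcard : 1 < Fintype.card P := by
    rw [Fintype.card_coe, hPM]
    omega
  have hnek : Nonempty P := Fintype.card_pos_iff.1 (by omega)
  -- the bound for the families of events
  have hbound : ∀ κ : K,
      ({s : ∀ i, S i m | ∀ l : P, ¬ ∀ i, s i ∈ pat κ i m l}.ncard : ℝ) ≤
        η * ∏ i, (Nat.card (S i m) : ℝ) := by
    intro κ
    have h3 := event_bound hS (S := fun i => S i m) (κ := P)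
      (fun i l => pat κ i m l) (fun i l => μ κ i m l)
      hc₀ hδpos.le (fun i l => hμ κ i l (hP l.2) m (hne i))
      (fun i l => (hm₀ m hm).1 κ i l (hne i))
      (fun i l l' hll => (hm₀ m hm).2 κ i l l' hll (hne i))
    refine h3.trans (mul_le_mul_of_nonneg_right ?_ (by positivity))
    rw [← hC]
    have h2 : 1 / (C * (Nat.card P : ℝ)) ≤ η / 2 := by
      have h3 : (M : ℝ) ≤ (Nat.card P : ℝ) := by
        rw [Nat.card_eq_fintype_card, Fintype.card_coe, hPM]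
        push_cast
        linarith
      have h4 : 2 / (C * η) < (Nat.card P : ℝ) := hM.trans_le h3
      rw [div_lt_iff₀ (by positivity)] at h4
      have h5 : 0 < (Nat.card P : ℝ) := by
        exact_mod_cast Nat.card_pos
      rw [div_le_div_iff₀ (by positivity) (by norm_num)]
      nlinarith
    have h3 : 4 * ((Fintype.card I : ℝ) * δ) / C ^ 2 ≤ η / 2 := by
      rw [hδ, div_le_iff₀ (by positivity)]
      have e : 4 * ((Fintype.card I : ℝ) * (η * C ^ 2 / (8 * ((Fintype.card I : ℝ) + 1)))) =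
          (η / 2 * C ^ 2) * ((Fintype.card I : ℝ) / ((Fintype.card I : ℝ) + 1)) := by
        field_simp
        ring
      rw [e]
      have h6 : (Fintype.card I : ℝ) / ((Fintype.card I : ℝ) + 1) ≤ 1 :=
        div_le_one_of_le₀ (by linarith) (by positivity)
      calc (η / 2 * C ^ 2) * ((Fintype.card I : ℝ) / ((Fintype.card I : ℝ) + 1))
          ≤ (η / 2 * C ^ 2) * 1 := mul_le_mul_of_nonneg_left h6 (by positivity)
        _ = η / 2 * C ^ 2 := mul_one _
    linarith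
  have hsub : {s : ∀ i, S i m | ¬ ∀ κ, ∃ l ∈ G, ∀ i, s i ∈ pat κ i m l} ⊆
      ⋃ κ, {s : ∀ i, S i m | ∀ l : P, ¬ ∀ i, s i ∈ pat κ i m l} := by
    intro s hs
    rw [Set.mem_iUnion]
    by_contra hcon
    push Not at hcon
    apply hs
    intro κ
    have h3 := hcon κ
    by_contra h4
    push Not at h4
    exact h3 fun l => h4 l (hP l.2)
  have hP0 : 0 ≤ ∏ i, (Nat.card (S i m) : ℝ) := by positivity
  calc ({s : ∀ i, S i m | ¬ ∀ κ, ∃ l ∈ G, ∀ i, s i ∈ pat κ i m l}.ncard : ℝ)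
      ≤ ((⋃ κ, {s : ∀ i, S i m | ∀ l : P, ¬ ∀ i, s i ∈ pat κ i m l}).ncard : ℝ) := by
        exact_mod_cast Set.ncard_le_ncard hsub (Set.toFinite _)
    _ ≤ ∑ _κ : K, η * ∏ i, (Nat.card (S i m) : ℝ) := ncard_iUnion_le' _ _ hbound
    _ = ((Fintype.card K : ℝ) * η) * ∏ i, (Nat.card (S i m) : ℝ) := by
        rw [Finset.sum_const, Finset.card_univ, nsmul_eq_mul]
        ring
    _ ≤ ε * ∏ i, (Nat.card (S i m) : ℝ) := by
        refine mul_le_mul_of_nonneg_right ?_ hP0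
        rw [hη, mul_div_assoc', div_le_iff₀ (by positivity)]
        nlinarith [(Nat.cast_nonneg (Fintype.card K) : (0 : ℝ) ≤ Fintype.card K)]

end Pool.Agent.V8H88.UF
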