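import Pool.Agent.V8H88.UF.Spl
import Pool.Agent.V8H88.UF.Sieve
import Pool.Agent.V8H88.UF.NT
import Pool.Agent.W458.MF.Gen4

/-!
# Families with unitary monodromy: almost all tuples satisfy the hypotheses of the geometric theorem
-/

set_option autoImplicit false
set_option linter.unusedSectionVars false

open CategoryTheory AlgebraicGeometry Polynomial NumberField

universe u v

namespace Pool.Agent.V8H88.UF

open Pool.Agent.H914 Pool.Agent.W534 Pool.Agent.W521.Frob Pool.Agent.W458.MF VarClass Obj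
  WeilCohomology

lemma exists_R' {K : Type*} [Field K] [CharZero K] {S : Set K} (hS : S.Finite)
    (h : ∀ x ∈ S, IsIntegral ℤ x) : ∃ R : ℤ[X], R.Monic ∧
      (R.map (Int.castRingHom ℚ)).Separable ∧ (∀ x ∈ S, aeval x R = 0) ∧
      ∀ z : ℂ, aeval z R = 0 → ∃ x ∈ S, aeval z (minpoly ℤ x) = 0 := by
  classical
  set T : Finset ℤ[X] := hS.toFinset.image (minpoly ℤ) with hT
  have hmem : ∀ f ∈ T, ∃ x ∈ S, f = minpoly ℤ x := by
    intro f hf
    obtain ⟨x, hx, rfl⟩ := Finset.mem_image.1 hf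
    exact ⟨x, hS.mem_toFinset.1 hx, rfl⟩
  have hmap : ∀ x ∈ S, (minpoly ℤ x).map (Int.castRingHom ℚ) = minpoly ℚ x := by
    intro x hx
    rw [minpoly.isIntegrallyClosed_eq_field_fractions' ℚ (h x hx)]
    rfl
  refine ⟨∏ f ∈ T, f, ?_, ?_, ?_, ?_⟩
  · refine monic_prod_of_monic _ _ fun f hf => ?_
    obtain ⟨x, hx, rfl⟩ := hmem f hf
    exact minpoly.monic (h x hx)
  · rw [Polynomial.map_prod]
    refine separable_prod' ?_ ?_
    · intro f hf f' hf' hne
      obtain ⟨x, hx, rfl⟩ := hmem f hf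
      obtain ⟨y, hy, rfl⟩ := hmem f' hf'
      rw [hmap x hx, hmap y hy]
      have hxi : IsIntegral ℚ x := (h x hx).tower_top
      have hyi : IsIntegral ℚ y := (h y hy).tower_top
      rw [(minpoly.irreducible hxi).coprime_iff_not_dvd]
      intro hdvd
      apply hne
      have h1 : minpoly ℚ x = minpoly ℚ y :=
        eq_of_monic_of_associated (minpoly.monic hxi) (minpoly.monic hyi)
          ((minpoly.irreducible hxi).associated_of_dvd (minpoly.irreducible hyi) hdvd)
      rw [← hmap x hx, ← hmap y hy] at h1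
      exact map_injective _ Int.cast_injective h1
    · intro f hf
      obtain ⟨x, hx, rfl⟩ := hmem f hf
      rw [hmap x hx]
      exact (minpoly.irreducible (h x hx).tower_top).separable
  · intro x hx
    rw [map_prod]
    refine Finset.prod_eq_zero (i := minpoly ℤ x) ?_ (minpoly.aeval ℤ x)
    exact Finset.mem_image_of_mem _ (hS.mem_toFinset.2 hx)
  · intro z hz
    rw [map_prod, Finset.prod_eq_zero_iff] at hz
    obtain ⟨f, hf, hz⟩ := hz
    obtain ⟨x, hx, rfl⟩ := hmem f hf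
    exact ⟨x, hx, hz⟩

lemma minpoly_separable {K : Type} [Field K] [NumberField K] (θ : 𝓞 K) :
    ((minpoly ℤ θ).map (Int.castRingHom ℚ)).Separable := by
  have h3 : minpoly ℤ θ = minpoly ℤ (θ : K) :=
    (minpoly.algebraMap_eq (RingOfIntegers.coe_injective) θ).symm
  have h4 : (minpoly ℤ (θ : K)).map (Int.castRingHom ℚ) = minpoly ℚ (θ : K) := by
    rw [minpoly.isIntegrallyClosed_eq_field_fractions' ℚ (θ.isIntegral_coe)]
    rfl
  rw [h3, h4]
  exact (minpoly.irreducible (θ.isIntegral_coe.tower_top)).separable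

/-- Powers of independent numbers. -/
theorem NonDegenerate.of_pow {I : Type} [Fintype I] {K : I → Type} [∀ i, Field (K i)]
    [∀ i, NumberField (K i)] {δ : ∀ i, 𝓞 (K i)} {B B' : Set ℂ} (h : NonDegenerate K δ B)
    (hB : B' ⊆ B) (D : ∀ i, 𝓞 (K i)) (m : ℕ) (hm : 0 < m) (n : I → ℕ) (M : I → ℕ)
    (hM : ∀ i, 0 < M i) (hD : ∀ i, D i ^ M i = δ i ^ (M i * m)) :
    NonDegenerate K (fun i => (-1) ^ n i * D i) B' := by
  classical
  intro c ν hν r hr hrel i φ
  set M' : ℕ := ∏ i, M i with hM'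
  have hM'0 : 0 < M' := Finset.prod_pos fun i _ => hM i
  have hD' : ∀ i, D i ^ M' = δ i ^ (M' * m) := by
    intro i
    obtain ⟨e, he⟩ := Finset.dvd_prod_of_mem M (Finset.mem_univ i)
    rw [hM', he, pow_mul, hD, ← pow_mul]
    congr 1
    ring
  have h1 := h (fun i φ => (2 * M' * m : ℕ) * c i φ) (ν ^ (2 * M'))
    (pow_mem (Submonoid.closure_mono hB hν) _) (r ^ (2 * M')) (pow_ne_zero _ hr) (by
      push_cast
      rw [← hrel, mul_pow]
      congr 1
      rw [← Finset.prod_pow]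
      refine Finset.prod_congr rfl fun i _ => ?_
      rw [← Finset.prod_pow]
      refine Finset.prod_congr rfl fun φ _ => ?_
      have h2 : ((emb φ) ((-1) ^ n i * D i)) ^ (2 * M') = (emb φ (δ i)) ^ (2 * M' * m) := by
        rw [← map_pow, ← map_pow]
        congr 1
        rw [mul_pow, ← pow_mul, mul_comm 2 M', ← mul_assoc, pow_mul (-1) _ 2,
          ← pow_mul (-1) (n i * M') 2, mul_comm (n i * M') 2, pow_mul (-1) 2]
        rw [neg_one_sq, one_pow, one_mul, pow_mul, hD', ← pow_mul]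
        congr 1
        ring
      have h3 : ∀ x : ℂ, (x ^ c i φ) ^ (2 * M') = (x ^ (2 * M')) ^ c i φ := fun x => by
        rw [← zpow_natCast, ← zpow_natCast, ← zpow_mul, ← zpow_mul, mul_comm]
      rw [h3, h2, ← zpow_natCast, ← zpow_mul]
      push_cast
      rfl) i φ
  have h2 : ((2 * M' * m : ℕ) : ℤ) ≠ 0 := by
    have : 0 < 2 * M' * m := by positivity
    exact_mod_cast this.ne'
  exact mul_left_cancel₀ h2 h1

section Family

variable {k : Type u} [Field k] {𝒱 : VarClass k} {ops : CycleOps 𝒱}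
  {W : WeilCohomology.{u, v} ops} {Y : 𝒱.Obj} {p : ℕ} {Φ : FrobSystem W p}

section One

variable {K : Type} [Field K] [NumberField K] [IsCMField K] {F : UFamily W Y K} {d n l₀ : ℕ}
  {D : ℕ → 𝓞 K} {δ : 𝓞 K}

/-- The norm of the determinant. -/
lemma det_mul_cc (hF : F.HasUnitaryMonodromy Φ d n l₀ D δ) (m : ℕ) (s : F.S m) :
    D m * cc K (D m) = ((p ^ (d * m) : ℕ) : 𝓞 K) ^ n := by
  classical
  have hne : Nonempty (K →+* ℂ) := inferInstance
  obtain ⟨φ⟩ := hne
  have hinj : Function.Injective (emb φ) := φ.injective.comp RingOfIntegers.coe_injective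
  apply hinj
  set f : ℂ[X] := (F.upol m s).map (emb φ) with hf
  have hm : f.Monic := (hF.monic m s).map _
  have hdeg : f.natDegree = n := by
    rw [hf, (hF.monic m s).natDegree_map, hF.degree m s]
  have hsp : f.Splits := IsAlgClosed.splits f
  have h1 := hsp.coeff_zero_eq_prod_roots_of_monic hm
  have h2 : f.coeff 0 = (-1) ^ n * emb φ (D m) := by
    rw [hf, coeff_map, hF.det m s, map_mul, map_pow, map_neg, map_one]
  have h3 : emb φ (D m) = f.roots.prod := by
    rw [h2, hdeg] at h1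
    exact mul_left_cancel₀ (pow_ne_zero _ (neg_ne_zero.2 one_ne_zero)) h1
  have h4 : emb φ (cc K (D m)) = (starRingEnd ℂ) (emb φ (D m)) :=
    RingHom.congr_fun (emb_cc φ) (D m)
  have h5 : ∀ R : Multiset ℂ, (∀ z ∈ R, ‖z‖ ^ 2 = (p : ℝ) ^ (d * m)) →
      R.prod * (starRingEnd ℂ) R.prod = (((p : ℝ) ^ (d * m)) ^ R.card : ℝ) := by
    intro R
    induction R using Multiset.induction_on with
    | empty => intro _; simp
    | cons a R ih =>
      intro hR
      have h6 := ih fun z hz => hR z (Multiset.mem_cons_of_mem hz)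
      have h7 := hR a (Multiset.mem_cons_self a R)
      rw [Multiset.prod_cons, map_mul, mul_mul_mul_comm, h6, Complex.mul_conj,
        Complex.normSq_eq_norm_sq, h7, Multiset.card_cons, pow_succ']
      push_cast
      rfl
  rw [map_mul, h4, h3, h5 f.roots fun z hz => hF.weight m s φ z (isRoot_of_mem_roots hz),
    ← hsp.natDegree_eq_card_roots, hdeg, map_pow, map_natCast]
  push_cast
  rfl

/-- The degree of the polynomial of a member. -/
lemma degree_pol (hF : F.HasUnitaryMonodromy Φ d n l₀ D δ) (m : ℕ) (hm : 0 < m) (s : F.S m) :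
    2 * (F.member m s).pol.natDegree = Module.finrank ℚ K * n := by
  have h1 := congrArg natDegree (hF.norm m s)
  have hmon := (hF.isOver m hm s).monic
  rw [(weil_monic _ hmon).natDegree_map, weil_natDegree _ hmon,
    natDegree_prod_of_monic _ _ fun φ _ => (hF.monic m s).map _] at h1
  rw [h1, Finset.sum_congr rfl fun φ _ => (hF.monic m s).natDegree_map (emb φ),
    Finset.sum_const, Finset.card_univ, hF.degree m s, smul_eq_mul,
    NumberField.Embeddings.card K ℂ]

/-- The set of members with a pattern. -/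
def UFamily.upat (F : UFamily W Y K) (m l : ℕ) (E : Set ((𝓞 K →+* ZMod l) → (ZMod l)[X])) :
    Set (F.S m) :=
  {s | (fun χ : 𝓞 K →+* ZMod l => (F.upol m s).map χ) ∈ E}

lemma equi_pair (hF : F.HasUnitaryMonodromy Φ d n l₀ D δ) {l l' : ℕ} (hl : l.Prime)
    (hl' : l'.Prime) (h0 : l₀ ≤ l) (h0' : l₀ ≤ l') (hll : l ≠ l') (hs : SplitsCompletely K l)
    (hs' : SplitsCompletely K l') {ε : ℝ} (hε : 0 < ε) :
    ∃ m₀ : ℕ, ∀ m ≥ m₀, Nonempty (F.S m) →
      ∀ (E : Set ((𝓞 K →+* ZMod l) → (ZMod l)[X])) (E' : Set ((𝓞 K →+* ZMod l') → (ZMod l')[X])),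
        |((F.upat m l E ∩ F.upat m l' E').ncard : ℝ) / (Nat.card (F.S m) : ℝ) -
          uproportion K n l (p ^ (d * m)) (D m) E *
            uproportion K n l' (p ^ (d * m)) (D m) E'| ≤ ε := by
  obtain ⟨m₀, h⟩ := hF.equidistributed l l' hl hl' h0 h0' hll hs hs' ε hε
  exact ⟨m₀, fun m hm hne E E' => h m hm hne E E'⟩

lemma equi_single (hF : F.HasUnitaryMonodromy Φ d n l₀ D δ) {l l' : ℕ} (hl : l.Prime)
    (hl' : l'.Prime) (h0 : l₀ ≤ l) (h0' : l₀ ≤ l') (hll : l ≠ l') (hs : SplitsCompletely K l)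
    (hs' : SplitsCompletely K l') {ε : ℝ} (hε : 0 < ε) :
    ∃ m₀ : ℕ, ∀ m ≥ m₀, Nonempty (F.S m) →
      ∀ (E : Set ((𝓞 K →+* ZMod l) → (ZMod l)[X])),
        |((F.upat m l E).ncard : ℝ) / (Nat.card (F.S m) : ℝ) -
          uproportion K n l (p ^ (d * m)) (D m) E| ≤ ε := by
  obtain ⟨m₀, h⟩ := equi_pair hF hl hl' h0 h0' hll hs hs' (ε := ε / 2) (by positivity)
  refine ⟨m₀, fun m hm hne E => ?_⟩
  have h3 := h m hm hne E Set.univ
  have h4 := h m hm hne Set.univ Set.univ
  have e1 : F.upat m l E ∩ F.upat m l' Set.univ = F.upat m l E := by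
    ext s
    simp [UFamily.upat]
  have e2 : F.upat m l Set.univ ∩ F.upat m l' Set.univ = Set.univ := by
    ext s
    simp [UFamily.upat]
  rw [e1] at h3
  rw [e2, Set.ncard_univ, div_self (by exact_mod_cast Nat.card_pos.ne')] at h4
  have h5 := uproportion_le_one (n := n) (q := p ^ (d * m)) (D := D m) hl hs E
  have h6 := uproportion_nonneg K n l (p ^ (d * m)) (D m) E
  have h7 := uproportion_le_one (n := n) (q := p ^ (d * m)) (D := D m) hl hs Set.univ
  have h8 := uproportion_nonneg K n l' (p ^ (d * m)) (D m) Set.univ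
  rw [abs_le] at h3 h4 ⊢
  have h10 : 1 - uproportion K n l' (p ^ (d * m)) (D m) Set.univ ≤ ε / 2 := by
    have : uproportion K n l (p ^ (d * m)) (D m) Set.univ *
        uproportion K n l' (p ^ (d * m)) (D m) Set.univ ≤
        1 * uproportion K n l' (p ^ (d * m)) (D m) Set.univ :=
      mul_le_mul_of_nonneg_right h7 h8
    linarith [h4.2]
  have h9 := uproportion_le_one (n := n) (q := p ^ (d * m)) (D := D m) hl' hs' Set.univ
  have h11 : uproportion K n l (p ^ (d * m)) (D m) E *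
      (1 - uproportion K n l' (p ^ (d * m)) (D m) Set.univ) ≤ 1 * (ε / 2) :=
    mul_le_mul h5 h10 (by linarith) (by norm_num)
  have h12 : 0 ≤ uproportion K n l (p ^ (d * m)) (D m) E *
      (1 - uproportion K n l' (p ^ (d * m)) (D m) Set.univ) := mul_nonneg h6 (by linarith)
  constructor
  · linarith [h3.1]
  · linarith [h3.2]

end One

/-- The patterns. -/
def evs {I : Type} [DecidableEq I] (K : I → Type) [∀ i, Field (K i)] [∀ i, NumberField (K i)]
    [∀ i, IsCMField (K i)] (N : ℕ) (κ : I × Fin 3) (i : I) (l : ℕ) :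
    Set ((𝓞 (K i) →+* ZMod l) → (ZMod l)[X]) :=
  match κ.2 with
  | 0 => if i = κ.1 then {Q | ∃ χ₀, PatA (K i) l χ₀ Q} else {Q | Pass (K i) l Q}
  | 1 => if i = κ.1 then {Q | ∃ χ₀, PatB (K i) l χ₀ Q} else Set.univ
  | 2 => if i = κ.1 then {Q | ∃ χ₀, PatC (K i) l N χ₀ Q} else Set.univ

/-- **Almost all tuples of members of families with unitary monodromy satisfy the hypotheses of the
geometric theorem.** -/
theorem unitary_setup (hS : St_SIEVE) (hSPL : St_SPL)
    (hUNI : St_UNI) (σ : W.K →+* ℂ) (hp : p.Prime)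
    (hint : ∀ μ : W.K, Module.End.HasEigenvalue (W.map (Φ.Fr Y)).toLinearMap μ → IsIntegral ℤ μ)
    {I : Type} [Fintype I] (K : I → Type) [∀ i, Field (K i)] [∀ i, NumberField (K i)]
    [∀ i, IsCMField (K i)] (F : ∀ i, UFamily W Y (K i)) (d n l₀ : I → ℕ)
    (D : ∀ i, ℕ → 𝓞 (K i)) (δ : ∀ i, 𝓞 (K i))
    (hF : ∀ i, (F i).HasUnitaryMonodromy Φ (d i) (n i) (l₀ i) (D i) (δ i))
    (hnd : NonDegenerate K δ (frobeniusNumbers Φ Y)) (ε : ℝ) (hε : 0 < ε) :
    ∃ (R : ℤ[X]) (m₀ : ℕ), ∀ m ≥ m₀, ({s : ∀ i, (F i).S m |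
        ¬ Setup Φ σ (fun i => (F i).member m (s i)) m R}.ncard : ℝ) ≤
      ε * ∏ i, (Nat.card ((F i).S m) : ℝ) := by
  classical
  obtain ⟨R, hRm, hRs, hR, hRz⟩ := exists_R'
    (Module.End.finite_hasEigenvalue (W.map (Φ.Fr Y)).toLinearMap) hint
  set dg : ℕ := ∑ i, Module.finrank ℚ (K i) * n i with hdg
  obtain ⟨N, hN, hNz⟩ := hUNI (dg * dg)
  refine ⟨R, ?_⟩
  choose θ Nθ hθ using fun i => exists_gen (K i)
  choose c hc l₁ hl₁ using fun i => dens (K := K i) (n i) N (hF i).rank hN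
  obtain ⟨c₀, hc₀, hc₀c⟩ : ∃ c₀ : ℝ, 0 < c₀ ∧ ∀ i, c₀ ≤ c i := by
    rcases isEmpty_or_nonempty I with hI | hI
    · exact ⟨1, one_pos, fun i => hI.elim i⟩
    · obtain ⟨i, hi⟩ := Finite.exists_min c
      exact ⟨c i, hc i, hi⟩
  set L : ℕ := p + 3 + ∑ i, (l₀ i + l₁ i + Nθ i) with hL
  have hLi : ∀ i, l₀ i + l₁ i + Nθ i ≤ L := fun i => by
    have := Finset.single_le_sum (f := fun i => l₀ i + l₁ i + Nθ i) (fun j _ => Nat.zero_le _)
      (Finset.mem_univ i)
    omega
  -- the primes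
  obtain ⟨A, hA, hAs, hAd⟩ := exists_common (I := Option I)
    (fun x => match x with | none => R | some i => minpoly ℤ (θ i))
    (fun x => match x with
      | none => hRm
      | some i => minpoly.monic (Algebra.IsIntegral.isIntegral (θ i)))
    (fun x => match x with | none => hRs | some i => minpoly_separable (θ i))
  have hAR : R ∣ A := hAd none
  have hAD : ∀ i, minpoly ℤ (θ i) ∣ A := fun i => hAd (some i)
  set G : Set ℕ := {l : ℕ | l.Prime ∧ SplitsMod A l} \ {l | l ≤ L} with hG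
  have hinf : G.Infinite := (hSPL A hA hAs).sdiff (Set.finite_le_nat L)
  have hGp : ∀ l ∈ G, l.Prime ∧ SplitsMod A l ∧ L < l := fun l hl =>
    ⟨hl.1.1, hl.1.2, not_le.1 hl.2⟩
  have hGR : ∀ l ∈ G, SplitsMod R l := fun l hl =>
    splitsMod_of_dvd hRm hAR (hGp l hl).1 (hGp l hl).2.1
  have hGθ : ∀ i, ∀ l ∈ G, SplitsMod (minpoly ℤ (θ i)) l := fun i l hl =>
    splitsMod_of_dvd (minpoly.monic (Algebra.IsIntegral.isIntegral (θ i))) (hAD i) (hGp l hl).1
      (hGp l hl).2.1
  have hGN : ∀ i, ∀ l ∈ G, ¬ l ∣ Nθ i := by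
    intro i l hl h
    have h1 := (hGp l hl).2.2
    have h2 := hLi i
    have h3 := Nat.le_of_dvd (hθ i).pos h
    omega
  have hGs : ∀ i, ∀ l ∈ G, SplitsCompletely (K i) l := fun i l hl =>
    splitsCompletely_of (hθ i) l (hGp l hl).1 (hGθ i l hl) (hGN i l hl)
  have hGl : ∀ i, ∀ l ∈ G, l₀ i ≤ l := by
    intro i l hl
    have h1 := (hGp l hl).2.2
    have h2 := hLi i
    omega
  have hGlp : ∀ l ∈ G, ¬ l ∣ p := by
    intro l hl h
    have h1 := (hGp l hl).2.2
    have h3 := Nat.le_of_dvd hp.pos h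
    omega
  have hGne : ∀ l, ∃ l' ∈ G, l ≠ l' := by
    intro l
    obtain ⟨l', hl', hne⟩ := hinf.exists_gt l
    exact ⟨l', hl', by omega⟩
  have hdens : ∀ i, ∀ l ∈ G, ∀ m : ℕ, Nonempty ((F i).S m) → ∀ κ : I × Fin 3,
      c₀ ≤ uproportion (K i) (n i) l (p ^ (d i * m)) (D i m) (evs K N κ i l) := by
    rintro i l hl m ⟨s⟩ ⟨i₀, e⟩
    have h4 := hLi i
    have h3 := (hGp l hl).2.2
    have hsp := hGs i l hl
    have hprime := (hGp l hl).1
    have hfin := finite_homs hsp
    obtain ⟨χ₀⟩ : Nonempty (𝓞 (K i) →+* ZMod l) := by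
      refine (Nat.card_pos_iff.1 ?_).1
      rw [hsp]
      exact Module.finrank_pos
    have hq : ¬ l ∣ p ^ (d i * m) := fun h => hGlp l hl (hprime.dvd_of_dvd_pow h)
    obtain ⟨h5, h6, h7, h8⟩ := hl₁ i l hprime (by omega) hsp
      (fun χ => comp_cc_ne (hθ i) l hprime (hGθ i l hl) χ) (p ^ (d i * m)) hq (D i m)
      (by
        have := det_mul_cc (hF i) m s
        exact this) χ₀
    have h9 := hc₀c i
    have huniv : c₀ ≤ uproportion (K i) (n i) l (p ^ (d i * m)) (D i m) Set.univ :=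
      (h9.trans h5).trans (uproportion_mono hprime hsp (Set.subset_univ _))
    unfold evs
    fin_cases e
    · dsimp only
      split_ifs
      · exact (h9.trans h5).trans (uproportion_mono hprime hsp fun Q hQ => ⟨χ₀, hQ⟩)
      · exact h9.trans h8
    · dsimp only
      split_ifs
      · exact (h9.trans h6).trans (uproportion_mono hprime hsp fun Q hQ => ⟨χ₀, hQ⟩)
      · exact huniv
    · dsimp only
      split_ifs
      · exact (h9.trans h7).trans (uproportion_mono hprime hsp fun Q hQ => ⟨χ₀, hQ⟩)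
      · exact huniv
  obtain ⟨m₀, h⟩ := almost_all_abs hS (I := I) (K := I × Fin 3) (fun i m => (F i).S m) G hinf
    (fun κ i m l => (F i).upat m l (evs K N κ i l))
    (fun κ i m l => uproportion (K i) (n i) l (p ^ (d i * m)) (D i m) (evs K N κ i l))
    (by
      intro κ i l hl ε hε
      obtain ⟨l', hl', hne⟩ := hGne l
      obtain ⟨m₀, h⟩ := equi_single (hF i) (hGp l hl).1 (hGp l' hl').1 (hGl i l hl)
        (hGl i l' hl') hne (hGs i l hl) (hGs i l' hl') hε
      exact ⟨m₀, fun m hm hne => h m hm hne _⟩)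
    (by
      intro κ i l hl l' hl' hne ε hε
      obtain ⟨m₀, h⟩ := equi_pair (hF i) (hGp l hl).1 (hGp l' hl').1 (hGl i l hl)
        (hGl i l' hl') hne (hGs i l hl) (hGs i l' hl') hε
      exact ⟨m₀, fun m hm hne => h m hm hne _ _⟩) hc₀
    (fun κ i l hl m hne => ⟨hdens i l hl m hne κ,
      uproportion_le_one (hGp l hl).1 (hGs i l hl) _⟩) ε hε
  refine ⟨m₀ + 1, fun m hm => le_trans ?_ (h m (by omega))⟩
  have hm0 : 0 < m := by omega
  refine Nat.cast_le.2 (Set.ncard_le_ncard ?_ (Set.toFinite _))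
  intro s hs hpat
  apply hs
  have hO : ∀ i, ((F i).member m (s i)).IsOver Φ m := fun i => (hF i).isOver m hm0 (s i)
  have hdim : ∀ i, ((F i).member m (s i)).obj.dim = d i := fun i => (hF i).dim m (s i)
  have hU : UData K (fun i => p ^ (d i * m)) (fun i => ((F i).member m (s i)).pol)
      (fun i => (F i).upol m (s i)) :=
    { q_pos := fun i => pow_pos hp.pos _
      hmonic := fun i => (hO i).monic
      monic := fun i => (hF i).monic m (s i)
      degree := fun i => by rw [(hF i).degree m (s i)]; exact (hF i).rank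
      norm := fun i => (hF i).norm m (s i)
      weight := fun i φ z hz => by
        rw [(hF i).weight m (s i) φ z hz]
        push_cast
        rfl }
  have hP : Pats K (fun i => ((F i).member m (s i)).pol) (fun i => (F i).upol m (s i)) θ Nθ R N :=
    { gen := hθ
      R_monic := hRm
      uni := by
        rintro i z ht ⟨Q, hQ0, hQd, hQz⟩
        refine hNz z ht ⟨Q, hQ0, hQd.trans ?_, hQz⟩
        rw [degree_pol (hF i) m hm0 (s i)]
        have h1 : Module.finrank ℚ (K i) * n i ≤ dg :=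
          Finset.single_le_sum (f := fun i => Module.finrank ℚ (K i) * n i)
            (fun j _ => Nat.zero_le _) (Finset.mem_univ i)
        exact Nat.mul_le_mul h1 h1
      patA := by
        intro i₀
        obtain ⟨l, hl, h1⟩ := hpat (i₀, 0)
        have h2 := h1 i₀
        unfold evs UFamily.upat at h2
        dsimp only at h2
        rw [if_pos rfl] at h2
        obtain ⟨χ₀, h2⟩ := h2
        refine ⟨l, (hGp l hl).1, hGR l hl, fun i => hGθ i l hl, fun i => hGN i l hl, χ₀, h2,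
          fun i hi => ?_⟩
        have h3 := h1 i
        unfold evs UFamily.upat at h3
        dsimp only at h3
        rw [if_neg hi] at h3
        exact h3
      patB := by
        intro i₀
        obtain ⟨l, hl, h1⟩ := hpat (i₀, 1)
        have h2 := h1 i₀
        unfold evs UFamily.upat at h2
        dsimp only at h2
        rw [if_pos rfl] at h2
        obtain ⟨χ₀, h2⟩ := h2
        exact ⟨l, (hGp l hl).1, hGθ i₀ l hl, χ₀, h2⟩
      patC := by
        intro i₀
        obtain ⟨l, hl, h1⟩ := hpat (i₀, 2)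
        have h2 := h1 i₀
        unfold evs UFamily.upat at h2
        dsimp only at h2
        rw [if_pos rfl] at h2
        obtain ⟨χ₀, h2⟩ := h2
        exact ⟨l, (hGp l hl).1, χ₀, h2⟩ }
  have hnd' : NonDegenerate K (fun i => ((F i).upol m (s i)).coeff 0) {z : ℂ | aeval z R = 0} := by
    choose M hM0 hM using fun i => (hF i).det_pow
    have h1 := hnd.of_pow (B' := {z : ℂ | aeval z R = 0}) (fun z hz => hRz z hz)
      (fun i => D i m) m hm0 n M hM0 (fun i => hM i m)
    have h2 : (fun i => ((F i).upol m (s i)).coeff 0) = fun i => (-1) ^ n i * D i m :=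
      funext fun i => (hF i).det m (s i)
    rw [h2]
    exact h1
  have hnt := balanced_of_pats hU hP hnd'
  have hQ : ∀ i, ((F i).member m (s i)).Q p m = p ^ (d i * m) := by
    intro i
    rw [Piece.Q, hdim i]
  refine ⟨hp.one_lt, hm0, hO, fun μ hμ => hR μ hμ, ?_, ?_⟩
  · have e : (fun i => ((F i).member m (s i)).Q p m) = fun i => p ^ (d i * m) := funext hQ
    rw [e]
    exact hnt.1
  · intro i
    rw [hQ i]
    exact hnt.2 i

/-- **The Tate conjecture and semisimplicity for the products of almost all members of families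
with unitary monodromy.** -/
theorem unitary_tate (W : WeilCohomology.{u, v} ops)
    [IsAlgClosed W.K] (σ : W.K →+* ℂ) (p : ℕ)
    (hp : p.Prime) (Φ : FrobSystem W p) (Y : 𝒱.Obj)
    (hint : ∀ μ : W.K, Module.End.HasEigenvalue (W.map (Φ.Fr Y)).toLinearMap μ → IsIntegral ℤ μ)
    (hY : ∀ Z, IsProductOf {Y} Z → ∀ j ≤ Z.dim, SemisimpleTateIn Φ Z j)
    {I : Type} [Fintype I] (K : I → Type) [∀ i, Field (K i)] [∀ i, NumberField (K i)]
    [∀ i, IsCMField (K i)] (F : ∀ i, UFamily W Y (K i)) (d n l₀ : I → ℕ)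
    (D : ∀ i, ℕ → 𝓞 (K i)) (δ : ∀ i, 𝓞 (K i))
    (hF : ∀ i, (F i).HasUnitaryMonodromy Φ (d i) (n i) (l₀ i) (D i) (δ i))
    (hnd : NonDegenerate K δ (frobeniusNumbers Φ Y)) (ε : ℝ) (hε : 0 < ε) :
    ∃ m₀ : ℕ, ∀ m ≥ m₀, ((uexceptions F m fun Z => ∀ j, SemisimpleTateIn Φ Z j).ncard : ℝ) ≤
      ε * ∏ i, (Nat.card ((F i).S m) : ℝ) := by
  classical
  obtain ⟨R, m₀, h⟩ := unitary_setup W216.MF.sieve W976.MF.SPL W216.MF.uni σ hp hint K F d n l₀
    D δ hF hnd ε hε
  refine ⟨m₀, fun m hm => le_trans ?_ (h m hm)⟩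
  refine Nat.cast_le.2 (Set.ncard_le_ncard ?_ (Set.toFinite _))
  intro s hs H
  exact hs fun Z hZ => tate_products W397.MF.pair W40.MF.span H hY Z hZ

end Family

end Pool.Agent.V8H88.UF
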