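import Pool.Agent.V8H88.UF.Block

/-!
# Multiplicative relations between the elements of several blocks
-/

set_option autoImplicit false
set_option linter.unusedSectionVars false

namespace Pool.Agent.V8H88.UF

variable {L : Type} [Field L] [NumberField L] {I : Type} [Fintype I] [DecidableEq I]
  {Φ : I → Type} [∀ i, Fintype (Φ i)] [∀ i, DecidableEq (Φ i)]

/-- Blocks `B i φ`, with an involution `bar` of the indices such that `x ↦ q i / x` maps the
block of `φ` to the block of `bar φ`. -/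
structure Blocks (q : I → ℕ) (bar : ∀ i, Φ i → Φ i) (B : ∀ i, Φ i → Finset L) : Prop where
  q_ne : ∀ i, q i ≠ 0
  bar_bar : ∀ i φ, bar i (bar i φ) = φ
  bar_ne : ∀ i φ, bar i φ ≠ φ
  ne_zero : ∀ i φ, ∀ x ∈ B i φ, x ≠ 0
  inv_mem : ∀ i φ, ∀ x ∈ B i φ, (q i : L) / x ∈ B i (bar i φ)
  disj : ∀ i φ φ', φ ≠ φ' → Disjoint (B i φ) (B i φ')

/-- The automorphisms which move only one block and its conjugate. -/
structure Moves (bar : ∀ i, Φ i → Φ i) (B : ∀ i, Φ i → Finset L) (i : I) (φ : Φ i)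
    (g : L ≃ₐ[ℚ] L) : Prop where
  fix : ∀ i' φ', (¬ ∃ h : i' = i, h ▸ φ' = φ ∨ h ▸ φ' = bar i φ) → ∀ x ∈ B i' φ', g x = x
  mem : ∀ x ∈ B i φ, g x ∈ B i φ

section Lem

variable {q : I → ℕ} {bar : ∀ i, Φ i → Φ i} {B : ∀ i, Φ i → Finset L}

lemma Blocks.qL (H : Blocks q bar B) (i : I) : ((q i : ℕ) : L) ≠ 0 :=
  Nat.cast_ne_zero.2 (H.q_ne i)

/-- Products over the block of `bar φ`. -/
lemma Blocks.prod_bar (H : Blocks q bar B) (i : I) (φ : Φ i) (f : L → L) :
    ∏ x ∈ B i (bar i φ), f x = ∏ x ∈ B i φ, f ((q i : L) / x) := by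
  classical
  symm
  refine Finset.prod_bij (fun x _ => (q i : L) / x) (fun x hx => H.inv_mem i φ x hx) ?_ ?_ ?_
  · intro x _ y _ hxy
    have h1 : (q i : L) / ((q i : L) / x) = (q i : L) / ((q i : L) / y) := by rw [hxy]
    rwa [div_div_cancel₀ (H.qL i), div_div_cancel₀ (H.qL i)] at h1
  · intro y hy
    refine ⟨(q i : L) / y, ?_, div_div_cancel₀ (H.qL i)⟩
    have h1 := H.inv_mem i _ y hy
    rwa [H.bar_bar] at h1
  · intro x _
    rfl

/-- The difference of the exponents. -/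
def dif (q : I → ℕ) (a : I → L → ℕ) (i : I) (x : L) : ℤ := (a i x : ℤ) - (a i ((q i : L) / x) : ℤ)

lemma Blocks.dif_inv (H : Blocks q bar B) (a : I → L → ℕ) (i : I) (x : L) :
    dif q a i ((q i : L) / x) = - dif q a i x := by
  unfold dif
  rw [div_div_cancel₀ (H.qL i)]
  ring

/-- The total product. -/
noncomputable def tot (B : ∀ i, Φ i → Finset L) (a : I → L → ℕ) (f : I → L → L) : L :=
  ∏ i, ∏ φ, ∏ x ∈ B i φ, f i x ^ a i x

/-- Products over two indices. -/
lemma prod_two_index (i : I) (φ φ' : Φ i) (hne : φ ≠ φ') (F : ∀ i, Φ i → L)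
    (hF : ∀ i' φ'', (¬ ∃ h : i' = i, h ▸ φ'' = φ ∨ h ▸ φ'' = φ') → F i' φ'' = 1) :
    ∏ i, ∏ φ, F i φ = F i φ * F i φ' := by
  rw [Finset.prod_eq_single_of_mem i (Finset.mem_univ i)]
  · rw [← Finset.prod_subset (Finset.subset_univ {φ, φ'})]
    · rw [Finset.prod_pair hne]
    · intro ψ _ hψ
      apply hF
      rintro ⟨h, h2⟩
      apply hψ
      rw [Finset.mem_insert, Finset.mem_singleton]
      exact h2
  · intro i' _ hi'
    refine Finset.prod_eq_one fun φ'' _ => ?_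
    apply hF
    rintro ⟨h, -⟩
    exact hi' h

/-- The total product for the quotients `g x / x`. -/
lemma Blocks.tot_moves (H : Blocks q bar B) (a : I → L → ℕ) (i : I) (φ : Φ i) (g : L ≃ₐ[ℚ] L)
    (hg : Moves bar B i φ g) :
    tot B a (fun _ x => g x / x) = ∏ x ∈ B i φ, (g x / x) ^ (dif q a i x) := by
  classical
  unfold tot
  rw [prod_two_index i φ (bar i φ) (H.bar_ne i φ).symm]
  · rw [H.prod_bar i φ (fun x => (g x / x) ^ a i x), ← Finset.prod_mul_distrib]
    refine Finset.prod_congr rfl fun x hx => ?_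
    have hx0 := H.ne_zero i φ x hx
    have hgx0 := H.ne_zero i φ _ (hg.mem x hx)
    have hq := H.qL i
    have h1 : g ((q i : L) / x) / ((q i : L) / x) = (g x / x)⁻¹ := by
      rw [map_div₀, map_natCast]
      field_simp
    change (g x / x) ^ a i x * (g ((q i : L) / x) / ((q i : L) / x)) ^ a i ((q i : L) / x) = _
    rw [h1]
    unfold dif
    rw [inv_pow, zpow_sub₀ (div_ne_zero hgx0 hx0), zpow_natCast, zpow_natCast, ← div_eq_mul_inv]
  · intro i' φ' hn
    refine Finset.prod_eq_one fun x hx => ?_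
    change (g x / x) ^ a i' x = 1
    rw [hg.fix i' φ' hn x hx, div_self (H.ne_zero i' φ' x hx), one_pow]

/-- The exponents are constant on the blocks (after subtraction of the conjugate exponents). -/
theorem Blocks.const (H : Blocks q bar B) (a : I → L → ℕ) (i : I) (φ : Φ i) (g h : L ≃ₐ[ℚ] L)
    (hg : Moves bar B i φ g) (htr : ∀ x ∈ B i φ, ∀ y ∈ B i φ, ∃ j : ℕ, (g ^ j) x = y)
    (hB : ∀ x ∈ B i φ, h x ∈ B i φ) (x₁ : L) (hx₁ : x₁ ∈ B i φ) (hfix : h x₁ = x₁)
    (htr1 : ∀ x ∈ B i φ, ∀ y ∈ B i φ, x ≠ x₁ → y ≠ x₁ → ∃ j : ℕ, (h ^ j) x = y)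
    (hno : ∀ T : ℕ, 0 < T → ∃ x ∈ B i φ, ∃ y ∈ B i φ, x ^ T ≠ y ^ T) (t : ℕ) (ht : 0 < t)
    (hrel : (tot B a (fun _ x => g x / x)) ^ t = 1) :
    ∃ c : ℤ, ∀ x ∈ B i φ, dif q a i x = c := by
  classical
  rw [H.tot_moves a i φ g hg] at hrel
  set b : L → ℤ := dif q a i with hb
  have himg : (B i φ).image g = B i φ := by
    refine Finset.eq_of_subset_of_card_le ?_ ?_
    · intro y hy
      obtain ⟨x, hx, rfl⟩ := Finset.mem_image.1 hy
      exact hg.mem x hx
    · rw [Finset.card_image_of_injective _ g.injective]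
  have hginv : ∀ x ∈ B i φ, g.symm x ∈ B i φ := by
    intro x hx
    rw [← himg] at hx
    obtain ⟨y, hy, rfl⟩ := Finset.mem_image.1 hx
    rw [g.symm_apply_apply]
    exact hy
  have hsum : ∀ F : L → L, ∏ x ∈ B i φ, F x = ∏ x ∈ B i φ, F (g x) := by
    intro F
    conv_lhs => rw [← himg]
    rw [Finset.prod_image (fun x _ y _ h => g.injective h)]
  have hsum' : ∀ F : L → ℤ, ∑ x ∈ B i φ, F x = ∑ x ∈ B i φ, F (g x) := by
    intro F
    conv_lhs => rw [← himg]
    rw [Finset.sum_image (fun x _ y _ h => g.injective h)]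
  set v : L → ℤ := fun x => b (g.symm x) - b x with hv
  have hv0 : ∑ x ∈ B i φ, v x = 0 := by
    rw [hv, Finset.sum_sub_distrib, hsum' fun x => b (g.symm x)]
    simp only [AlgEquiv.symm_apply_apply, sub_self]
  have hrel' : (∏ x ∈ B i φ, x ^ v x) ^ t = 1 := by
    rw [← hrel]
    congr 1
    have h1 : ∏ x ∈ B i φ, x ^ v x = (∏ x ∈ B i φ, x ^ b (g.symm x)) / ∏ x ∈ B i φ, x ^ b x := by
      rw [← Finset.prod_div_distrib]
      refine Finset.prod_congr rfl fun x hx => ?_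
      rw [hv, zpow_sub₀ (H.ne_zero i φ x hx)]
    rw [h1, hsum fun x => x ^ b (g.symm x), ← Finset.prod_div_distrib]
    refine Finset.prod_congr rfl fun x _ => ?_
    rw [g.symm_apply_apply, div_zpow]
  by_cases hz : ∃ x ∈ B i φ, v x ≠ 0
  · exfalso
    obtain ⟨T, hT, hTe⟩ := block_lemma (B i φ) g h hg.mem hB (H.ne_zero i φ) htr x₁ hx₁ hfix htr1
      v hv0 hz t ht hrel'
    obtain ⟨x, hx, y, hy, hxy⟩ := hno T hT
    exact hxy (hTe x hx y hy)
  · push Not at hz
    have hstep : ∀ x ∈ B i φ, b (g x) = b x := by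
      intro x hx
      have h1 := hz (g x) (hg.mem x hx)
      rw [hv] at h1
      simp only [g.symm_apply_apply] at h1
      linarith
    have hpow : ∀ j : ℕ, ∀ x ∈ B i φ, (g ^ j) x ∈ B i φ ∧ b ((g ^ j) x) = b x := by
      intro j
      induction j with
      | zero => intro x hx; exact ⟨hx, rfl⟩
      | succ j ih =>
        intro x hx
        rw [pow_succ', AlgEquiv.mul_apply]
        obtain ⟨h1, h2⟩ := ih x hx
        exact ⟨hg.mem _ h1, by rw [hstep _ h1, h2]⟩
    refine ⟨b x₁, fun x hx => ?_⟩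
    obtain ⟨j, hj⟩ := htr x₁ hx₁ x hx
    rw [← hj]
    exact (hpow j x₁ hx₁).2

/-- The square of the total product in terms of the products of the blocks. -/
theorem Blocks.tot_sq (H : Blocks q bar B) (a : I → L → ℕ) (c : ∀ i, Φ i → ℤ)
    (hc : ∀ i φ, ∀ x ∈ B i φ, dif q a i x = c i φ) :
    ∃ n : ℕ, 0 < n ∧ (tot B a (fun _ x => x)) ^ 2 =
      (n : L) * ∏ i, ∏ φ, (∏ x ∈ B i φ, x) ^ (c i φ) := by
  classical
  refine ⟨∏ i, ∏ φ, ∏ x ∈ B i φ, q i ^ a i ((q i : L) / x), ?_, ?_⟩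
  · refine Finset.prod_pos fun i _ => Finset.prod_pos fun φ _ => Finset.prod_pos fun x _ => ?_
    exact pow_pos (Nat.pos_of_ne_zero (H.q_ne i)) _
  · have h1 : tot B a (fun _ x => x) =
        ∏ i, ∏ φ, ∏ x ∈ B i φ, ((q i : L) / x) ^ a i ((q i : L) / x) := by
      unfold tot
      refine Finset.prod_congr rfl fun i _ => ?_
      have h2 : ∏ φ, ∏ x ∈ B i φ, x ^ a i x = ∏ φ, ∏ x ∈ B i (bar i φ), x ^ a i x := by
        let e : Equiv.Perm (Φ i) :=
          { toFun := bar i, invFun := bar i, left_inv := H.bar_bar i, right_inv := H.bar_bar i }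
        exact (Equiv.prod_comp e (fun φ => ∏ x ∈ B i φ, x ^ a i x)).symm
      rw [h2]
      refine Finset.prod_congr rfl fun φ _ => ?_
      rw [H.prod_bar i φ fun x => x ^ a i x]
    rw [sq]
    nth_rewrite 2 [h1]
    unfold tot
    push_cast
    rw [← Finset.prod_mul_distrib, ← Finset.prod_mul_distrib]
    refine Finset.prod_congr rfl fun i _ => ?_
    rw [← Finset.prod_mul_distrib, ← Finset.prod_mul_distrib]
    refine Finset.prod_congr rfl fun φ _ => ?_
    rw [← Finset.prod_zpow, ← Finset.prod_mul_distrib, ← Finset.prod_mul_distrib]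
    refine Finset.prod_congr rfl fun x hx => ?_
    have hx0 := H.ne_zero i φ x hx
    rw [← hc i φ x hx]
    unfold dif
    rw [zpow_sub₀ hx0, zpow_natCast, zpow_natCast, div_pow]
    field_simp

end Lem

end Pool.Agent.V8H88.UF
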