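import Mathlib

/-!
# Integral generators of number fields
-/

set_option autoImplicit false

namespace Pool.Agent.V8H88.UF

open Polynomial NumberField

/-- All multiples by `N` of integers of `K` are integral polynomials in `θ`. -/
structure IsGen (K : Type) [Field K] [NumberField K] (θ : 𝓞 K) (N : ℕ) : Prop where
  pos : 0 < N
  mem : ∀ x : 𝓞 K, ∃ P : ℤ[X], (N : 𝓞 K) * x = aeval θ P

theorem exists_gen (K : Type) [Field K] [NumberField K] : ∃ (θ : 𝓞 K) (N : ℕ), IsGen K θ N := by
  classical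
  set B0 : PowerBasis ℚ K := Field.powerBasisOfFiniteOfSeparable ℚ K with hB0
  obtain ⟨n, hn0, hn⟩ := ((IsFractionRing.isAlgebraic_iff ℤ ℚ K).2
    (Algebra.IsAlgebraic.isAlgebraic (R := ℚ) B0.gen)).exists_integral_multiple
  set x : K := n • B0.gen with hx
  have hxi : IsIntegral ℚ x := hn.tower_top
  have hmem : B0.gen ∈ Algebra.adjoin ℚ {x} := by
    have h1 : B0.gen = (n : ℚ)⁻¹ • x := by
      rw [hx, ← Int.cast_smul_eq_zsmul ℚ n, smul_smul, inv_mul_cancel₀ (Int.cast_ne_zero.2 hn0),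
        one_smul]
    rw [h1]
    exact Subalgebra.smul_mem _ (Algebra.self_mem_adjoin_singleton _ _) _
  have htop : Algebra.adjoin ℚ {x} = ⊤ := by
    rw [eq_top_iff, ← B0.adjoin_gen_eq_top, Algebra.adjoin_le_iff, Set.singleton_subset_iff]
    exact hmem
  set B : PowerBasis ℚ K := PowerBasis.ofAdjoinEqTop hxi htop with hB
  have hBg : B.gen = x := PowerBasis.ofAdjoinEqTop_gen _ _
  have hBi : IsIntegral ℤ B.gen := by rw [hBg]; exact hn
  have hd0 : Algebra.discr ℚ B.basis ≠ 0 := Algebra.discr_not_zero_of_basis ℚ B.basis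
  have hdi : IsIntegral ℤ (Algebra.discr ℚ B.basis) := by
    refine Algebra.discr_isIntegral ℚ fun i => ?_
    rw [B.coe_basis]
    exact hBi.pow _
  obtain ⟨d, hd⟩ := IsIntegrallyClosed.isIntegral_iff.1 hdi
  have hd' : (d : ℚ) = Algebra.discr ℚ B.basis := hd
  have hdne : d ≠ 0 := by
    rintro rfl
    apply hd0
    rw [← hd', Int.cast_zero]
  obtain ⟨θ, hθ⟩ : ∃ θ : 𝓞 K, (θ : K) = x := ⟨⟨x, hn⟩, rfl⟩
  refine ⟨θ, d.natAbs, Int.natAbs_pos.2 hdne, fun y => ?_⟩
  have h1 := Algebra.discr_mul_isIntegral_mem_adjoin (K := ℚ) (R := ℤ) hBi y.isIntegral_coe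
  rw [← hd', hBg, Algebra.adjoin_singleton_eq_range_aeval] at h1
  obtain ⟨P, hP⟩ := h1
  have h2 : ((d : 𝓞 K) * y : 𝓞 K) = aeval θ P := by
    apply RingOfIntegers.coe_injective
    have h3 := aeval_algebraMap_apply K θ P
    rw [map_mul, map_intCast]
    refine Eq.trans ?_ h3
    have h4 : aeval x P = (d : ℚ) • (y : K) := hP
    have h5 : (d : ℚ) • (y : K) = (d : K) * (y : K) := by
      rw [Algebra.smul_def]
      simp
    rw [← h5, ← h4, ← hθ]
  rcases Int.natAbs_eq d with h3 | h3
  · refine ⟨P, ?_⟩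
    rw [← h2]
    conv_rhs => rw [h3]
    rw [Int.cast_natCast]
  · refine ⟨-P, ?_⟩
    rw [map_neg, ← h2]
    conv_rhs => rw [h3]
    rw [Int.cast_neg, Int.cast_natCast, neg_mul, neg_neg]

variable {K : Type} [Field K] [NumberField K] {θ : 𝓞 K} {N : ℕ}

/-- Two homomorphisms from the ring of integers which agree on the generator are equal. -/
theorem IsGen.hom_ext (h : IsGen K θ N) {A : Type*} [Field A] {f g : 𝓞 K →+* A}
    (hN : (N : A) ≠ 0) (hfg : f θ = g θ) : f = g := by
  ext x
  obtain ⟨P, hP⟩ := h.mem x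
  have h1 := congrArg f hP
  have h2 := congrArg g hP
  have h3 : f (aeval θ P) = g (aeval θ P) := by
    have e : aeval θ P = eval₂ (Int.castRingHom (𝓞 K)) θ P := rfl
    rw [e, hom_eval₂, hom_eval₂, hfg]
    congr 1
    exact RingHom.ext_int _ _
  rw [← h1, ← h2, map_mul, map_mul, map_natCast, map_natCast] at h3
  exact mul_left_cancel₀ hN h3

/-- Two embeddings which agree on the generator are equal. -/
theorem IsGen.emb_ext (h : IsGen K θ N) {A : Type*} [Field A] [CharZero A] {f g : K →+* A}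
    (hfg : f θ = g θ) : f = g := by
  have h1 : f.comp (algebraMap (𝓞 K) K) = g.comp (algebraMap (𝓞 K) K) :=
    h.hom_ext (Nat.cast_ne_zero.2 h.pos.ne') hfg
  exact IsFractionRing.injective_comp_algebraMap (A := 𝓞 K) (K := K) (L := A) h1

/-- A homomorphism to a field of characteristic `l` which maps the generator to the prime field
maps everything to the prime field. -/
theorem IsGen.exists_factor (h : IsGen K θ N) {l : ℕ} [Fact l.Prime] {k : Type} [Field k]
    [CharP k l] (hN : ¬ l ∣ N) (f : 𝓞 K →+* k) (s : ZMod l)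
    (hs : f θ = ZMod.castHom (dvd_refl l) k s) :
    ∃ χ : 𝓞 K →+* ZMod l, (ZMod.castHom (dvd_refl l) k).comp χ = f := by
  set ψ : ZMod l →+* k := ZMod.castHom (dvd_refl l) k with hψ
  have hinj : Function.Injective ψ := ψ.injective
  have hNk : (N : k) ≠ 0 := by
    rw [Ne, CharP.cast_eq_zero_iff k l]
    exact hN
  have hmem : ∀ x, f x ∈ ψ.fieldRange := by
    intro x
    obtain ⟨P, hP⟩ := h.mem x
    have h1 := congrArg f hP
    rw [map_mul, map_natCast] at h1
    have h2 : f (aeval θ P) = ψ (eval₂ (Int.castRingHom (ZMod l)) s P) := by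
      have e : aeval θ P = eval₂ (Int.castRingHom (𝓞 K)) θ P := rfl
      rw [e, hom_eval₂, hom_eval₂, hs]
      congr 1
      exact RingHom.ext_int _ _
    have h3 : f x = (N : k)⁻¹ * ψ (eval₂ (Int.castRingHom (ZMod l)) s P) := by
      rw [← h2, ← h1, inv_mul_cancel_left₀ hNk]
    rw [h3]
    exact mul_mem (inv_mem (natCast_mem _ N)) (RingHom.mem_fieldRange_self ψ _)
  choose c hc using fun x => RingHom.mem_fieldRange.1 (hmem x)
  refine ⟨{ toFun := c, map_one' := ?_, map_mul' := ?_, map_zero' := ?_, map_add' := ?_ }, ?_⟩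
  · apply hinj
    rw [hc, map_one, map_one]
  · intro x y
    apply hinj
    rw [hc, map_mul, map_mul, hc, hc]
  · apply hinj
    rw [hc, map_zero, map_zero]
  · intro x y
    apply hinj
    rw [hc, map_add, map_add, hc, hc]
  · ext x
    exact hc x

end Pool.Agent.V8H88.UF
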