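import Pool.Agent.V8H88.UF.Root
import Pool.Agent.V8H88.UF.Gen

/-!
# The action of a Frobenius element on the roots of a polynomial over a subfield
-/

set_option autoImplicit false

namespace Pool.Agent.V8H88.UF

open Polynomial NumberField

section General

variable {L : Type} [Field L] [NumberField L] {l : ℕ} [Fact l.Prime] {k : Type} [Field k]
  [CharP k l] {ρ : 𝓞 L →+* k} {σ : Gal(L/ℚ)}

lemma smul_coe (σ : Gal(L/ℚ)) (x : 𝓞 L) : ((σ • x : 𝓞 L) : L) = σ (x : L) := rfl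

lemma smul_pow_coe (σ : Gal(L/ℚ)) (j : ℕ) (x : 𝓞 L) : ((σ ^ j • x : 𝓞 L) : L) = (σ ^ j) (x : L) :=
  rfl

lemma eval_smul (f : (𝓞 L)[X]) (hf : ∀ i, σ • f.coeff i = f.coeff i) (x : 𝓞 L)
    (hx : f.eval x = 0) : f.eval (σ • x) = 0 := by
  have h1 : σ • (f.eval x) = f.eval (σ • x) := by
    rw [eval_eq_sum_range, eval_eq_sum_range, Finset.smul_sum]
    refine Finset.sum_congr rfl fun i _ => ?_
    rw [smul_mul', smul_pow', hf]
  rw [← h1, hx, smul_zero]

lemma eval_smul_pow (f : (𝓞 L)[X]) (hf : ∀ i, σ • f.coeff i = f.coeff i) (x : 𝓞 L)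
    (hx : f.eval x = 0) (j : ℕ) : f.eval (σ ^ j • x) = 0 := by
  induction j with
  | zero => rw [pow_zero, one_smul]; exact hx
  | succ j ih =>
    rw [pow_succ', mul_smul]
    exact eval_smul f hf _ ih

lemma frob_pow (hσ : ∀ x : 𝓞 L, ρ (σ • x) = ρ x ^ l) (x : 𝓞 L) (j : ℕ) :
    ρ (σ ^ j • x) = ρ x ^ l ^ j := by
  induction j with
  | zero => rw [pow_zero, one_smul, pow_zero, pow_one]
  | succ j ih => rw [pow_succ', mul_smul, hσ, ih, ← pow_mul, ← pow_succ]

/-- The roots whose reductions are in the prime field are fixed. -/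
lemma fixed_of_mem (hσ : ∀ x : 𝓞 L, ρ (σ • x) = ρ x ^ l) (f : (𝓞 L)[X])
    (hf : ∀ i, σ • f.coeff i = f.coeff i) (hsep : (f.map ρ).Separable) (x : 𝓞 L)
    (hx : f.eval x = 0) (s : ZMod l) (hs : ρ x = ZMod.castHom (dvd_refl l) k s) : σ • x = x := by
  refine root_eq_of_map_eq ρ f hsep _ _ (eval_smul f hf x hx) hx ?_
  rw [hσ, hs, cast_pow_card]

lemma eval_map_zero (f : (𝓞 L)[X]) (x : 𝓞 L) (hx : f.eval x = 0) : (f.map ρ).eval (ρ x) = 0 := by
  rw [eval_map_apply, hx, map_zero]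

lemma separable_prod (T : Finset (ZMod l)) :
    (∏ t ∈ T, (X - C (ZMod.castHom (dvd_refl l) k t)) : k[X]).Separable := by
  refine separable_prod_X_sub_C_iff'.2 ?_
  intro a _ b _ hab
  exact (ZMod.castHom (dvd_refl l) k).injective hab

lemma exists_of_root_prod (T : Finset (ZMod l)) (y : k)
    (h : (∏ t ∈ T, (X - C (ZMod.castHom (dvd_refl l) k t)) : k[X]).eval y = 0) :
    ∃ t ∈ T, y = ZMod.castHom (dvd_refl l) k t := by
  rw [eval_prod, Finset.prod_eq_zero_iff] at h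
  obtain ⟨t, ht, h⟩ := h
  rw [eval_sub, eval_X, eval_C, sub_eq_zero] at h
  exact ⟨t, ht, h⟩

/-- All roots are fixed if the reduction is a product of different linear factors. -/
lemma fixed_of_prod (hσ : ∀ x : 𝓞 L, ρ (σ • x) = ρ x ^ l) (f : (𝓞 L)[X])
    (hf : ∀ i, σ • f.coeff i = f.coeff i) (T : Finset (ZMod l))
    (hT : f.map ρ = ∏ t ∈ T, (X - C (ZMod.castHom (dvd_refl l) k t))) (x : 𝓞 L)
    (hx : f.eval x = 0) : σ • x = x := by
  obtain ⟨t, -, ht⟩ := exists_of_root_prod T (ρ x) (by rw [← hT]; exact eval_map_zero f x hx)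
  exact fixed_of_mem hσ f hf (by rw [hT]; exact separable_prod T) x hx t ht

/-- A monic polynomial over the integers of `L` which splits over `L`. -/
lemma exists_roots (f : (𝓞 L)[X]) (hm : f.Monic) (hs : (f.map (algebraMap (𝓞 L) L)).Splits) :
    ∃ R : Multiset (𝓞 L), f = (R.map (fun a => X - C a)).prod := by
  have hlift : ∀ R : Multiset L, (∀ x ∈ R, IsIntegral ℤ x) →
      ∃ R' : Multiset (𝓞 L), R'.map (algebraMap (𝓞 L) L) = R := by
    intro R
    induction R using Multiset.induction_on with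
    | empty => exact fun _ => ⟨0, rfl⟩
    | cons a s ih =>
      intro hR
      obtain ⟨R', hR'⟩ := ih fun x hx => hR x (Multiset.mem_cons_of_mem hx)
      obtain ⟨a', ha'⟩ : ∃ a' : 𝓞 L, algebraMap (𝓞 L) L a' = a :=
        ⟨⟨a, hR a (Multiset.mem_cons_self a s)⟩, rfl⟩
      refine ⟨a' ::ₘ R', ?_⟩
      rw [Multiset.map_cons, hR', ha']
  obtain ⟨R', hR'⟩ := hlift (f.map (algebraMap (𝓞 L) L)).roots (by
    intro x hx
    have h1 := (mem_roots'.1 hx).2
    rw [IsRoot.def, eval_map] at h1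
    exact isIntegral_trans (R := ℤ) (A := 𝓞 L) x ⟨f, hm, h1⟩)
  refine ⟨R', ?_⟩
  apply Polynomial.map_injective (algebraMap (𝓞 L) L) RingOfIntegers.coe_injective
  rw [hs.eq_prod_roots_of_monic (hm.map _), ← hR', Polynomial.map_multiset_prod,
    Multiset.map_map, Multiset.map_map]
  congr 1
  refine Multiset.map_congr rfl fun x _ => ?_
  simp

/-- Lifting of roots. -/
lemma exists_lift (ρ : 𝓞 L →+* k) (f : (𝓞 L)[X]) (hm : f.Monic)
    (hs : (f.map (algebraMap (𝓞 L) L)).Splits) (y : k) (hy : (f.map ρ).eval y = 0) :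
    ∃ x : 𝓞 L, f.eval x = 0 ∧ ρ x = y := by
  obtain ⟨R, hR⟩ := exists_roots f hm hs
  have h1 : f.map ρ = (R.map (fun a => X - C (ρ a))).prod := by
    rw [hR, Polynomial.map_multiset_prod, Multiset.map_map]
    congr 1
    refine Multiset.map_congr rfl fun x _ => ?_
    simp
  rw [h1, eval_multiset_prod, Multiset.map_map, Multiset.prod_eq_zero_iff, Multiset.mem_map] at hy
  obtain ⟨x, hx, hx2⟩ := hy
  refine ⟨x, ?_, ?_⟩
  · rw [hR, eval_multiset_prod, Multiset.map_map]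
    refine Multiset.prod_eq_zero (Multiset.mem_map.2 ⟨x, hx, ?_⟩)
    simp
  · simp only [Function.comp_apply, eval_sub, eval_X, eval_C] at hx2
    exact (sub_eq_zero.1 hx2).symm

end General

section Blocks

variable {L : Type} [Field L] [NumberField L] {l : ℕ} [Fact l.Prime] {k : Type} [Field k]
  [CharP k l] {ρ : 𝓞 L →+* k} {σ : Gal(L/ℚ)} {K : Type} [Field K] [NumberField K] {θ : 𝓞 K}
  {N : ℕ}

/-- The polynomial over the integers of `L`. -/
noncomputable def blk (f : K →+* L) (P : (𝓞 K)[X]) : (𝓞 L)[X] :=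
  P.map (RingOfIntegers.mapRingHom f)

/-- The polynomial over `L`. -/
noncomputable def blkL (f : K →+* L) (P : (𝓞 K)[X]) : L[X] :=
  P.map (f.comp (algebraMap (𝓞 K) K))

lemma blk_map (f : K →+* L) (P : (𝓞 K)[X]) :
    (blk f P).map (algebraMap (𝓞 L) L) = blkL f P := by
  unfold blk blkL
  rw [Polynomial.map_map]
  rfl

lemma blk_root (f : K →+* L) {P : (𝓞 K)[X]} (hP : P.Monic) (x : L)
    (hx : (blkL f P).eval x = 0) : ∃ x' : 𝓞 L, (x' : L) = x ∧ (blk f P).eval x' = 0 := by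
  rw [← blk_map] at hx
  have h1 : IsIntegral ℤ x := by
    rw [eval_map] at hx
    exact isIntegral_trans (R := ℤ) (A := 𝓞 L) x ⟨blk f P, hP.map _, hx⟩
  refine ⟨⟨x, h1⟩, rfl, ?_⟩
  apply RingOfIntegers.coe_injective
  rw [map_zero, ← hx]
  exact (eval_map_apply (algebraMap (𝓞 L) L) (p := blk f P) ⟨x, h1⟩).symm

lemma blk_root' (f : K →+* L) {P : (𝓞 K)[X]} (x : 𝓞 L) (hx : (blk f P).eval x = 0) :
    (blkL f P).eval (x : L) = 0 := by
  rw [← blk_map, eval_map_apply, hx, map_zero]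

/-- The roots of a polynomial over the integers which splits modulo `l`. -/
lemma fixed_int (hσ : ∀ x : 𝓞 L, ρ (σ • x) = ρ x ^ l) (Q : ℤ[X]) (T : Finset (ZMod l))
    (hT : Q.map (Int.castRingHom (ZMod l)) = ∏ t ∈ T, (X - C t)) (x : 𝓞 L)
    (hx : aeval x Q = 0) : (∃ t, ρ x = ZMod.castHom (dvd_refl l) k t) ∧ σ • x = x := by
  set f : (𝓞 L)[X] := Q.map (Int.castRingHom (𝓞 L)) with hf
  have h1 : f.map ρ = ∏ t ∈ T, (X - C (ZMod.castHom (dvd_refl l) k t)) := by
    rw [hf, Polynomial.map_map, RingHom.ext_int (ρ.comp (Int.castRingHom (𝓞 L)))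
      ((ZMod.castHom (dvd_refl l) k).comp (Int.castRingHom (ZMod l))), ← Polynomial.map_map, hT,
      Polynomial.map_prod]
    refine Finset.prod_congr rfl fun t _ => ?_
    rw [Polynomial.map_sub, map_X, map_C]
  have h2 : f.eval x = 0 := by
    rw [hf, eval_map]
    exact hx
  refine ⟨?_, ?_⟩
  · obtain ⟨t, -, ht⟩ := exists_of_root_prod T (ρ x) (by rw [← h1]; exact eval_map_zero f x h2)
    exact ⟨t, ht⟩
  · refine fixed_of_prod hσ f (fun i => ?_) T h1 x h2
    rw [hf, coeff_map]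
    change σ • ((Q.coeff i : ℤ) : 𝓞 L) = ((Q.coeff i : ℤ) : 𝓞 L)
    exact map_intCast (MulSemiringAction.toRingHom (Gal(L/ℚ)) (𝓞 L) σ) (Q.coeff i)

lemma aeval_map_gen (f : K →+* L) (θ : 𝓞 K) :
    aeval (RingOfIntegers.mapRingHom f θ) (minpoly ℤ θ) = 0 := by
  have h1 := minpoly.aeval ℤ θ
  have h2 := congrArg (RingOfIntegers.mapRingHom f) h1
  rw [map_zero] at h2
  have e : aeval θ (minpoly ℤ θ) = eval₂ (Int.castRingHom (𝓞 K)) θ (minpoly ℤ θ) := rfl
  rw [e, hom_eval₂] at h2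
  have e2 : aeval (RingOfIntegers.mapRingHom f θ) (minpoly ℤ θ) =
    eval₂ (Int.castRingHom (𝓞 L)) (RingOfIntegers.mapRingHom f θ) (minpoly ℤ θ) := rfl
  rw [e2, ← h2]
  congr 1
  exact RingHom.ext_int _ _

/-- The embeddings of a subfield in which `l` splits completely are fixed. -/
lemma emb_fixed (hσ : ∀ x : 𝓞 L, ρ (σ • x) = ρ x ^ l) (hθ : IsGen K θ N) (T : Finset (ZMod l))
    (hT : (minpoly ℤ θ).map (Int.castRingHom (ZMod l)) = ∏ t ∈ T, (X - C t)) (f : K →+* L)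
    (x : K) : σ (f x) = f x := by
  have h1 := (fixed_int hσ (minpoly ℤ θ) T hT (RingOfIntegers.mapRingHom f θ)
    (aeval_map_gen f θ)).2
  have h2 : σ (f θ) = f θ := congrArg (fun x : 𝓞 L => (x : L)) h1
  have h3 : (σ : L →+* L).comp f = f := hθ.emb_ext h2
  exact RingHom.congr_fun h3 x

lemma blk_coeff_fixed (hfix : ∀ (f : K →+* L) (x : K), σ (f x) = f x) (f : K →+* L)
    (P : (𝓞 K)[X]) (i : ℕ) : σ • (blk f P).coeff i = (blk f P).coeff i := by
  unfold blk
  rw [coeff_map]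
  apply RingOfIntegers.coe_injective
  exact hfix f _

/-- The reductions of the embeddings. -/
lemma exists_red (hσ : ∀ x : 𝓞 L, ρ (σ • x) = ρ x ^ l) (hθ : IsGen K θ N) (hN : ¬ l ∣ N)
    (T : Finset (ZMod l))
    (hT : (minpoly ℤ θ).map (Int.castRingHom (ZMod l)) = ∏ t ∈ T, (X - C t)) (f : K →+* L) :
    ∃ χ : 𝓞 K →+* ZMod l,
      (ZMod.castHom (dvd_refl l) k).comp χ = ρ.comp (RingOfIntegers.mapRingHom f) := by
  obtain ⟨t, ht⟩ := (fixed_int hσ (minpoly ℤ θ) T hT (RingOfIntegers.mapRingHom f θ)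
    (aeval_map_gen f θ)).1
  exact hθ.exists_factor hN _ t ht

/-- Different embeddings have different reductions. -/
lemma red_injective (hθ : IsGen K θ N) (T : Finset (ZMod l))
    (hT : (minpoly ℤ θ).map (Int.castRingHom (ZMod l)) = ∏ t ∈ T, (X - C t)) (f g : K →+* L)
    (hfg : ρ.comp (RingOfIntegers.mapRingHom f) = ρ.comp (RingOfIntegers.mapRingHom g)) :
    f = g := by
  refine hθ.emb_ext ?_
  have h1 : ((minpoly ℤ θ).map (Int.castRingHom (𝓞 L))).map ρ =
      ∏ t ∈ T, (X - C (ZMod.castHom (dvd_refl l) k t)) := by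
    rw [Polynomial.map_map, RingHom.ext_int (ρ.comp (Int.castRingHom (𝓞 L)))
      ((ZMod.castHom (dvd_refl l) k).comp (Int.castRingHom (ZMod l))), ← Polynomial.map_map, hT,
      Polynomial.map_prod]
    refine Finset.prod_congr rfl fun t _ => ?_
    rw [Polynomial.map_sub, map_X, map_C]
  have h2 := root_eq_of_map_eq ρ ((minpoly ℤ θ).map (Int.castRingHom (𝓞 L)))
    (by rw [h1]; exact separable_prod T) (RingOfIntegers.mapRingHom f θ)
    (RingOfIntegers.mapRingHom g θ) (by rw [eval_map]; exact aeval_map_gen f θ)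
    (by rw [eval_map]; exact aeval_map_gen g θ) (RingHom.congr_fun hfg θ)
  exact congrArg (fun x : 𝓞 L => (x : L)) h2

lemma blk_map_red (f : K →+* L) (P : (𝓞 K)[X]) (χ : 𝓞 K →+* ZMod l)
    (hχ : (ZMod.castHom (dvd_refl l) k).comp χ = ρ.comp (RingOfIntegers.mapRingHom f)) :
    (blk f P).map ρ = (P.map χ).map (ZMod.castHom (dvd_refl l) k) := by
  unfold blk
  rw [Polynomial.map_map, Polynomial.map_map, hχ]

/-- Split blocks are fixed. -/
theorem block_fixed (hσ : ∀ x : 𝓞 L, ρ (σ • x) = ρ x ^ l)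
    (hfix : ∀ (f : K →+* L) (x : K), σ (f x) = f x) (f : K →+* L) {P : (𝓞 K)[X]} (hP : P.Monic)
    (χ : 𝓞 K →+* ZMod l)
    (hχ : (ZMod.castHom (dvd_refl l) k).comp χ = ρ.comp (RingOfIntegers.mapRingHom f))
    (T : Finset (ZMod l)) (hT : P.map χ = ∏ t ∈ T, (X - C t)) (x : L)
    (hx : (blkL f P).eval x = 0) : σ x = x := by
  obtain ⟨x', rfl, hx'⟩ := blk_root f hP x hx
  have h1 : (blk f P).map ρ = ∏ t ∈ T, (X - C (ZMod.castHom (dvd_refl l) k t)) := by
    rw [blk_map_red f P χ hχ, hT, Polynomial.map_prod]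
    refine Finset.prod_congr rfl fun t _ => ?_
    rw [Polynomial.map_sub, map_X, map_C]
  exact congrArg (fun x : 𝓞 L => (x : L))
    (fixed_of_prod hσ (blk f P) (blk_coeff_fixed hfix f P) T h1 x' hx')

/-- Irreducible blocks are permuted transitively. -/
theorem block_trans [Finite k] (hσ : ∀ x : 𝓞 L, ρ (σ • x) = ρ x ^ l)
    (hfix : ∀ (f : K →+* L) (x : K), σ (f x) = f x) (f : K →+* L) {P : (𝓞 K)[X]} (hP : P.Monic)
    (χ : 𝓞 K →+* ZMod l)
    (hχ : (ZMod.castHom (dvd_refl l) k).comp χ = ρ.comp (RingOfIntegers.mapRingHom f))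
    (hirr : Irreducible (P.map χ)) (x y : L)
    (hx : (blkL f P).eval x = 0) (hy : (blkL f P).eval y = 0) : ∃ j : ℕ, (σ ^ j) x = y := by
  obtain ⟨x', rfl, hx'⟩ := blk_root f hP x hx
  obtain ⟨y', rfl, hy'⟩ := blk_root f hP y hy
  have h1 := blk_map_red f P χ hχ
  have hsep : ((blk f P).map ρ).Separable := by
    rw [h1]
    exact (PerfectField.separable_of_irreducible hirr).map
  obtain ⟨j, hj⟩ := exists_pow_of_irreducible l k _ hirr (ρ x') (ρ y')
    (by rw [← h1]; exact eval_map_zero _ _ hx') (by rw [← h1]; exact eval_map_zero _ _ hy')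
  refine ⟨j, ?_⟩
  have h2 : σ ^ j • x' = y' := by
    refine root_eq_of_map_eq ρ (blk f P) hsep _ _
      (eval_smul_pow _ (blk_coeff_fixed hfix f P) _ hx' j) hy' ?_
    rw [frob_pow hσ, hj]
  exact congrArg (fun x : 𝓞 L => (x : L)) h2

/-- Blocks with one linear factor and one irreducible factor. -/
theorem block_trans_one [Finite k] (hσ : ∀ x : 𝓞 L, ρ (σ • x) = ρ x ^ l)
    (hfix : ∀ (f : K →+* L) (x : K), σ (f x) = f x) (f : K →+* L) {P : (𝓞 K)[X]} (hP : P.Monic)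
    (hspl : (blkL f P).Splits) (χ : 𝓞 K →+* ZMod l)
    (hχ : (ZMod.castHom (dvd_refl l) k).comp χ = ρ.comp (RingOfIntegers.mapRingHom f))
    (u : ZMod l) (g : (ZMod l)[X]) (hg : P.map χ = (X - C u) * g) (hirr : Irreducible g)
    (hu : g.eval u ≠ 0) :
    ∃ x₁ : L, (blkL f P).eval x₁ = 0 ∧ σ x₁ = x₁ ∧ ∀ x y : L, (blkL f P).eval x = 0 →
      (blkL f P).eval y = 0 → x ≠ x₁ → y ≠ x₁ → ∃ j : ℕ, (σ ^ j) x = y := by
  set ψ : ZMod l →+* k := ZMod.castHom (dvd_refl l) k with hψ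
  have h1 : (blk f P).map ρ = (X - C (ψ u)) * g.map ψ := by
    rw [blk_map_red f P χ hχ, hg, Polynomial.map_mul, Polynomial.map_sub, map_X, map_C]
  have hsep0 : ((X - C u) * g).Separable := by
    apply Separable.mul (separable_X_sub_C)
    · exact PerfectField.separable_of_irreducible hirr
    · rw [(irreducible_X_sub_C u).coprime_iff_not_dvd]
      intro hd
      exact hu (dvd_iff_isRoot.mp hd)
  have hsep : ((blk f P).map ρ).Separable := by
    have h2 : (blk f P).map ρ = ((X - C u) * g).map ψ := by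
      rw [h1, Polynomial.map_mul, Polynomial.map_sub, map_X, map_C]
    rw [h2]
    exact hsep0.map
  obtain ⟨x₁, hx₁, hρx₁⟩ := exists_lift ρ (blk f P) (hP.map _) (by rw [blk_map]; exact hspl) (ψ u)
    (by rw [h1, eval_mul, eval_sub, eval_X, eval_C, sub_self, zero_mul])
  refine ⟨x₁, blk_root' f x₁ hx₁, ?_, ?_⟩
  · exact congrArg (fun x : 𝓞 L => (x : L))
      (fixed_of_mem hσ (blk f P) (blk_coeff_fixed hfix f P) hsep x₁ hx₁ u hρx₁)
  · intro x y hx hy hxx hyy
    obtain ⟨x', rfl, hx'⟩ := blk_root f hP x hx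
    obtain ⟨y', rfl, hy'⟩ := blk_root f hP y hy
    have hg' : ∀ z : 𝓞 L, (blk f P).eval z = 0 → (z : L) ≠ x₁ → (g.map ψ).eval (ρ z) = 0 := by
      intro z hz hne
      have h2 := eval_map_zero (ρ := ρ) _ _ hz
      rw [h1, eval_mul, eval_sub, eval_X, eval_C, mul_eq_zero, sub_eq_zero] at h2
      rcases h2 with h2 | h2
      · exact absurd (congrArg (fun x : 𝓞 L => (x : L)) (root_eq_of_map_eq ρ (blk f P) hsep z x₁ hz
          hx₁ (by rw [h2, hρx₁]))) hne
      · exact h2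
    obtain ⟨j, hj⟩ := exists_pow_of_irreducible l k _ hirr (ρ x') (ρ y') (hg' x' hx' hxx)
      (hg' y' hy' hyy)
    refine ⟨j, ?_⟩
    have h2 : σ ^ j • x' = y' := by
      refine root_eq_of_map_eq ρ (blk f P) hsep _ _
        (eval_smul_pow _ (blk_coeff_fixed hfix f P) _ hx' j) hy' ?_
      rw [frob_pow hσ, hj]
    exact congrArg (fun x : 𝓞 L => (x : L)) h2

/-- Two roots whose powers are different. -/
theorem block_pow_ne (f : K →+* L) {P : (𝓞 K)[X]} (hP : P.Monic) (hspl : (blkL f P).Splits)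
    (χ : 𝓞 K →+* ZMod l)
    (hχ : (ZMod.castHom (dvd_refl l) k).comp χ = ρ.comp (RingOfIntegers.mapRingHom f))
    (u v : ZMod l) (hu : (P.map χ).eval u = 0) (hv : (P.map χ).eval v = 0) (M : ℕ)
    (huv : u ^ M ≠ v ^ M) :
    ∃ x y : L, (blkL f P).eval x = 0 ∧ (blkL f P).eval y = 0 ∧ x ^ M ≠ y ^ M := by
  set ψ : ZMod l →+* k := ZMod.castHom (dvd_refl l) k with hψ
  have h1 := blk_map_red f P χ hχ
  have h2 : ∀ s : ZMod l, (P.map χ).eval s = 0 → ((blk f P).map ρ).eval (ψ s) = 0 := by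
    intro s hs
    rw [h1, eval_map_apply, hs, map_zero]
  obtain ⟨x, hx, hρx⟩ := exists_lift ρ (blk f P) (hP.map _) (by rw [blk_map]; exact hspl) (ψ u)
    (h2 u hu)
  obtain ⟨y, hy, hρy⟩ := exists_lift ρ (blk f P) (hP.map _) (by rw [blk_map]; exact hspl) (ψ v)
    (h2 v hv)
  refine ⟨x, y, blk_root' f x hx, blk_root' f y hy, fun h => huv ?_⟩
  have h3 : x ^ M = y ^ M := by
    apply RingOfIntegers.coe_injective
    rw [map_pow, map_pow]
    exact h
  have h4 := congrArg ρ h3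
  rw [map_pow, map_pow, hρx, hρy, ← map_pow, ← map_pow] at h4
  exact ψ.injective h4

end Blocks

end Pool.Agent.V8H88.UF
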