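import Mathlib

/-!
# Multiplicative relations in a block which is permuted doubly transitively
-/

set_option autoImplicit false

namespace Pool.Agent.V8H88.UF

variable {L : Type} [Field L] [NumberField L]

/-- The first step: a relation between the elements of `B` with exponents of sum zero, the exponent
of `x₁` being nonzero, and an automorphism which fixes `x₁` and permutes the other elements
transitively. -/
theorem block_step (B : Finset L) (h : L ≃ₐ[ℚ] L) (hB : ∀ x ∈ B, h x ∈ B) (hB0 : ∀ x ∈ B, x ≠ 0)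
    (x₁ : L) (hx₁ : x₁ ∈ B) (hfix : h x₁ = x₁)
    (htr : ∀ x ∈ B, ∀ y ∈ B, x ≠ x₁ → y ≠ x₁ → ∃ j : ℕ, (h ^ j) x = y)
    (v : L → ℤ) (hv : ∑ x ∈ B, v x = 0) (hne : v x₁ ≠ 0) (t : ℕ) (ht : 0 < t)
    (hrel : (∏ x ∈ B, x ^ v x) ^ t = 1) :
    ∃ T : ℕ, 0 < T ∧ (x₁ ^ B.card) ^ T = (∏ x ∈ B, x) ^ T := by
  classical
  set H : Subgroup (L ≃ₐ[ℚ] L) := Subgroup.zpowers h with hH
  have hpow : ∀ j : ℕ, ∀ x ∈ B, (h ^ j) x ∈ B := by
    intro j
    induction j with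
    | zero => intro x hx; simpa using hx
    | succ j ih =>
      intro x hx
      rw [pow_succ, AlgEquiv.mul_apply]
      exact ih _ (hB x hx)
  have hHpow : ∀ τ ∈ H, ∃ j : ℕ, h ^ j = τ := by
    intro τ hτ
    have h1 : τ ∈ Submonoid.powers h := by
      rw [mem_powers_iff_mem_zpowers]
      exact hτ
    exact Submonoid.mem_powers_iff _ _ |>.1 h1
  have hHB : ∀ τ ∈ H, ∀ x ∈ B, τ x ∈ B := by
    intro τ hτ x hx
    obtain ⟨j, rfl⟩ := hHpow τ hτ
    exact hpow j x hx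
  have hpfix : ∀ j : ℕ, (h ^ j) x₁ = x₁ := by
    intro j
    induction j with
    | zero => rfl
    | succ j ih => rw [pow_succ, AlgEquiv.mul_apply, hfix, ih]
  have hHfix : ∀ τ ∈ H, τ x₁ = x₁ := by
    intro τ hτ
    obtain ⟨j, rfl⟩ := hHpow τ hτ
    exact hpfix j
  set c : ℕ := Fintype.card H with hc
  have hc0 : 0 < c := Fintype.card_pos
  -- the norms
  set N : L → L := fun x => ∏ τ : H, (τ : L ≃ₐ[ℚ] L) x with hN
  have hN1 : N x₁ = x₁ ^ c := by
    rw [hN]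
    simp only
    rw [Finset.prod_congr rfl (fun (τ : H) _ => hHfix τ τ.2), Finset.prod_const, Finset.card_univ]
  have hNtr : ∀ x ∈ B, ∀ y ∈ B, x ≠ x₁ → y ≠ x₁ → N x = N y := by
    intro x hx y hy hxx hyy
    obtain ⟨j, hj⟩ := htr x hx y hy hxx hyy
    have hjH : h ^ j ∈ H := Subgroup.npow_mem_zpowers h j
    rw [hN]
    simp only
    rw [← hj]
    refine (Fintype.prod_equiv (Equiv.mulRight (⟨h ^ j, hjH⟩ : H)) _ _ fun τ => ?_).symm
    rfl
  have hN0 : ∀ x ∈ B, N x ≠ 0 := by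
    intro x hx
    rw [hN]
    simp only
    rw [Finset.prod_ne_zero_iff]
    intro τ _
    exact hB0 _ (hHB τ τ.2 x hx)
  have hmapB : ∀ τ ∈ H, B.image τ = B := by
    intro τ hτ
    refine Finset.eq_of_subset_of_card_le ?_ ?_
    · intro y hy
      obtain ⟨x, hx, rfl⟩ := Finset.mem_image.1 hy
      exact hHB τ hτ x hx
    · rw [Finset.card_image_of_injective _ τ.injective]
  have hprodB : ∀ τ ∈ H, τ (∏ x ∈ B, x) = ∏ x ∈ B, x := by
    intro τ hτ
    rw [map_prod]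
    conv_rhs => rw [← hmapB τ hτ]
    rw [Finset.prod_image (fun x _ y _ h => τ.injective h)]
  have hNB : ∏ x ∈ B, N x = (∏ x ∈ B, x) ^ c := by
    rw [hN]
    simp only
    rw [Finset.prod_comm]
    have h1 : ∀ τ : H, ∏ x ∈ B, (τ : L ≃ₐ[ℚ] L) x = ∏ x ∈ B, x := by
      intro τ
      rw [← map_prod, hprodB τ τ.2]
    rw [Finset.prod_congr rfl (fun τ _ => h1 τ), Finset.prod_const, Finset.card_univ]
  -- another element of `B`
  obtain ⟨y₁, hy₁, hy₁x⟩ : ∃ y ∈ B, y ≠ x₁ := by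
    by_contra hcon
    push Not at hcon
    apply hne
    rw [← hv]
    exact (Finset.sum_eq_single_of_mem x₁ hx₁ fun y hy hyx => absurd (hcon y hy) hyx).symm
  set W1 : L := N y₁ with hW1
  have hW10 : W1 ≠ 0 := hN0 y₁ hy₁
  have hNe : ∀ x ∈ B.erase x₁, N x = W1 := fun x hx =>
    hNtr x (Finset.mem_of_mem_erase hx) y₁ hy₁ (Finset.ne_of_mem_erase hx) hy₁x
  have hW : W1 ^ (B.card - 1) * N x₁ = (∏ x ∈ B, x) ^ c := by
    rw [← hNB, ← Finset.prod_erase_mul _ _ hx₁, Finset.prod_congr rfl hNe, Finset.prod_const,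
      Finset.card_erase_of_mem hx₁]
  -- the norm of the relation
  have hrelN : (∏ x ∈ B, N x ^ v x) ^ t = 1 := by
    have h1 : ∏ x ∈ B, N x ^ v x = ∏ τ : H, (τ : L ≃ₐ[ℚ] L) (∏ x ∈ B, x ^ v x) := by
      rw [hN]
      simp only
      have h2 : ∀ x, (∏ τ : H, (τ : L ≃ₐ[ℚ] L) x) ^ v x = ∏ τ : H, ((τ : L ≃ₐ[ℚ] L) x) ^ v x :=
        fun x => (Finset.prod_zpow _ _ _).symm
      rw [Finset.prod_congr rfl (fun x _ => h2 x), Finset.prod_comm]
      refine Finset.prod_congr rfl fun τ _ => ?_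
      rw [map_prod]
      refine Finset.prod_congr rfl fun x _ => ?_
      rw [map_zpow₀]
    rw [h1, ← Finset.prod_pow]
    refine Finset.prod_eq_one fun τ _ => ?_
    rw [← map_pow, hrel, map_one]
  have hrel2 : ∏ x ∈ B, N x ^ v x = N x₁ ^ v x₁ * W1 ^ (-(v x₁)) := by
    rw [← Finset.prod_erase_mul _ _ hx₁, mul_comm]
    congr 1
    have h1 : ∀ x ∈ B.erase x₁, N x ^ v x = W1 ^ v x := fun x hx => by rw [hNe x hx]
    rw [Finset.prod_congr rfl h1]
    have h2 : ∏ x ∈ B.erase x₁, W1 ^ v x = W1 ^ (∑ x ∈ B.erase x₁, v x) := by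
      clear h1 hNe
      induction B.erase x₁ using Finset.induction_on with
      | empty => simp
      | insert a s ha ih => rw [Finset.prod_insert ha, Finset.sum_insert ha, zpow_add₀ hW10, ih]
    rw [h2]
    congr 1
    have h3 := Finset.sum_erase_add _ v hx₁
    rw [hv] at h3
    linarith
  have hNx0 : N x₁ ≠ 0 := hN0 x₁ hx₁
  have hr1 : (N x₁ / W1) ^ (v x₁ * (t : ℤ)) = 1 := by
    rw [zpow_mul, zpow_natCast, div_zpow, div_eq_mul_inv, ← zpow_neg, ← hrel2, hrelN]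
  have hr2 : (N x₁ / W1) ^ ((v x₁).natAbs * t) = 1 := by
    have h1 : ((v x₁).natAbs * t : ℕ) = (v x₁ * (t : ℤ)).natAbs := by
      rw [Int.natAbs_mul, Int.natAbs_natCast]
    rw [h1]
    rcases Int.natAbs_eq (v x₁ * (t : ℤ)) with h2 | h2
    · rw [h2, zpow_natCast] at hr1
      exact hr1
    · rw [h2, zpow_neg, zpow_natCast, inv_eq_one] at hr1
      exact hr1
  refine ⟨c * ((v x₁).natAbs * t), ?_, ?_⟩
  · have : 0 < (v x₁).natAbs := Int.natAbs_pos.2 hne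
    positivity
  · have hcard : 1 ≤ B.card := Finset.card_pos.2 ⟨x₁, hx₁⟩
    have h1 : N x₁ ^ ((v x₁).natAbs * t) = W1 ^ ((v x₁).natAbs * t) := by
      rw [div_pow, div_eq_one_iff_eq (pow_ne_zero _ hW10)] at hr2
      exact hr2
    have h2 : (N x₁ ^ B.card) ^ ((v x₁).natAbs * t) =
        ((∏ x ∈ B, x) ^ c) ^ ((v x₁).natAbs * t) := by
      obtain ⟨b, hb⟩ := Nat.exists_eq_add_of_le hcard
      have hb' : B.card - 1 = b := by omega
      rw [← hW, hb', hb, pow_add, pow_one, mul_pow, mul_pow, mul_comm]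
      congr 1
      rw [← pow_mul, mul_comm b, pow_mul, h1, ← pow_mul, ← pow_mul, mul_comm b]
    rw [hN1] at h2
    calc (x₁ ^ B.card) ^ (c * ((v x₁).natAbs * t))
        = ((x₁ ^ c) ^ B.card) ^ ((v x₁).natAbs * t) := by
          rw [← pow_mul, ← pow_mul, ← pow_mul]
          congr 1
          ring
      _ = ((∏ x ∈ B, x) ^ c) ^ ((v x₁).natAbs * t) := h2
      _ = _ := by rw [← pow_mul]

/-- **The block lemma**: in a block on which one automorphism acts transitively, and another one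
fixes one element and acts transitively on the others, there is a relation with exponents of sum
zero which are not all zero only if all quotients are roots of unity. -/
theorem block_lemma (B : Finset L) (g h : L ≃ₐ[ℚ] L) (hgB : ∀ x ∈ B, g x ∈ B)
    (hB : ∀ x ∈ B, h x ∈ B) (hB0 : ∀ x ∈ B, x ≠ 0)
    (hg : ∀ x ∈ B, ∀ y ∈ B, ∃ j : ℕ, (g ^ j) x = y)
    (x₁ : L) (hx₁ : x₁ ∈ B) (hfix : h x₁ = x₁)
    (htr : ∀ x ∈ B, ∀ y ∈ B, x ≠ x₁ → y ≠ x₁ → ∃ j : ℕ, (h ^ j) x = y)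
    (v : L → ℤ) (hv : ∑ x ∈ B, v x = 0) (hne : ∃ x ∈ B, v x ≠ 0) (t : ℕ) (ht : 0 < t)
    (hrel : (∏ x ∈ B, x ^ v x) ^ t = 1) :
    ∃ T : ℕ, 0 < T ∧ ∀ x ∈ B, ∀ y ∈ B, x ^ T = y ^ T := by
  classical
  have hgpow : ∀ j : ℕ, ∀ x ∈ B, (g ^ j) x ∈ B := by
    intro j
    induction j with
    | zero => intro x hx; simpa using hx
    | succ j ih =>
      intro x hx
      rw [pow_succ, AlgEquiv.mul_apply]
      exact ih _ (hgB x hx)
  obtain ⟨x₀, hx₀, hvx₀⟩ := hne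
  obtain ⟨j, hj⟩ := hg x₁ hx₁ x₀ hx₀
  set τ : L ≃ₐ[ℚ] L := g ^ j with hτ
  have hτB : ∀ x ∈ B, τ x ∈ B := hgpow j
  have himg : B.image τ = B := by
    refine Finset.eq_of_subset_of_card_le ?_ ?_
    · intro y hy
      obtain ⟨x, hx, rfl⟩ := Finset.mem_image.1 hy
      exact hτB x hx
    · rw [Finset.card_image_of_injective _ τ.injective]
  have hτB' : ∀ x ∈ B, τ⁻¹ x ∈ B := by
    intro x hx
    rw [← himg] at hx
    obtain ⟨y, hy, rfl⟩ := Finset.mem_image.1 hx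
    have h1 : τ⁻¹ (τ y) = y := τ.symm_apply_apply y
    rw [h1]
    exact hy
  have hττ : ∀ x, τ (τ⁻¹ x) = x := fun x => τ.apply_symm_apply x
  have hττ' : ∀ x, τ⁻¹ (τ x) = x := fun x => τ.symm_apply_apply x
  have hpowc : ∀ i : ℕ, ∀ x, ((τ * h * τ⁻¹) ^ i) x = τ ((h ^ i) (τ⁻¹ x)) := by
    intro i x
    rw [conj_pow]
    rfl
  obtain ⟨T, hT, hTe⟩ := block_step B (τ * h * τ⁻¹)
    (fun x hx => by
      rw [AlgEquiv.mul_apply, AlgEquiv.mul_apply]
      exact hτB _ (hB _ (hτB' x hx))) hB0 x₀ hx₀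
    (by
      rw [AlgEquiv.mul_apply, AlgEquiv.mul_apply, ← hj, hττ', hfix])
    (by
      intro x hx y hy hxx hyy
      have h1 : ∀ z, z ≠ x₀ → τ⁻¹ z ≠ x₁ := by
        intro z hz he
        apply hz
        rw [← hj, ← he, hττ]
      obtain ⟨i, hi⟩ := htr (τ⁻¹ x) (hτB' x hx) (τ⁻¹ y) (hτB' y hy) (h1 x hxx) (h1 y hyy)
      refine ⟨i, ?_⟩
      rw [hpowc, hi, hττ]) v hv hvx₀ t ht hrel
  have hprodB : ∀ i : ℕ, (g ^ i) (∏ x ∈ B, x) = ∏ x ∈ B, x := by
    intro i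
    have himg : B.image (g ^ i) = B := by
      refine Finset.eq_of_subset_of_card_le ?_ ?_
      · intro y hy
        obtain ⟨x, hx, rfl⟩ := Finset.mem_image.1 hy
        exact hgpow i x hx
      · rw [Finset.card_image_of_injective _ (g ^ i).injective]
    rw [map_prod]
    conv_rhs => rw [← himg]
    rw [Finset.prod_image (fun x _ y _ h => (g ^ i).injective h)]
  have hall : ∀ y ∈ B, (y ^ B.card) ^ T = (∏ x ∈ B, x) ^ T := by
    intro y hy
    obtain ⟨i, hi⟩ := hg x₀ hx₀ y hy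
    have h1 := congrArg (g ^ i) hTe
    rw [map_pow, map_pow, map_pow, hi, hprodB] at h1
    exact h1
  refine ⟨B.card * T, Nat.mul_pos (Finset.card_pos.2 ⟨x₁, hx₁⟩) hT, fun x hx y hy => ?_⟩
  rw [pow_mul, pow_mul, hall x hx, hall y hy]

end Pool.Agent.V8H88.UF
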