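import Pool.Agent.V8H88.UF.Irr

/-!
# The number of polynomials with given constant term and given factorisation
-/

set_option autoImplicit false
set_option linter.unusedSectionVars false

open Polynomial

namespace Pool.Agent.V8H88.UF

/-- A set of tuples in which one coordinate has at most `D` values if the others are given. -/
lemma card_coord {G : Type} [Fintype G] [DecidableEq G] (m : ℕ) (i : Fin (m + 1))
    (Q : (Fin (m + 1) → G) → Prop) [DecidablePred Q] (D : ℕ)
    (h : ∀ s : Fin m → G, (Finset.univ.filter fun x => Q (i.insertNth x s)).card ≤ D) :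
    (Finset.univ.filter Q).card ≤ D * Fintype.card G ^ m := by
  classical
  have h1 := Finset.card_le_mul_card_image_of_maps_to (s := Finset.univ.filter Q)
    (t := (Finset.univ : Finset (Fin m → G))) (f := fun s => i.removeNth s)
    (fun _ _ => Finset.mem_univ _) D (by
      intro r _
      refine le_trans ?_ (h r)
      refine Finset.card_le_card_of_injOn (fun s => s i) ?_ ?_
      · intro s hs
        simp only [Finset.coe_filter, Finset.mem_filter, Finset.mem_univ, true_and,
          Set.mem_ofPred_eq] at hs ⊢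
        rw [← hs.2, Fin.insertNth_self_removeNth]
        exact hs.1
      · intro s hs s' hs' hss
        simp only [Finset.coe_filter, Finset.mem_filter, Finset.mem_univ, true_and,
          Set.mem_ofPred_eq] at hs hs'
        rw [← Fin.insertNth_self_removeNth i s, ← Fin.insertNth_self_removeNth i s', hs.2, hs'.2]
        congr 1)
  rw [Finset.card_univ, Fintype.card_fun, Fintype.card_fin] at h1
  exact h1

/-- The number of units with given power. -/
lemma card_pow_eq {F : Type} [Field F] [Fintype F] [DecidableEq F] (k : ℕ) (hk : 0 < k) (c : F) :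
    (Finset.univ.filter fun x : Fˣ => (x : F) ^ k = c).card ≤ k := by
  classical
  have hsub : (Finset.univ.filter fun x : Fˣ => (x : F) ^ k = c).image (fun x : Fˣ => (x : F)) ⊆
      (nthRoots k c).toFinset := by
    intro y hy
    obtain ⟨x, hx, rfl⟩ := Finset.mem_image.1 hy
    rw [Finset.mem_filter] at hx
    rw [Multiset.mem_toFinset, mem_nthRoots hk]
    exact hx.2
  rw [← Finset.card_image_of_injective _ Units.val_injective]
  exact (Finset.card_le_card hsub).trans ((Multiset.toFinset_card_le _).trans (card_nthRoots k c))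

section Split

variable {F : Type} [Field F] [Fintype F] [DecidableEq F]

/-- The good tuples: the coordinates and the quotient of `b` by their product are different, and
the `N`-th powers of the first coordinate and of this quotient are different. -/
def GoodT (m N : ℕ) (b : Fˣ) (s : Fin (m + 1) → Fˣ) : Prop :=
  (∀ i j, i ≠ j → s i ≠ s j) ∧ (∀ i, s i ≠ b / ∏ j, s j) ∧ (s 0) ^ N ≠ (b / ∏ j, s j) ^ N

/-- The number of good tuples. -/
lemma card_good (m N : ℕ) (hN : 0 < N) (b : Fˣ)
    (hF : 2 * ((m + 1) ^ 2 + 2 * (m + 1) + 2 * N) ≤ Fintype.card Fˣ) :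
    ∃ G : Finset (Fin (m + 1) → Fˣ), (∀ s ∈ G, GoodT m N b s) ∧
      Fintype.card Fˣ ^ (m + 1) ≤ 2 * G.card := by
  classical
  set u : ℕ := Fintype.card Fˣ with hu
  have hval : ∀ x y : Fˣ, x = y ↔ (x : F) = (y : F) := fun x y => Units.ext_iff
  have hprod : ∀ (i : Fin (m + 1)) (x : Fˣ) (s : Fin m → Fˣ),
      ∏ j, (i.insertNth x s : Fin (m + 1) → Fˣ) j = x * ∏ j, s j := by
    intro i x s
    rw [Fin.prod_univ_succAbove _ i, Fin.insertNth_apply_same]
    congr 1
    refine Finset.prod_congr rfl fun j _ => ?_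
    rw [Fin.insertNth_apply_succAbove]
  -- the bad events
  have hB1 : ∀ i j : Fin (m + 1), i ≠ j →
      (Finset.univ.filter fun s : Fin (m + 1) → Fˣ => s i = s j).card ≤ 1 * u ^ m := by
    intro i j hij
    refine card_coord m i _ 1 fun s => ?_
    obtain ⟨j', rfl⟩ := Fin.exists_succAbove_eq hij.symm
    rw [Finset.card_le_one]
    intro x hx y hy
    rw [Finset.mem_filter, Fin.insertNth_apply_same, Fin.insertNth_apply_succAbove] at hx hy
    rw [hx.2, hy.2]
  have hB2 : ∀ i : Fin (m + 1),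
      (Finset.univ.filter fun s : Fin (m + 1) → Fˣ => s i = b / ∏ j, s j).card ≤ 2 * u ^ m := by
    intro i
    refine card_coord m i _ 2 fun s => ?_
    refine (Finset.card_le_card ?_).trans (card_pow_eq 2 (by norm_num) ((b / ∏ j, s j : Fˣ) : F))
    intro x hx
    rw [Finset.mem_filter, Fin.insertNth_apply_same, hprod] at hx
    rw [Finset.mem_filter]
    refine ⟨Finset.mem_univ _, ?_⟩
    rw [← Units.val_pow_eq_pow_val, ← hval]
    have h1 := hx.2
    rw [eq_div_iff_mul_eq'] at h1
    rw [eq_div_iff_mul_eq', ← h1, sq]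
    ac_rfl
  have hB3 : (Finset.univ.filter fun s : Fin (m + 1) → Fˣ =>
      (s 0) ^ N = (b / ∏ j, s j) ^ N).card ≤ (2 * N) * u ^ m := by
    refine card_coord m 0 _ (2 * N) fun s => ?_
    refine (Finset.card_le_card ?_).trans (card_pow_eq (2 * N) (by omega)
      (((b / ∏ j, s j) ^ N : Fˣ) : F))
    intro x hx
    rw [Finset.mem_filter, Fin.insertNth_apply_same, hprod] at hx
    rw [Finset.mem_filter]
    refine ⟨Finset.mem_univ _, ?_⟩
    rw [← Units.val_pow_eq_pow_val, ← hval]
    have h1 := hx.2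
    rw [div_pow, eq_div_iff_mul_eq'] at h1
    rw [div_pow, eq_div_iff_mul_eq', ← h1, mul_pow, two_mul, pow_add]
    exact mul_assoc _ _ _
  set B1 : Finset (Fin (m + 1) → Fˣ) := (Finset.univ.filter fun p : Fin (m + 1) × Fin (m + 1) =>
    p.1 ≠ p.2).biUnion fun p => Finset.univ.filter fun s => s p.1 = s p.2 with hB1d
  set B2 : Finset (Fin (m + 1) → Fˣ) := Finset.univ.biUnion fun i : Fin (m + 1) =>
    Finset.univ.filter fun s => s i = b / ∏ j, s j with hB2d
  set B3 : Finset (Fin (m + 1) → Fˣ) := Finset.univ.filter fun s =>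
    (s 0) ^ N = (b / ∏ j, s j) ^ N with hB3d
  have c1 : B1.card ≤ (m + 1) ^ 2 * u ^ m := by
    refine (Finset.card_biUnion_le_card_mul _ _ (u ^ m) ?_).trans (Nat.mul_le_mul_right _ ?_)
    · intro p hp
      rw [Finset.mem_filter] at hp
      have := hB1 p.1 p.2 hp.2
      rwa [one_mul] at this
    · refine (Finset.card_filter_le _ _).trans ?_
      rw [Finset.card_univ, Fintype.card_prod, Fintype.card_fin, sq]
  have c2 : B2.card ≤ (m + 1) * (2 * u ^ m) := by
    refine (Finset.card_biUnion_le_card_mul _ _ (2 * u ^ m) fun i _ => hB2 i).trans ?_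
    rw [Finset.card_univ, Fintype.card_fin]
  refine ⟨(Finset.univ \ (B1 ∪ B2 ∪ B3)), ?_, ?_⟩
  · intro s hs
    rw [Finset.mem_sdiff, Finset.mem_union, Finset.mem_union, not_or, not_or] at hs
    obtain ⟨-, ⟨h1, h2⟩, h3⟩ := hs
    refine ⟨?_, ?_, ?_⟩
    · intro i j hij h
      apply h1
      rw [hB1d, Finset.mem_biUnion]
      exact ⟨(i, j), by simpa using hij, by simpa using h⟩
    · intro i h
      apply h2
      rw [hB2d, Finset.mem_biUnion]
      exact ⟨i, Finset.mem_univ _, by simpa using h⟩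
    · intro h
      apply h3
      rw [hB3d, Finset.mem_filter]
      exact ⟨Finset.mem_univ _, h⟩
  · have c4 : (B1 ∪ B2 ∪ B3).card ≤ ((m + 1) ^ 2 + 2 * (m + 1) + 2 * N) * u ^ m := by
      refine (Finset.card_union_le _ _).trans ?_
      refine (Nat.add_le_add (Finset.card_union_le _ _) le_rfl).trans ?_
      calc B1.card + B2.card + B3.card
          ≤ (m + 1) ^ 2 * u ^ m + (m + 1) * (2 * u ^ m) + (2 * N) * u ^ m :=
            Nat.add_le_add (Nat.add_le_add c1 c2) hB3
        _ = _ := by ring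
    have c5 : (Finset.univ \ (B1 ∪ B2 ∪ B3)).card + (B1 ∪ B2 ∪ B3).card = u ^ (m + 1) := by
      rw [Finset.card_sdiff_add_card_eq_card (Finset.subset_univ _), Finset.card_univ,
        Fintype.card_fun, Fintype.card_fin]
    have c6 : 2 * (((m + 1) ^ 2 + 2 * (m + 1) + 2 * N) * u ^ m) ≤ u ^ (m + 1) := by
      calc 2 * (((m + 1) ^ 2 + 2 * (m + 1) + 2 * N) * u ^ m)
          = (2 * ((m + 1) ^ 2 + 2 * (m + 1) + 2 * N)) * u ^ m := by ring
        _ ≤ u * u ^ m := Nat.mul_le_mul_right _ hF
        _ = u ^ (m + 1) := by rw [pow_succ']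
    omega

/-- **The number of products of different linear factors with given constant term.** -/
theorem card_split (n N : ℕ) (hn : 2 ≤ n) (hN : 0 < N) (a : F) (ha : a ≠ 0)
    (hF : 2 * (n ^ 2 + 2 * n + 2 * N) ≤ Fintype.card Fˣ) :
    ∃ S : Finset F[X], (∀ f ∈ S, f.Monic ∧ f.natDegree = n ∧ f.coeff 0 = a ∧
      (∃ T : Finset F, f = ∏ t ∈ T, (X - C t)) ∧
      ∃ u v : F, f.eval u = 0 ∧ f.eval v = 0 ∧ u ^ N ≠ v ^ N) ∧
      Fintype.card Fˣ ^ (n - 1) ≤ 2 * n ^ (n - 1) * S.card := by
  classical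
  obtain ⟨m, rfl⟩ : ∃ m, n = m + 2 := ⟨n - 2, by omega⟩
  have hb0 : (-1) ^ (m + 2) * a ≠ 0 := mul_ne_zero (pow_ne_zero _ (neg_ne_zero.2 one_ne_zero)) ha
  set b : Fˣ := Units.mk0 _ hb0 with hb
  obtain ⟨G, hG, hGc⟩ := card_good m N hN b (le_trans (by nlinarith) hF)
  set T : (Fin (m + 1) → Fˣ) → Finset F := fun s =>
    insert ((b / ∏ j, s j : Fˣ) : F) (Finset.univ.image fun i => ((s i : Fˣ) : F)) with hT
  have hnot : ∀ s, GoodT m N b s →
      ((b / ∏ j, s j : Fˣ) : F) ∉ Finset.univ.image fun i => ((s i : Fˣ) : F) := by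
    intro s hs hmem
    obtain ⟨i, -, hi⟩ := Finset.mem_image.1 hmem
    exact hs.2.1 i (Units.ext hi)
  have hinj : ∀ s, GoodT m N b s → Function.Injective fun i => ((s i : Fˣ) : F) := by
    intro s hs i j hij
    by_contra hne
    exact hs.1 i j hne (Units.ext hij)
  have hTc : ∀ s, GoodT m N b s → (T s).card = m + 2 := by
    intro s hs
    rw [hT]
    simp only
    rw [Finset.card_insert_of_notMem (hnot s hs), Finset.card_image_of_injective _ (hinj s hs),
      Finset.card_univ, Fintype.card_fin]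
  have hTp : ∀ s, GoodT m N b s → ∏ t ∈ T s, t = (b : F) := by
    intro s hs
    rw [hT]
    simp only
    rw [Finset.prod_insert (hnot s hs), Finset.prod_image (fun x _ y _ h => hinj s hs h)]
    have h1 : ∏ i, ((s i : Fˣ) : F) = ((∏ i, s i : Fˣ) : F) := by
      rw [Units.coe_prod]
    rw [h1, ← Units.val_mul, div_mul_cancel]
  refine ⟨G.image fun s => ∏ t ∈ T s, (X - C t), ?_, ?_⟩
  · intro f hf
    obtain ⟨s, hs, rfl⟩ := Finset.mem_image.1 hf
    have hg := hG s hs
    have hev : ∀ t ∈ T s, (∏ t ∈ T s, (X - C t)).eval t = 0 := by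
      intro t ht
      rw [eval_prod]
      refine Finset.prod_eq_zero ht ?_
      simp
    refine ⟨monic_prod_of_monic _ _ fun t _ => monic_X_sub_C t, ?_, ?_, ⟨T s, rfl⟩, ?_⟩
    · rw [natDegree_finsetProd_X_sub_C_eq_card, hTc s hg]
    · rw [coeff_zero_eq_eval_zero, eval_prod]
      have h1 : ∏ t ∈ T s, (X - C t).eval 0 = ∏ t ∈ T s, (-1) * t := by
        refine Finset.prod_congr rfl fun t _ => ?_
        rw [eval_sub, eval_X, eval_C]
        ring
      rw [h1, Finset.prod_mul_distrib, Finset.prod_const, hTc s hg, hTp s hg, hb,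
        Units.val_mk0, ← mul_assoc, ← mul_pow, neg_one_mul, neg_neg, one_pow, one_mul]
    · refine ⟨(s 0 : F), ((b / ∏ j, s j : Fˣ) : F), hev _ ?_, hev _ ?_, ?_⟩
      · rw [hT]
        exact Finset.mem_insert_of_mem (Finset.mem_image_of_mem _ (Finset.mem_univ _))
      · rw [hT]
        exact Finset.mem_insert_self _ _
      · intro h
        apply hg.2.2
        apply Units.ext
        rw [Units.val_pow_eq_pow_val, Units.val_pow_eq_pow_val]
        exact h
  · have h1 : G.card ≤ (m + 2) ^ (m + 1) * (G.image fun s => ∏ t ∈ T s, (X - C t)).card := by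
      refine Finset.card_le_mul_card_image G _ ?_
      intro f hf
      obtain ⟨s₀, hs₀, rfl⟩ := Finset.mem_image.1 hf
      have hg0 := hG s₀ hs₀
      have hle : (G.filter fun s => ∏ t ∈ T s, (X - C t) = ∏ t ∈ T s₀, (X - C t)).card ≤
          (Finset.univ : Finset (Fin (m + 1) → T s₀)).card := by
        have hTT : ∀ s, ∏ t ∈ T s, (X - C t) = ∏ t ∈ T s₀, (X - C t) → T s = T s₀ := by
          intro s hs
          have h2 := congrArg Polynomial.roots hs
          rw [roots_prod_X_sub_C, roots_prod_X_sub_C] at h2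
          exact Finset.val_injective h2
        have hmem : ∀ s, ∏ t ∈ T s, (X - C t) = ∏ t ∈ T s₀, (X - C t) → ∀ i,
            ((s i : Fˣ) : F) ∈ T s₀ := by
          intro s hs i
          rw [← hTT s hs, hT]
          exact Finset.mem_insert_of_mem (Finset.mem_image_of_mem _ (Finset.mem_univ _))
        have hne : (T s₀).Nonempty := by
          rw [← Finset.card_pos, hTc s₀ hg0]
          omega
        obtain ⟨t₀, ht₀⟩ := hne
        refine Finset.card_le_card_of_injOn (fun s i =>
          if h : ((s i : Fˣ) : F) ∈ T s₀ then ⟨((s i : Fˣ) : F), h⟩ else ⟨t₀, ht₀⟩)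
          (fun _ _ => Finset.mem_univ _) ?_
        intro s hs s' hs' hss
        simp only [Finset.coe_filter, Set.mem_ofPred_eq] at hs hs'
        funext i
        have h3 := congrFun hss i
        simp only [dif_pos (hmem s hs.2 i), dif_pos (hmem s' hs'.2 i)] at h3
        exact Units.ext (congrArg Subtype.val h3)
      refine hle.trans ?_
      rw [Finset.card_univ, Fintype.card_fun, Fintype.card_fin, Fintype.card_coe, hTc s₀ hg0]
    have e : m + 2 - 1 = m + 1 := by omega
    rw [e]
    calc Fintype.card Fˣ ^ (m + 1) ≤ 2 * G.card := hGc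
      _ ≤ 2 * ((m + 2) ^ (m + 1) * (G.image fun s => ∏ t ∈ T s, (X - C t)).card) :=
        Nat.mul_le_mul_left _ h1
      _ = _ := by ring

/-- The pattern with a linear factor and an irreducible one. -/
theorem card_patB (l : ℕ) [Fact l.Prime] (n : ℕ) (hn : 2 ≤ n) (a : ZMod l) (ha : a ≠ 0)
    (hl2 : 2 * n + 8 ≤ l) :
    ∃ S : Finset (ZMod l)[X], (∀ f ∈ S, f.Monic ∧ f.natDegree = n ∧ f.coeff 0 = a ∧
      ∃ (u : ZMod l) (g : (ZMod l)[X]), f = (X - C u) * g ∧ Irreducible g ∧ g.eval u ≠ 0) ∧
      l ^ (n - 1) ≤ 4 * (n * n) * S.card := by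
  classical
  obtain ⟨m, rfl⟩ : ∃ m, n = m + 2 := ⟨n - 2, by omega⟩
  have hl0 : 0 < l := by omega
  -- the good values of `u`
  set U : Finset (ZMod l)ˣ := Finset.univ.filter fun u => ((u : (ZMod l)ˣ) : ZMod l) ^ 2 ≠ a
    with hU
  have hUc : l ≤ 2 * U.card := by
    have h1 := card_pow_eq (F := ZMod l) 2 (by norm_num) a
    have h2 : U.card + (Finset.univ.filter fun x : (ZMod l)ˣ => (x : ZMod l) ^ 2 = a).card =
        l - 1 := by
      rw [← ZMod.card_units_eq_totient l |>.trans (Nat.totient_prime Fact.out),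
        ← Finset.card_univ, hU, add_comm]
      exact Finset.card_filter_add_card_filter_not _
    omega
  choose S hS hSc using fun u : (ZMod l)ˣ => card_irr l (m + 1) (-(a / (u : ZMod l)))
    (neg_ne_zero.2 (div_ne_zero ha u.ne_zero)) (by omega)
  have hne : ∀ u ∈ U, ∀ g ∈ S u, g.eval (u : ZMod l) ≠ 0 := by
    intro u hu g hg h0
    obtain ⟨h1, h2, h3, h4⟩ := hS u g hg
    have hd : (X - C (u : ZMod l)) ∣ g := dvd_iff_isRoot.mpr h0
    obtain ⟨v, hv⟩ := hd
    rcases h4.isUnit_or_isUnit hv with h5 | h5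
    · exact (not_isUnit_X_sub_C _) h5
    · have h6 : v.natDegree = 0 := natDegree_eq_zero_of_isUnit h5
      obtain ⟨c, rfl⟩ := natDegree_eq_zero.1 h6
      have h7 : c = 1 := by
        have h8 := h1
        rw [hv, Monic, leadingCoeff_mul, leadingCoeff_C, (monic_X_sub_C _).leadingCoeff,
          one_mul] at h8
        exact h8
      rw [h7, C_1, mul_one] at hv
      rw [hv, coeff_zero_eq_eval_zero, eval_sub, eval_X, eval_C, zero_sub, neg_inj] at h3
      rw [hU, Finset.mem_filter] at hu
      apply hu.2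
      rw [sq]
      nth_rewrite 1 [h3]
      exact div_mul_cancel₀ _ u.ne_zero
  set PP : Finset (Σ _ : (ZMod l)ˣ, (ZMod l)[X]) := U.sigma S with hPP
  have hPPc : l ^ (m + 1) ≤ 4 * (m + 1) * PP.card := by
    rw [hPP, Finset.card_sigma]
    have h1 : ∀ u ∈ U, l ^ m ≤ 2 * (m + 1) * (S u).card := fun u _ => hSc u
    have h2 : U.card * l ^ m ≤ 2 * (m + 1) * ∑ u ∈ U, (S u).card := by
      rw [Finset.mul_sum, ← smul_eq_mul, ← Finset.sum_const]
      exact Finset.sum_le_sum h1
    calc l ^ (m + 1) = l * l ^ m := pow_succ' _ _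
      _ ≤ (2 * U.card) * l ^ m := Nat.mul_le_mul_right _ hUc
      _ = 2 * (U.card * l ^ m) := by ring
      _ ≤ 2 * (2 * (m + 1) * ∑ u ∈ U, (S u).card) := Nat.mul_le_mul_left _ h2
      _ = _ := by ring
  refine ⟨PP.image fun p => (X - C (p.1 : ZMod l)) * p.2, ?_, ?_⟩
  · intro f hf
    obtain ⟨⟨u, g⟩, hp, rfl⟩ := Finset.mem_image.1 hf
    rw [hPP, Finset.mem_sigma] at hp
    obtain ⟨h1, h2, h3, h4⟩ := hS u g hp.2
    refine ⟨(monic_X_sub_C _).mul h1, ?_, ?_, (u : ZMod l), g, rfl, h4, hne u hp.1 g hp.2⟩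
    · rw [(monic_X_sub_C _).natDegree_mul h1, natDegree_X_sub_C, h2]
      omega
    · simp only
      rw [mul_coeff_zero, h3, coeff_zero_eq_eval_zero, eval_sub, eval_X, eval_C, zero_sub,
        neg_mul_neg, mul_div_cancel₀ _ u.ne_zero]
  · have h1 : PP.card ≤ (m + 2) * (PP.image fun p => (X - C (p.1 : ZMod l)) * p.2).card := by
      refine Finset.card_le_mul_card_image PP _ ?_
      intro f hf
      obtain ⟨⟨u₀, g₀⟩, hp0, rfl⟩ := Finset.mem_image.1 hf
      rw [hPP, Finset.mem_sigma] at hp0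
      have h0 := hS u₀ g₀ hp0.2
      set f₀ : (ZMod l)[X] := (X - C (u₀ : ZMod l)) * g₀ with hf₀
      have hf0m : f₀.Monic := (monic_X_sub_C _).mul h0.1
      have hf0d : f₀.natDegree = m + 2 := by
        rw [hf₀, (monic_X_sub_C _).natDegree_mul h0.1, natDegree_X_sub_C, h0.2.1]
        omega
      have hle : (PP.filter fun p => (X - C (p.1 : ZMod l)) * p.2 = f₀).card ≤
          f₀.roots.toFinset.card := by
        refine Finset.card_le_card_of_injOn (fun p => ((p.1 : (ZMod l)ˣ) : ZMod l)) ?_ ?_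
        · intro p hp
          simp only [Finset.coe_filter, Set.mem_ofPred_eq] at hp
          simp only [Finset.mem_coe, Multiset.mem_toFinset]
          rw [mem_roots hf0m.ne_zero, IsRoot.def, ← hp.2]
          simp
        · rintro ⟨u, g⟩ hp ⟨u', g'⟩ hp' hpp
          simp only [Finset.coe_filter, Set.mem_ofPred_eq] at hp hp' hpp
          have h3 : u = u' := Units.ext hpp
          subst h3
          have h4 := hp.2.trans hp'.2.symm
          have h5 := mul_left_cancel₀ (X_sub_C_ne_zero _) h4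
          rw [h5]
      refine hle.trans ((Multiset.toFinset_card_le _).trans ((card_roots' _).trans ?_))
      rw [hf0d]
    have e : m + 2 - 1 = m + 1 := by omega
    rw [e]
    calc l ^ (m + 1) ≤ 4 * (m + 1) * PP.card := hPPc
      _ ≤ 4 * (m + 1) * ((m + 2) * (PP.image fun p => (X - C (p.1 : ZMod l)) * p.2).card) :=
        Nat.mul_le_mul_left _ h1
      _ ≤ 4 * (m + 2) * ((m + 2) * (PP.image fun p => (X - C (p.1 : ZMod l)) * p.2).card) :=
        Nat.mul_le_mul_right _ (by omega)
      _ = _ := by ring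

end Split

end Pool.Agent.V8H88.UF
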