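import Pool.Agent.W458.MF.Defs
import Pool.Agent.W458.MF.ExDefs

/-!
# Families of varieties with multiplication by a CM field and unitary monodromy: definitions
-/

open CategoryTheory AlgebraicGeometry Polynomial NumberField

universe u v

namespace Pool.Agent.V8H88.UF

open Pool.Agent.H914 Pool.Agent.W534 Pool.Agent.W521.Frob Pool.Agent.W458.MF VarClass Obj
  WeilCohomology

section Fields

variable (K : Type) [Field K] [NumberField K] [IsCMField K]

/-- The complex conjugation of the ring of integers of the CM field `K`. -/
noncomputable def cc : 𝓞 K →+* 𝓞 K :=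
  RingOfIntegers.mapRingHom ((IsCMField.complexConj K : K ≃ₐ[maximalRealSubfield K] K) : K →+* K)

variable {K}

/-- The homomorphism from the ring of integers to the complex numbers given by an embedding. -/
noncomputable def emb (φ : K →+* ℂ) : 𝓞 K →+* ℂ := φ.comp (algebraMap (𝓞 K) K)

variable (K)

/-- The prime `l` splits completely in `K`: there are `[K : ℚ]` homomorphisms from the ring of
integers of `K` to the field with `l` elements. -/
def SplitsCompletely (l : ℕ) : Prop := Nat.card (𝓞 K →+* ZMod l) = Module.finrank ℚ K

/-- The families of matrices `A χ` of size `n` over the field with `l` elements, for the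
homomorphisms `χ` from the ring of integers of `K` to this field (there are `[K : ℚ]` of them if
`l` splits completely in `K`), such that `A (χ ∘ c) (A χ)ᵀ = γ`, with the complex conjugation `c`,
and `det A χ = χ(D)`. If `l` splits completely these are the similitudes with multiplier `γ` and
determinant `D` of a hermitian form of rank `n` over `K`, modulo `l`. -/
def unitarySimilitudes (n l : ℕ) (γ : ZMod l) (D : 𝓞 K) :
    Set ((𝓞 K →+* ZMod l) → Matrix (Fin n) (Fin n) (ZMod l)) :=
  {A | ∀ χ, A (χ.comp (cc K)) * (A χ).transpose = γ • (1 : Matrix (Fin n) (Fin n) (ZMod l)) ∧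
    (A χ).det = χ D}

/-- The proportion, among the similitudes with multiplier `q` and determinant `D` of a hermitian
form of rank `n`, modulo `l`, of those for which the family of the characteristic polynomials is
in `E`. -/
noncomputable def uproportion (n l q : ℕ) (D : 𝓞 K)
    (E : Set ((𝓞 K →+* ZMod l) → (ZMod l)[X])) : ℝ :=
  ({A : (𝓞 K →+* ZMod l) → Matrix (Fin n) (Fin n) (ZMod l) |
      A ∈ unitarySimilitudes K n l q D ∧ (fun χ => (A χ).charpoly) ∈ E}.ncard : ℝ) /
    ((unitarySimilitudes K n l q D).ncard : ℝ)

end Fields

variable {k : Type u} [Field k] {𝒱 : VarClass k} {ops : CycleOps 𝒱}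

/-- A family of varieties, with a polynomial over the ring of integers of `K` for each member. -/
structure UFamily (W : WeilCohomology.{u, v} ops) (Y : 𝒱.Obj) (K : Type) [Field K]
    [NumberField K] extends Family W Y where
  upol : ∀ m, S m → (𝓞 K)[X]

/-- The proportion of the parameters in `S m` for which the reductions of the polynomial over the
ring of integers of `K` by the homomorphisms to the field with `l` elements and to the field with
`l'` elements are in `E` and `E'`. -/
noncomputable def UFamily.ufrequency {W : WeilCohomology.{u, v} ops} {Y : 𝒱.Obj} {K : Type}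
    [Field K] [NumberField K] (F : UFamily W Y K) (m l l' : ℕ)
    (E : Set ((𝓞 K →+* ZMod l) → (ZMod l)[X])) (E' : Set ((𝓞 K →+* ZMod l') → (ZMod l')[X])) :
    ℝ :=
  ({s : F.S m | (fun χ : 𝓞 K →+* ZMod l => (F.upol m s).map χ) ∈ E ∧
      (fun χ : 𝓞 K →+* ZMod l' => (F.upol m s).map χ) ∈ E'}.ncard : ℝ) /
    (Nat.card (F.S m) : ℝ)

/-- The family of varieties of dimension `d` over `Y` has multiplication by the CM field `K` and
full unitary monodromy of rank `n ≥ 2`, with the determinants `D m`, modulo all large primes `l`
which split completely in `K`: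

* the members are as in `Piece.IsOver`, the polynomial `upol` is monic of degree `n`, its complex
  conjugates have roots of absolute value `p ^ (d m / 2)`, and their product is the characteristic
  polynomial of Frobenius on the subspace `sub` of the cohomology (so `upol` is the characteristic
  polynomial of Frobenius on this subspace as a vector space over `K`);
* the constant term of `upol` is `(-1) ^ n * D m`, so that `D m` is the determinant of Frobenius,
  and it is up to a root of unity of bounded order the `m`-th power of `δ` (the determinant is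
  geometrically constant, up to twist by a character of finite order);
* the matrices of the Frobenius endomorphisms of the members over the field with `p ^ m` elements,
  modulo `l` and modulo `l'`, are asymptotically, as `m` tends to infinity, independent and
  equidistributed in the sets of the hermitian similitudes with multiplier `p ^ (d m)` and
  determinant `D m`, as far as their characteristic polynomials are concerned. -/
structure UFamily.HasUnitaryMonodromy {W : WeilCohomology.{u, v} ops} {Y : 𝒱.Obj} {K : Type}
    [Field K] [NumberField K] [IsCMField K] (F : UFamily W Y K) {p : ℕ} (Φ : FrobSystem W p)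
    (d n l₀ : ℕ) (D : ℕ → 𝓞 K) (δ : 𝓞 K) : Prop where
  isOver : ∀ m, 0 < m → ∀ s : F.S m, (F.member m s).IsOver Φ m
  dim : ∀ m (s : F.S m), (F.member m s).obj.dim = d
  rank : 2 ≤ n
  monic : ∀ m (s : F.S m), (F.upol m s).Monic
  degree : ∀ m (s : F.S m), (F.upol m s).natDegree = n
  norm : ∀ m (s : F.S m), (weil (p ^ (d * m)) (F.member m s).pol).map (Int.castRingHom ℂ) =
    ∏ φ : K →+* ℂ, (F.upol m s).map (emb φ)
  weight : ∀ m (s : F.S m) (φ : K →+* ℂ) (z : ℂ), ((F.upol m s).map (emb φ)).IsRoot z →
    ‖z‖ ^ 2 = (p : ℝ) ^ (d * m)
  det : ∀ m (s : F.S m), (F.upol m s).coeff 0 = (-1) ^ n * D m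
  det_pow : ∃ M : ℕ, 0 < M ∧ ∀ m, D m ^ M = δ ^ (M * m)
  equidistributed : ∀ l l' : ℕ, l.Prime → l'.Prime → l₀ ≤ l → l₀ ≤ l' → l ≠ l' →
    SplitsCompletely K l → SplitsCompletely K l' →
    ∀ ε : ℝ, 0 < ε → ∃ m₀ : ℕ, ∀ m ≥ m₀, Nonempty (F.S m) →
      ∀ (E : Set ((𝓞 K →+* ZMod l) → (ZMod l)[X])) (E' : Set ((𝓞 K →+* ZMod l') → (ZMod l')[X])),
        |F.ufrequency m l l' E E' - uproportion K n l (p ^ (d * m)) (D m) E *
          uproportion K n l' (p ^ (d * m)) (D m) E'| ≤ ε

/-- The numbers `D i` in the CM fields `K i` are multiplicatively independent in the following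
sense, relative to a set `B` of complex numbers: if the product of powers, with exponents `c i φ`,
of the complex conjugates `φ (D i)` and of a product of elements of `B` is a nonzero rational
number, then `c i φ = c i (conj φ)` for all `i` and `φ` (so that the product consists of factors
`φ (D i) * conj (φ (D i))`). -/
def NonDegenerate {I : Type} [Fintype I] (K : I → Type) [∀ i, Field (K i)]
    [∀ i, NumberField (K i)] (D : ∀ i, 𝓞 (K i)) (B : Set ℂ) : Prop :=
  ∀ c : ∀ i, (K i →+* ℂ) → ℤ, ∀ ν ∈ Submonoid.closure B, ∀ r : ℚ, r ≠ 0 →
    (∏ i, ∏ φ : K i →+* ℂ, (emb φ (D i)) ^ (c i φ)) * ν = (r : ℂ) →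
      ∀ i φ, c i φ = c i (ComplexEmbedding.conjugate φ)

/-- The complex numbers which are conjugate to eigenvalues of the Frobenius endomorphism of the
model of `Y`. -/
def frobeniusNumbers {W : WeilCohomology.{u, v} ops} {p : ℕ} (Φ : FrobSystem W p) (Y : 𝒱.Obj) :
    Set ℂ :=
  {z | ∃ μ : W.K, Module.End.HasEigenvalue (W.map (Φ.Fr Y)).toLinearMap μ ∧
    aeval z (minpoly ℤ μ) = 0}

/-- The tuples of members of the families such that not all products of copies of `Y` and of the
members have the property `P`. -/
def uexceptions {W : WeilCohomology.{u, v} ops} {Y : 𝒱.Obj} {I : Type} {K : I → Type}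
    [∀ i, Field (K i)] [∀ i, NumberField (K i)]
    (F : ∀ i, UFamily W Y (K i)) (m : ℕ) (P : 𝒱.Obj → Prop) : Set (∀ i, (F i).S m) :=
  {s | ¬ ∀ Z, IsProductOf ({Y} ∪ Set.range fun i => ((F i).member m (s i)).obj) Z → P Z}

end Pool.Agent.V8H88.UF
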