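import Pool.Agent.V8H88.UF.GL

/-!
# Unitary tuples of matrices over a finite field
-/

set_option autoImplicit false
set_option linter.unusedSectionVars false

open Polynomial

namespace Pool.Agent.V8H88.UF

/-- A system of representatives for a fixed point free involution, with a given element. -/
theorem exists_half {X : Type} [Fintype X] [DecidableEq X] (bar : X → X)
    (hbb : ∀ x, bar (bar x) = x) (hb : ∀ x, bar x ≠ x) (x₀ : X) :
    ∃ H : Finset X, x₀ ∈ H ∧ (∀ x, x ∈ H ↔ bar x ∉ H) := by
  classical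
  set e := Fintype.equivFin X with he
  have hne : ∀ x, e x ≠ e (bar x) := fun x h => hb x (e.injective h).symm
  by_cases h0 : e x₀ < e (bar x₀)
  · refine ⟨Finset.univ.filter fun x => e x < e (bar x), by simpa using h0, fun x => ?_⟩
    simp only [Finset.mem_filter, Finset.mem_univ, true_and, hbb, not_lt]
    exact ⟨le_of_lt, fun h => lt_of_le_of_ne h (hne x)⟩
  · refine ⟨Finset.univ.filter fun x => e (bar x) < e x, ?_, fun x => ?_⟩
    · simp only [Finset.mem_filter, Finset.mem_univ, true_and]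
      exact lt_of_le_of_ne (not_lt.1 h0) (hne x₀).symm
    · simp only [Finset.mem_filter, Finset.mem_univ, true_and, hbb, not_lt]
      exact ⟨le_of_lt, fun h => lt_of_le_of_ne h (hne x).symm⟩

variable {F : Type} [Field F] [Fintype F] [DecidableEq F] {X : Type} [Fintype X] [DecidableEq X]

/-- The tuples. -/
def utup (n : ℕ) (bar : X → X) (γ : F) (D : X → F) : Set (X → Matrix (Fin n) (Fin n) F) :=
  {A | ∀ χ, A (bar χ) * (A χ).transpose = γ • (1 : Matrix (Fin n) (Fin n) F) ∧ (A χ).det = D χ}

/-- The extension of a tuple indexed by a half system. -/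
noncomputable def ext (n : ℕ) (bar : X → X) (γ : F) (H : Finset X)
    (B : H → Matrix (Fin n) (Fin n) F) (χ : X) : Matrix (Fin n) (Fin n) F :=
  if h : χ ∈ H then B ⟨χ, h⟩ else
    if h' : bar χ ∈ H then γ • ((B ⟨bar χ, h'⟩).transpose)⁻¹ else 0

theorem ext_mem (n : ℕ) (bar : X → X) (hbb : ∀ x, bar (bar x) = x) (γ : F) (hγ : γ ≠ 0)
    (D : X → F) (hD : ∀ χ, D (bar χ) * D χ = γ ^ n) (H : Finset X)
    (hH : ∀ x, x ∈ H ↔ bar x ∉ H) (B : H → Matrix (Fin n) (Fin n) F)
    (hB : ∀ χ : H, (B χ).det = D χ) : ext n bar γ H B ∈ utup n bar γ D := by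
  have hD0 : ∀ χ, D χ ≠ 0 := by
    intro χ h0
    have h1 := hD χ
    rw [h0, mul_zero] at h1
    exact pow_ne_zero n hγ h1.symm
  intro χ
  by_cases h : χ ∈ H
  · have h' : bar χ ∉ H := (hH χ).1 h
    have h'' : bar (bar χ) ∈ H := by rw [hbb]; exact h
    have e1 : ext n bar γ H B χ = B ⟨χ, h⟩ := dif_pos h
    have e2 : ext n bar γ H B (bar χ) = γ • ((B ⟨χ, h⟩).transpose)⁻¹ := by
      unfold ext
      rw [dif_neg h', dif_pos h'']
      congr 3
      exact congrArg B (Subtype.ext (hbb χ))
    have hu : IsUnit ((B ⟨χ, h⟩).transpose).det := by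
      rw [Matrix.det_transpose, hB]
      exact isUnit_iff_ne_zero.2 (hD0 χ)
    refine ⟨?_, ?_⟩
    · rw [e1, e2, Matrix.smul_mul, Matrix.nonsing_inv_mul _ hu]
    · rw [e1, hB]
  · have h' : bar χ ∈ H := by
      by_contra h2
      exact h ((hH χ).2 h2)
    have e1 : ext n bar γ H B χ = γ • ((B ⟨bar χ, h'⟩).transpose)⁻¹ := by
      unfold ext
      rw [dif_neg h, dif_pos h']
    have e2 : ext n bar γ H B (bar χ) = B ⟨bar χ, h'⟩ := dif_pos h'
    have hu : IsUnit (B ⟨bar χ, h'⟩).det := by
      rw [hB]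
      exact isUnit_iff_ne_zero.2 (hD0 _)
    refine ⟨?_, ?_⟩
    · rw [e1, e2, Matrix.transpose_smul, Matrix.transpose_nonsing_inv, Matrix.transpose_transpose,
        Matrix.mul_smul, Matrix.mul_nonsing_inv _ hu]
    · rw [e1, Matrix.det_smul, Fintype.card_fin, Matrix.det_nonsing_inv, Matrix.det_transpose, hB,
        ← hD χ, Ring.inverse_eq_inv', mul_comm (D (bar χ)), mul_assoc,
        mul_inv_cancel₀ (hD0 _), mul_one]

/-- **The proportion of the unitary tuples with given characteristic polynomials.** -/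
theorem utup_card (n : ℕ) (hn : 0 < n) (bar : X → X) (hbb : ∀ x, bar (bar x) = x) (γ : F)
    (hγ : γ ≠ 0) (D : X → F) (hD : ∀ χ, D (bar χ) * D χ = γ ^ n) (H : Finset X)
    (hH : ∀ x, x ∈ H ↔ bar x ∉ H) (S : X → Finset F[X])
    (hS : ∀ χ, ∀ f ∈ S χ, f.Monic ∧ f.natDegree = n ∧ f.coeff 0 = (-1) ^ n * D χ) (C : ℕ)
    (hC : ∀ χ, Fintype.card F ^ (n - 1) ≤ C * (S χ).card) :
    (utup n bar γ D).ncard ≤ (2 * C) ^ H.card *
      {A | A ∈ utup n bar γ D ∧ ∀ χ ∈ H, (A χ).charpoly ∈ S χ}.ncard ∧
    0 < (utup n bar γ D).ncard := by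
  classical
  have hD0 : ∀ χ, D χ ≠ 0 := by
    intro χ h0
    have h1 := hD χ
    rw [h0, mul_zero] at h1
    exact pow_ne_zero n hγ h1.symm
  have hF2 : 2 ≤ Fintype.card F := Fintype.one_lt_card
  set T : X → Finset (Matrix (Fin n) (Fin n) F) := fun χ => Finset.univ.filter fun A =>
    A.det = D χ with hT
  set S' : X → Finset (Matrix (Fin n) (Fin n) F) := fun χ => Finset.univ.filter fun A =>
    A.det = D χ ∧ A.charpoly ∈ S χ with hS'
  have hTS : ∀ χ, (T χ).card ≤ (2 * C) * (S' χ).card := by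
    intro χ
    have h1 := card_det_charpoly n hn (D χ) (hD0 χ) (S χ) (hS χ)
    have e1 : {A : Matrix (Fin n) (Fin n) F | A.det = D χ}.ncard = (T χ).card := by
      rw [hT, ← Set.ncard_coe_finset]
      congr 1
      ext A
      simp
    have e2 : {A : Matrix (Fin n) (Fin n) F | A.det = D χ ∧ A.charpoly ∈ S χ}.ncard =
        (S' χ).card := by
      rw [hS', ← Set.ncard_coe_finset]
      congr 1
      ext A
      simp
    rw [e1, e2] at h1
    have hpos : 0 < (S χ).card * (Fintype.card F - 1) := by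
      have h2 := hC χ
      have h3 : 0 < Fintype.card F ^ (n - 1) := pow_pos (by omega) _
      have h4 : 0 < (S χ).card := by
        rcases Nat.eq_zero_or_pos (S χ).card with h5 | h5
        · rw [h5, mul_zero] at h2
          omega
        · exact h5
      exact Nat.mul_pos h4 (by omega)
    have h2 : Fintype.card F ^ n ≤ (2 * C) * ((S χ).card * (Fintype.card F - 1)) := by
      have h3 : Fintype.card F ^ n = Fintype.card F * Fintype.card F ^ (n - 1) := by
        rw [← pow_succ']
        congr 1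
        omega
      rw [h3]
      calc Fintype.card F * Fintype.card F ^ (n - 1)
          ≤ (2 * (Fintype.card F - 1)) * (C * (S χ).card) :=
            Nat.mul_le_mul (by omega) (hC χ)
        _ = _ := by ring
    have h3 : ((S χ).card * (Fintype.card F - 1)) * (T χ).card ≤
        ((S χ).card * (Fintype.card F - 1)) * ((2 * C) * (S' χ).card) := by
      refine h1.trans ((Nat.mul_le_mul_right _ h2).trans (le_of_eq ?_))
      ring
    exact Nat.le_of_mul_le_mul_left h3 hpos
  have hTpos : ∀ χ, 0 < (T χ).card := by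
    intro χ
    have : NeZero n := ⟨hn.ne'⟩
    refine Finset.card_pos.2 ⟨Matrix.diagonal (Function.update (1 : Fin n → F) 0 (D χ)), ?_⟩
    rw [hT, Finset.mem_filter]
    refine ⟨Finset.mem_univ _, ?_⟩
    rw [Matrix.det_diagonal, Finset.prod_update_of_mem (Finset.mem_univ _)]
    simp
  -- the upper bound
  have hup : (utup n bar γ D).ncard ≤ ∏ χ : H, (T χ).card := by
    rw [← Fintype.card_piFinset (fun χ : H => T χ), ← Set.ncard_coe_finset]
    refine Set.ncard_le_ncard_of_injOn (fun A (χ : H) => A χ) ?_ ?_ (Set.toFinite _)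
    · intro A hA
      rw [Finset.mem_coe, Fintype.mem_piFinset]
      intro χ
      rw [hT, Finset.mem_filter]
      exact ⟨Finset.mem_univ _, (hA χ).2⟩
    · intro A hA A' hA' hAA
      have h1 : ∀ χ ∈ H, A χ = A' χ := fun χ hχ => congrFun hAA ⟨χ, hχ⟩
      funext χ
      by_cases h : χ ∈ H
      · exact h1 χ h
      · have h' : bar χ ∈ H := by
          by_contra h2
          exact h ((hH χ).2 h2)
        have h2 := (hA (bar χ)).1
        have h3 := (hA' (bar χ)).1
        rw [hbb] at h2 h3
        rw [← h1 _ h'] at h3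
        have hu : IsUnit ((A (bar χ)).transpose).det := by
          rw [Matrix.det_transpose, (hA _).2]
          exact isUnit_iff_ne_zero.2 (hD0 _)
        calc A χ = A χ * ((A (bar χ)).transpose * ((A (bar χ)).transpose)⁻¹) := by
              rw [Matrix.mul_nonsing_inv _ hu, Matrix.mul_one]
          _ = A' χ * ((A (bar χ)).transpose * ((A (bar χ)).transpose)⁻¹) := by
              rw [← Matrix.mul_assoc, h2, ← h3, Matrix.mul_assoc]
          _ = A' χ := by rw [Matrix.mul_nonsing_inv _ hu, Matrix.mul_one]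
  -- the lower bounds
  have hlow : ∏ χ : H, (S' χ).card ≤
      {A | A ∈ utup n bar γ D ∧ ∀ χ ∈ H, (A χ).charpoly ∈ S χ}.ncard := by
    rw [← Fintype.card_piFinset (fun χ : H => S' χ), ← Set.ncard_coe_finset]
    refine Set.ncard_le_ncard_of_injOn (ext n bar γ H) ?_ ?_ (Set.toFinite _)
    · intro B hB
      rw [Finset.mem_coe, Fintype.mem_piFinset] at hB
      have hB' : ∀ χ : H, (B χ).det = D χ ∧ (B χ).charpoly ∈ S χ := by
        intro χ
        have h1 := hB χ
        rw [hS', Finset.mem_filter] at h1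
        exact h1.2
      refine ⟨ext_mem n bar hbb γ hγ D hD H hH B fun χ => (hB' χ).1, fun χ hχ => ?_⟩
      have e1 : ext n bar γ H B χ = B ⟨χ, hχ⟩ := dif_pos hχ
      rw [e1]
      exact (hB' ⟨χ, hχ⟩).2
    · intro B _ B' _ hBB
      funext χ
      have h1 := congrFun hBB χ
      have e1 : ext n bar γ H B χ = B χ := dif_pos χ.2
      have e2 : ext n bar γ H B' χ = B' χ := dif_pos χ.2
      rw [e1, e2] at h1
      exact h1
  have hlow2 : ∏ χ : H, (T χ).card ≤ (utup n bar γ D).ncard := by
    rw [← Fintype.card_piFinset (fun χ : H => T χ), ← Set.ncard_coe_finset]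
    refine Set.ncard_le_ncard_of_injOn (ext n bar γ H) ?_ ?_ (Set.toFinite _)
    · intro B hB
      rw [Finset.mem_coe, Fintype.mem_piFinset] at hB
      have hB' : ∀ χ : H, (B χ).det = D χ := by
        intro χ
        have h1 := hB χ
        rw [hT, Finset.mem_filter] at h1
        exact h1.2
      exact ext_mem n bar hbb γ hγ D hD H hH B hB'
    · intro B _ B' _ hBB
      funext χ
      have h1 := congrFun hBB χ
      have e1 : ext n bar γ H B χ = B χ := dif_pos χ.2
      have e2 : ext n bar γ H B' χ = B' χ := dif_pos χ.2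
      rw [e1, e2] at h1
      exact h1
  have hpp : 0 < ∏ χ : H, (T χ).card := Finset.prod_pos fun χ _ => hTpos χ
  refine ⟨?_, lt_of_lt_of_le hpp hlow2⟩
  calc (utup n bar γ D).ncard ≤ ∏ χ : H, (T χ).card := hup
    _ ≤ ∏ χ : H, ((2 * C) * (S' χ).card) := Finset.prod_le_prod' fun χ _ => hTS χ
    _ = (2 * C) ^ H.card * ∏ χ : H, (S' χ).card := by
      rw [Finset.prod_mul_distrib, Finset.prod_const, Finset.card_univ, Fintype.card_coe]
    _ ≤ _ := Nat.mul_le_mul_left _ hlow

end Pool.Agent.V8H88.UF
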