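import Pool.Agent.V8H88.UF.Pat
import Pool.Agent.V8H88.UF.Tup
import Pool.Agent.V8H88.UF.Cnt

/-!
# The proportions of the patterns
-/

set_option autoImplicit false
set_option linter.unusedSectionVars false

open Polynomial NumberField

namespace Pool.Agent.V8H88.UF

open Pool.Agent.W458.MF

section

variable (K : Type) [Field K] [NumberField K] [IsCMField K]

lemma cc_cc (x : 𝓞 K) : cc K (cc K x) = x := by
  apply RingOfIntegers.ext
  exact IsCMField.complexConj_apply_apply K (x : K)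

lemma comp_cc_cc {l : ℕ} (χ : 𝓞 K →+* ZMod l) : (χ.comp (cc K)).comp (cc K) = χ := by
  ext x
  simp only [RingHom.coe_comp, Function.comp_apply, cc_cc]

lemma unitarySimilitudes_eq (n l : ℕ) (γ : ZMod l) (D : 𝓞 K) :
    unitarySimilitudes K n l γ D =
      {A | ∀ χ : 𝓞 K →+* ZMod l, A (χ.comp (cc K)) * (A χ).transpose =
        γ • (1 : Matrix (Fin n) (Fin n) (ZMod l)) ∧ (A χ).det = χ D} := rfl

lemma uproportion_nonneg (n l q : ℕ) (D : 𝓞 K) (E : Set ((𝓞 K →+* ZMod l) → (ZMod l)[X])) :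
    0 ≤ uproportion K n l q D E := by
  unfold uproportion
  positivity

variable {K}

lemma finite_homs {l : ℕ} (h : SplitsCompletely K l) : Finite (𝓞 K →+* ZMod l) := by
  refine Nat.finite_of_card_ne_zero ?_
  rw [h]
  exact Module.finrank_pos.ne'

lemma uproportion_mono {n l q : ℕ} (hl : l.Prime) (hs : SplitsCompletely K l) {D : 𝓞 K}
    {E E' : Set ((𝓞 K →+* ZMod l) → (ZMod l)[X])} (h : E ⊆ E') :
    uproportion K n l q D E ≤ uproportion K n l q D E' := by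
  have : NeZero l := ⟨hl.ne_zero⟩
  have := finite_homs hs
  unfold uproportion
  refine div_le_div_of_nonneg_right ?_ (by positivity)
  refine Nat.cast_le.2 (Set.ncard_le_ncard ?_ (Set.toFinite _))
  rintro A ⟨hA, hA2⟩
  exact ⟨hA, h hA2⟩

lemma uproportion_le_one {n l q : ℕ} (hl : l.Prime) (hs : SplitsCompletely K l) {D : 𝓞 K}
    (E : Set ((𝓞 K →+* ZMod l) → (ZMod l)[X])) : uproportion K n l q D E ≤ 1 := by
  have : NeZero l := ⟨hl.ne_zero⟩
  have := finite_homs hs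
  unfold uproportion
  refine div_le_one_of_le₀ ?_ (by positivity)
  refine Nat.cast_le.2 (Set.ncard_le_ncard ?_ (Set.toFinite _))
  rintro A ⟨hA, -⟩
  exact hA

/-- The bound for one pattern. -/
lemma dens_aux {n l q : ℕ} (hn : 0 < n) (hl : l.Prime) (hs : SplitsCompletely K l)
    (hbar : ∀ χ : 𝓞 K →+* ZMod l, χ.comp (cc K) ≠ χ) (hlq : ¬ l ∣ q) (D : 𝓞 K)
    (hD : D * cc K D = (q : 𝓞 K) ^ n) (χ₀ : 𝓞 K →+* ZMod l)
    (S : (𝓞 K →+* ZMod l) → Finset (ZMod l)[X])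
    (hS : ∀ χ, ∀ f ∈ S χ, f.Monic ∧ f.natDegree = n ∧ f.coeff 0 = (-1) ^ n * χ D) (C : ℕ)
    (hC0 : 0 < C) (hC : ∀ χ, l ^ (n - 1) ≤ C * (S χ).card)
    (E : Set ((𝓞 K →+* ZMod l) → (ZMod l)[X]))
    (hE : ∀ (Q : (𝓞 K →+* ZMod l) → (ZMod l)[X]) (H : Set (𝓞 K →+* ZMod l)), χ₀ ∈ H →
      (∀ χ, χ ∈ H ↔ χ.comp (cc K) ∉ H) → (∀ χ ∈ H, Q χ ∈ S χ) → Q ∈ E) :
    1 / ((2 * C : ℕ) : ℝ) ^ Module.finrank ℚ K ≤ uproportion K n l q D E := by
  classical
  have : Fact l.Prime := ⟨hl⟩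
  have := finite_homs hs
  have : Fintype (𝓞 K →+* ZMod l) := Fintype.ofFinite _
  obtain ⟨H, hH0, hH⟩ := exists_half (fun χ : 𝓞 K →+* ZMod l => χ.comp (cc K))
    (fun χ => comp_cc_cc K χ) hbar χ₀
  have hγ : (q : ZMod l) ≠ 0 := by
    rw [Ne, ZMod.natCast_eq_zero_iff]
    exact hlq
  have hDD : ∀ χ : 𝓞 K →+* ZMod l, (χ.comp (cc K)) D * χ D = (q : ZMod l) ^ n := by
    intro χ
    rw [RingHom.comp_apply, ← map_mul, mul_comm, hD, map_pow, map_natCast]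
  obtain ⟨h1, h2⟩ := utup_card n hn (fun χ : 𝓞 K →+* ZMod l => χ.comp (cc K))
    (fun χ => comp_cc_cc K χ) (q : ZMod l) hγ (fun χ => χ D) hDD H hH S hS C
    (by rw [ZMod.card]; exact hC)
  have e : utup n (fun χ : 𝓞 K →+* ZMod l => χ.comp (cc K)) (q : ZMod l) (fun χ => χ D) =
      unitarySimilitudes K n l q D := rfl
  rw [e] at h1 h2
  have hle : {A | A ∈ unitarySimilitudes K n l q D ∧ ∀ χ ∈ H, (A χ).charpoly ∈ S χ}.ncard ≤
      {A | A ∈ unitarySimilitudes K n l q D ∧ (fun χ => (A χ).charpoly) ∈ E}.ncard := by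
    refine Set.ncard_le_ncard ?_ (Set.toFinite _)
    rintro A ⟨hA, hA2⟩
    exact ⟨hA, hE _ H hH0 hH hA2⟩
  have h3 : (unitarySimilitudes K n l q D).ncard ≤ (2 * C) ^ Module.finrank ℚ K *
      {A | A ∈ unitarySimilitudes K n l q D ∧ (fun χ => (A χ).charpoly) ∈ E}.ncard := by
    refine h1.trans (Nat.mul_le_mul (Nat.pow_le_pow_right (by omega) ?_) hle)
    rw [← hs, Nat.card_eq_fintype_card]
    exact Finset.card_le_univ H
  unfold uproportion
  rw [div_le_div_iff₀ (by positivity) (by exact_mod_cast h2), one_mul]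
  have h4 : ((unitarySimilitudes K n l q D).ncard : ℝ) ≤ ((2 * C : ℕ) : ℝ) ^ Module.finrank ℚ K *
      ({A | A ∈ unitarySimilitudes K n l q D ∧ (fun χ => (A χ).charpoly) ∈ E}.ncard : ℝ) := by
    exact_mod_cast h3
  rw [mul_comm] at h4
  exact h4

/-- **The patterns have positive proportions.** -/
theorem dens (n N : ℕ) (hn : 2 ≤ n) (hN : 0 < N) :
    ∃ c : ℝ, 0 < c ∧ ∃ l₁ : ℕ, ∀ l : ℕ, l.Prime → l₁ ≤ l → SplitsCompletely K l →
      (∀ χ : 𝓞 K →+* ZMod l, χ.comp (cc K) ≠ χ) → ∀ q : ℕ, ¬ l ∣ q → ∀ D : 𝓞 K,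
        D * cc K D = (q : 𝓞 K) ^ n → ∀ χ₀ : 𝓞 K →+* ZMod l,
          c ≤ uproportion K n l q D {Q | PatA K l χ₀ Q} ∧
          c ≤ uproportion K n l q D {Q | PatB K l χ₀ Q} ∧
          c ≤ uproportion K n l q D {Q | PatC K l N χ₀ Q} ∧
          c ≤ uproportion K n l q D {Q | Pass K l Q} := by
  classical
  set C : ℕ := 2 * n + 4 * (n * n) + 2 ^ (n - 1) * (2 * n ^ (n - 1)) with hC
  have hC0 : 0 < C := by
    have : 0 < 2 * n := by omega
    omega
  refine ⟨1 / ((2 * C : ℕ) : ℝ) ^ Module.finrank ℚ K, ?_,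
    2 * (n ^ 2 + 2 * n + 2 * N) + 2 * n + 9, ?_⟩
  · have : (0 : ℝ) < ((2 * C : ℕ) : ℝ) := by exact_mod_cast (by omega : 0 < 2 * C)
    positivity
  intro l hl hl1 hs hbar q hlq D hD χ₀
  have : Fact l.Prime := ⟨hl⟩
  have : NeZero n := ⟨by omega⟩
  have hχD : ∀ χ : 𝓞 K →+* ZMod l, χ D ≠ 0 := by
    intro χ h0
    have h1 : χ (D * cc K D) = (q : ZMod l) ^ n := by rw [hD, map_pow, map_natCast]
    rw [map_mul, h0, zero_mul] at h1
    have hγ : (q : ZMod l) ≠ 0 := by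
      rw [Ne, ZMod.natCast_eq_zero_iff]
      exact hlq
    exact pow_ne_zero n hγ h1.symm
  have ha : ∀ χ : 𝓞 K →+* ZMod l, (-1) ^ n * χ D ≠ 0 := fun χ =>
    mul_ne_zero (pow_ne_zero _ (neg_ne_zero.2 one_ne_zero)) (hχD χ)
  have hcu : Fintype.card (ZMod l)ˣ = l - 1 := ZMod.card_units l
  choose SA hSA hSAc using fun χ : 𝓞 K →+* ZMod l => card_irr l n _ (ha χ) (by omega)
  choose SB hSB hSBc using fun χ : 𝓞 K →+* ZMod l => card_patB l n hn _ (ha χ) (by omega)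
  choose SC hSC hSCc using fun χ : 𝓞 K →+* ZMod l => card_split (F := ZMod l) n N hn hN _ (ha χ)
    (by rw [hcu]; omega)
  have cA : ∀ χ, l ^ (n - 1) ≤ C * (SA χ).card := fun χ =>
    (hSAc χ).trans (Nat.mul_le_mul_right _ (by omega))
  have cB : ∀ χ, l ^ (n - 1) ≤ C * (SB χ).card := fun χ =>
    (hSBc χ).trans (Nat.mul_le_mul_right _ (by omega))
  have cC : ∀ χ, l ^ (n - 1) ≤ C * (SC χ).card := by
    intro χ
    have h1 := hSCc χ
    rw [hcu] at h1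
    calc l ^ (n - 1) ≤ (2 * (l - 1)) ^ (n - 1) := Nat.pow_le_pow_left (by omega) _
      _ = 2 ^ (n - 1) * (l - 1) ^ (n - 1) := mul_pow _ _ _
      _ ≤ 2 ^ (n - 1) * (2 * n ^ (n - 1) * (SC χ).card) := Nat.mul_le_mul_left _ h1
      _ = (2 ^ (n - 1) * (2 * n ^ (n - 1))) * (SC χ).card := by ring
      _ ≤ C * (SC χ).card := Nat.mul_le_mul_right _ (by omega)
  have hlin : ∀ χ, ∀ f ∈ SC χ, Lin f := fun χ f hf => (hSC χ f hf).2.2.2.1
  refine ⟨?_, ?_, ?_, ?_⟩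
  · refine dens_aux (by omega) hl hs hbar hlq D hD χ₀ (fun χ => if χ = χ₀ then SA χ else SC χ)
      (fun χ f hf => ?_) C hC0 (fun χ => ?_) _ ?_
    · split_ifs at hf
      · exact ⟨(hSA χ f hf).1, (hSA χ f hf).2.1, (hSA χ f hf).2.2.1⟩
      · exact ⟨(hSC χ f hf).1, (hSC χ f hf).2.1, (hSC χ f hf).2.2.1⟩
    · split_ifs
      · exact cA χ
      · exact cC χ
    · intro Q H hH0 hH hQ
      refine ⟨?_, ?_⟩
      · have h1 := hQ χ₀ hH0
        rw [if_pos rfl] at h1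
        exact (hSA χ₀ _ h1).2.2.2
      · intro χ h1 h2
        by_cases h3 : χ ∈ H
        · left
          have h4 := hQ χ h3
          rw [if_neg h1] at h4
          exact hlin χ _ h4
        · right
          have h3' : χ.comp (cc K) ∈ H := by
            by_contra h5
            exact h3 ((hH χ).2 h5)
          have h4 := hQ _ h3'
          rw [if_neg (by
            intro h5
            apply h2
            rw [← h5, comp_cc_cc])] at h4
          exact hlin _ _ h4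
  · refine dens_aux (by omega) hl hs hbar hlq D hD χ₀ (fun χ => if χ = χ₀ then SB χ else SC χ)
      (fun χ f hf => ?_) C hC0 (fun χ => ?_) _ ?_
    · split_ifs at hf
      · exact ⟨(hSB χ f hf).1, (hSB χ f hf).2.1, (hSB χ f hf).2.2.1⟩
      · exact ⟨(hSC χ f hf).1, (hSC χ f hf).2.1, (hSC χ f hf).2.2.1⟩
    · split_ifs
      · exact cB χ
      · exact cC χ
    · intro Q H hH0 _ hQ
      have h1 := hQ χ₀ hH0
      rw [if_pos rfl] at h1
      exact (hSB χ₀ _ h1).2.2.2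
  · refine dens_aux (by omega) hl hs hbar hlq D hD χ₀ SC
      (fun χ f hf => ⟨(hSC χ f hf).1, (hSC χ f hf).2.1, (hSC χ f hf).2.2.1⟩) C hC0 cC _ ?_
    intro Q H hH0 _ hQ
    exact (hSC χ₀ _ (hQ χ₀ hH0)).2.2.2.2
  · refine dens_aux (by omega) hl hs hbar hlq D hD χ₀ SC
      (fun χ f hf => ⟨(hSC χ f hf).1, (hSC χ f hf).2.1, (hSC χ f hf).2.2.1⟩) C hC0 cC _ ?_
    intro Q H _ hH hQ χ
    by_cases h3 : χ ∈ H
    · exact Or.inl (hlin χ _ (hQ χ h3))
    · right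
      have h3' : χ.comp (cc K) ∈ H := by
        by_contra h5
        exact h3 ((hH χ).2 h5)
      exact hlin _ _ (hQ _ h3')

end

end Pool.Agent.V8H88.UF
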