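import Mathlib

/-!
# Frobenius elements above a given homomorphism of the ring of integers of a subfield
-/

set_option autoImplicit false

namespace Pool.Agent.V8H88.UF

open Polynomial NumberField

/-- A Frobenius element of `L` at a prime above the kernel of a homomorphism `χ` from the ring of
integers of a subfield `K` to the field with `l` elements. -/
theorem exists_frob_over (L : Type) [Field L] [NumberField L] [IsGalois ℚ L] (K : Type) [Field K]
    [NumberField K] (e : K →+* L) (l : ℕ) (hl : l.Prime) (χ : 𝓞 K →+* ZMod l) :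
    ∃ (k : Type) (_ : Field k) (_ : Finite k) (_ : CharP k l) (ρ : 𝓞 L →+* k) (σ : Gal(L/ℚ)),
      (∀ x : 𝓞 L, ρ (σ • x) = ρ x ^ l) ∧
      ∀ x : 𝓞 K, ρ (RingOfIntegers.mapRingHom e x) = ZMod.castHom (dvd_refl l) k (χ x) := by
  classical
  have : Fact l.Prime := ⟨hl⟩
  let _ : Algebra K L := e.toAlgebra
  have hχs : Function.Surjective χ := by
    intro y
    refine ⟨((y.val : ℕ) : 𝓞 K), ?_⟩
    rw [map_natCast, ZMod.natCast_val, ZMod.cast_id]
  have hPmax : (RingHom.ker χ).IsMaximal := RingHom.ker_isMaximal_of_surjective χ hχs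
  obtain ⟨Q, hQ, hQl⟩ := Ideal.exists_maximal_ideal_liesOver_of_isIntegral (S := 𝓞 L)
    (RingHom.ker χ)
  have hover : ∀ x : 𝓞 K, χ x = 0 → algebraMap (𝓞 K) (𝓞 L) x ∈ Q := by
    intro x hx
    have h1 : x ∈ RingHom.ker χ := hx
    rw [hQl.over] at h1
    exact h1
  have hmem : ((l : ℕ) : 𝓞 L) ∈ Q := by
    have h1 := hover (l : 𝓞 K) (by rw [map_natCast, ZMod.natCast_self])
    rwa [map_natCast] at h1
  have hchar : CharP (𝓞 L ⧸ Q) l := by
    rw [CharP.charP_iff_prime_eq_zero hl, ← map_natCast (Ideal.Quotient.mk Q),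
      Ideal.Quotient.eq_zero_iff_mem]
    exact hmem
  have hQ0 : Q ≠ ⊥ := by
    rintro rfl
    rw [Ideal.mem_bot] at hmem
    exact hl.ne_zero (by exact_mod_cast hmem)
  have hfin : Finite (𝓞 L ⧸ Q) := Ring.HasFiniteQuotients.finiteQuotient hQ0
  have hunder : Q.under ℤ = Ideal.span {(l : ℤ)} := by
    have hmax : (Ideal.span {(l : ℤ)}).IsMaximal := by
      apply PrincipalIdealRing.isMaximal_of_irreducible
      exact (Nat.prime_iff_prime_int.1 hl).irreducible
    refine (hmax.eq_of_le ?_ ?_).symm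
    · exact (inferInstance : (Q.under ℤ).IsPrime).ne_top
    · rw [Ideal.span_singleton_le_iff_mem, Ideal.under_def, Ideal.mem_comap]
      simpa using hmem
  obtain ⟨σ, hσ⟩ := IsArithFrobAt.exists_of_isInvariant ℤ Gal(L/ℚ) Q
  refine ⟨𝓞 L ⧸ Q, Ideal.Quotient.field Q, hfin, hchar, Ideal.Quotient.mk Q, σ, fun x => ?_,
    fun x => ?_⟩
  · have h1 := hσ x
    rw [← Ideal.Quotient.eq, map_pow] at h1
    rw [hunder] at h1
    have h2 : Nat.card (ℤ ⧸ Ideal.span {(l : ℤ)}) = l := by
      rw [Int.card_ideal_quot]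
    rw [h2] at h1
    exact h1
  · have h1 : algebraMap (𝓞 K) (𝓞 L) x = RingOfIntegers.mapRingHom e x := by
      apply RingOfIntegers.ext
      rfl
    have h2 := hover (x - (((χ x).val : ℕ) : 𝓞 K)) (by
      rw [map_sub, map_natCast, ZMod.natCast_val, ZMod.cast_id, sub_self])
    rw [map_sub, map_natCast, h1, ← Ideal.Quotient.eq, map_natCast] at h2
    rw [h2, ZMod.castHom_apply, ZMod.natCast_val]

end Pool.Agent.V8H88.UF
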