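import Pool.Agent.V8H88.UF.Defs
import Pool.Agent.V8H88.UF.Act
import Pool.Agent.V8H88.UF.Frob
import Pool.Agent.V8H88.UF.Abs
import Pool.Agent.W338.MF.NT

/-!
# The field which contains all roots
-/

set_option autoImplicit false
set_option linter.unusedSectionVars false

open Polynomial NumberField

namespace Pool.Agent.V8H88.UF

open Pool.Agent.W521.Frob Pool.Agent.W338.MF

/-- A homomorphism whose image is contained in the image of another one. -/
theorem exists_lift_hom {K L A : Type} [Field K] [Field L] [Field A] (f : K →+* A) (j : L →+* A)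
    (h : ∀ x, ∃ y, j y = f x) : ∃ e : K →+* L, j.comp e = f := by
  choose c hc using h
  refine ⟨{ toFun := c, map_one' := ?_, map_mul' := ?_, map_zero' := ?_, map_add' := ?_ }, ?_⟩
  · apply j.injective
    rw [hc, map_one, map_one]
  · intro x y
    apply j.injective
    rw [hc, map_mul, map_mul, hc, hc]
  · apply j.injective
    rw [hc, map_zero, map_zero]
  · intro x y
    apply j.injective
    rw [hc, map_add, map_add, hc, hc]
  · ext x
    exact hc x

/-- Embeddings of `K` have values in a field which contains the conjugates of the generator. -/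
theorem IsGen.exists_emb {K : Type} [Field K] [NumberField K] {θ : 𝓞 K} {N : ℕ}
    (hθ : IsGen K θ N) {L : Type} [Field L] (j : L →+* ℂ)
    (hj : ∀ z : ℂ, aeval z (minpoly ℤ θ) = 0 → ∃ x : L, j x = z) (φ : K →+* ℂ) :
    ∃ e : K →+* L, j.comp e = φ := by
  have h0 : aeval (φ θ) (minpoly ℤ θ) = 0 := by
    have h1 := minpoly.aeval ℤ θ
    have h2 := congrArg (emb φ) h1
    rw [map_zero] at h2
    have e : aeval θ (minpoly ℤ θ) = eval₂ (Int.castRingHom (𝓞 K)) θ (minpoly ℤ θ) := rfl
    rw [e, hom_eval₂] at h2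
    have e2 : aeval (φ θ) (minpoly ℤ θ) = eval₂ (Int.castRingHom ℂ) (φ θ) (minpoly ℤ θ) := rfl
    rw [e2, ← h2]
    congr 1
    exact RingHom.ext_int _ _
  obtain ⟨t, ht⟩ := hj _ h0
  have hint : ∀ x : 𝓞 K, φ x ∈ j.fieldRange := by
    intro x
    obtain ⟨P, hP⟩ := hθ.mem x
    have h1 := congrArg (emb φ) hP
    rw [map_mul, map_natCast] at h1
    have h2 : emb φ (aeval θ P) = j (eval₂ (Int.castRingHom L) t P) := by
      have e : aeval θ P = eval₂ (Int.castRingHom (𝓞 K)) θ P := rfl
      rw [e, hom_eval₂, hom_eval₂, ht]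
      congr 1
      exact RingHom.ext_int _ _
    have hN : (N : ℂ) ≠ 0 := Nat.cast_ne_zero.2 hθ.pos.ne'
    have h3 : φ x = (N : ℂ)⁻¹ * j (eval₂ (Int.castRingHom L) t P) := by
      rw [← h2, ← h1, inv_mul_cancel_left₀ hN]
      rfl
    rw [h3]
    exact mul_mem (inv_mem (natCast_mem _ N)) (RingHom.mem_fieldRange_self j _)
  refine exists_lift_hom φ j fun x => ?_
  obtain ⟨a, b, hb, rfl⟩ := IsFractionRing.div_surjective (𝓞 K) x
  rw [map_div₀]
  exact RingHom.mem_fieldRange.1 (div_mem (hint a) (hint b))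

/-- The degree of a quotient. -/
theorem exists_quotient_poly (x y : ℂ) (P : ℚ[X]) (hP : P ≠ 0) (hx : aeval x P = 0)
    (hy : aeval y P = 0) :
    ∃ Q : ℚ[X], Q ≠ 0 ∧ Q.natDegree ≤ P.natDegree * P.natDegree ∧ aeval (x / y) Q = 0 := by
  have hxi : IsIntegral ℚ x := (isAlgebraic_iff_isIntegral.1 ⟨P, hP, hx⟩)
  have hyi : IsIntegral ℚ y := (isAlgebraic_iff_isIntegral.1 ⟨P, hP, hy⟩)
  have hdx : Module.finrank ℚ (IntermediateField.adjoin ℚ {x}) ≤ P.natDegree := by
    rw [IntermediateField.adjoin.finrank hxi]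
    exact natDegree_le_of_dvd (minpoly.dvd ℚ x hx) hP
  have hdy : Module.finrank ℚ (IntermediateField.adjoin ℚ {y}) ≤ P.natDegree := by
    rw [IntermediateField.adjoin.finrank hyi]
    exact natDegree_le_of_dvd (minpoly.dvd ℚ y hy) hP
  have : FiniteDimensional ℚ (IntermediateField.adjoin ℚ {x}) :=
    IntermediateField.adjoin.finiteDimensional hxi
  have : FiniteDimensional ℚ (IntermediateField.adjoin ℚ {y}) :=
    IntermediateField.adjoin.finiteDimensional hyi
  set E : IntermediateField ℚ ℂ := IntermediateField.adjoin ℚ {x} ⊔ IntermediateField.adjoin ℚ {y}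
    with hE
  have hxE : x ∈ E := (le_sup_left : IntermediateField.adjoin ℚ {x} ≤ E)
    (IntermediateField.mem_adjoin_simple_self ℚ x)
  have hyE : y ∈ E := (le_sup_right : IntermediateField.adjoin ℚ {y} ≤ E)
    (IntermediateField.mem_adjoin_simple_self ℚ y)
  have hxy : x / y ∈ E := div_mem hxE hyE
  have hfin : FiniteDimensional ℚ E := IntermediateField.finiteDimensional_sup _ _
  have hzi : IsIntegral ℚ (x / y) := by
    have h1 : IsIntegral ℚ (⟨x / y, hxy⟩ : E) := Algebra.IsIntegral.isIntegral _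
    exact h1.map E.val
  refine ⟨minpoly ℚ (x / y), minpoly.ne_zero hzi, ?_, minpoly.aeval _ _⟩
  rw [← IntermediateField.adjoin.finrank hzi]
  have hle : IntermediateField.adjoin ℚ {x / y} ≤ E := by
    rw [IntermediateField.adjoin_simple_le_iff]
    exact hxy
  calc Module.finrank ℚ (IntermediateField.adjoin ℚ {x / y}) ≤ Module.finrank ℚ E :=
        IntermediateField.finrank_le_of_le_right hle
    _ ≤ Module.finrank ℚ (IntermediateField.adjoin ℚ {x}) *
        Module.finrank ℚ (IntermediateField.adjoin ℚ {y}) := IntermediateField.finrank_sup_le _ _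
    _ ≤ P.natDegree * P.natDegree := Nat.mul_le_mul hdx hdy

section CM

variable {K : Type} [Field K] [NumberField K] [IsCMField K]

lemma emb_cc (φ : K →+* ℂ) : (emb φ).comp (cc K) = emb (ComplexEmbedding.conjugate φ) := by
  ext x
  exact IsCMField.complexEmbedding_complexConj K φ x

lemma conjugate_ne (φ : K →+* ℂ) : ComplexEmbedding.conjugate φ ≠ φ := by
  intro h
  have h1 : ComplexEmbedding.IsReal φ := h
  have h2 := (InfinitePlace.isReal_mk_iff).2 h1
  exact InfinitePlace.not_isReal_iff_isComplex.2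
    (IsTotallyComplex.isComplex (InfinitePlace.mk φ)) h2

end CM

end Pool.Agent.V8H88.UF
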