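import Mathlib

/-!
# Matrices over a finite field with given determinant and characteristic polynomial
-/

set_option autoImplicit false
set_option linter.unusedSectionVars false

open Polynomial

namespace Pool.Agent.V8H88.UF

variable {F : Type} [Field F] [Fintype F]

/-- A matrix with given characteristic polynomial and a cyclic vector. -/
theorem exists_cyclic (n : ℕ) (f : F[X]) (hf : f.Monic) (hn : f.natDegree = n) :
    ∃ (M : Matrix (Fin n) (Fin n) F) (w : Fin n → F), M.charpoly = f ∧
      ∀ k k' : Matrix (Fin n) (Fin n) F, k * M = M * k → k' * M = M * k' →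
        k.mulVec w = k'.mulVec w → k = k' := by
  classical
  subst hn
  set pb := AdjoinRoot.powerBasis hf.ne_zero with hpb
  have hdim : pb.dim = f.natDegree := AdjoinRoot.powerBasis_dim hf.ne_zero
  have hgen : pb.gen = AdjoinRoot.root f := AdjoinRoot.powerBasis_gen hf.ne_zero
  set b : Module.Basis (Fin f.natDegree) F (AdjoinRoot f) := pb.basis.reindex (finCongr hdim)
    with hb
  set T : AdjoinRoot f →ₗ[F] AdjoinRoot f := Algebra.lmul F (AdjoinRoot f) (AdjoinRoot.root f)
    with hT
  have hcp : (LinearMap.toMatrix b b T).charpoly = f := by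
    have : Module.Finite F (AdjoinRoot f) := Module.Finite.of_basis b
    rw [LinearMap.charpoly_toMatrix, ← LinearMap.charpoly_toMatrix T pb.basis]
    have h1 : LinearMap.toMatrix pb.basis pb.basis T = Algebra.leftMulMatrix pb.basis pb.gen := by
      rw [hgen]
      rfl
    rw [h1, charpoly_leftMulMatrix, hgen, AdjoinRoot.minpoly_root hf.ne_zero, hf.leadingCoeff,
      inv_one, C_1, mul_one]
  refine ⟨LinearMap.toMatrix b b T, b.repr 1, hcp, ?_⟩
  have key : ∀ k : Matrix (Fin f.natDegree) (Fin f.natDegree) F,
      k * LinearMap.toMatrix b b T = LinearMap.toMatrix b b T * k →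
      ∀ v : AdjoinRoot f, Matrix.toLin b b k v = v * Matrix.toLin b b k 1 := by
    intro k hk
    have h1 : ∀ x, Matrix.toLin b b k (AdjoinRoot.root f * x) =
        AdjoinRoot.root f * Matrix.toLin b b k x := by
      have h2 := congrArg (Matrix.toLin b b) hk
      rw [Matrix.toLin_mul b b b, Matrix.toLin_mul b b b, Matrix.toLin_toMatrix] at h2
      intro x
      exact LinearMap.congr_fun h2 x
    intro v
    induction v using AdjoinRoot.induction_on with
    | ih p =>
      induction p using Polynomial.induction_on' with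
      | add p q hp hq => rw [map_add, map_add, hp, hq, add_mul]
      | monomial n a =>
        have h3 : ∀ n : ℕ, ∀ x, Matrix.toLin b b k (AdjoinRoot.root f ^ n * x) =
            AdjoinRoot.root f ^ n * Matrix.toLin b b k x := by
          intro n
          induction n with
          | zero => intro x; rw [pow_zero, one_mul, one_mul]
          | succ n ih =>
            intro x
            rw [pow_succ', mul_assoc, h1, ih, ← mul_assoc]
        have h4 : AdjoinRoot.mk f (monomial n a) = a • (AdjoinRoot.root f ^ n * 1) := by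
          rw [mul_one, ← C_mul_X_pow_eq_monomial, map_mul, map_pow, AdjoinRoot.mk_X,
            Algebra.smul_def]
          rfl
        rw [h4, map_smul, h3, smul_mul_assoc, mul_one]
  intro k k' hk hk' hw
  have h1 : Matrix.toLin b b k 1 = Matrix.toLin b b k' 1 := by
    rw [Matrix.toLin_apply, Matrix.toLin_apply, hw]
  have h2 : Matrix.toLin b b k = Matrix.toLin b b k' := by
    ext1 v
    rw [key k hk v, key k' hk' v, h1]
  exact (Matrix.toLin b b).injective h2

/-- The number of matrices with given characteristic polynomial. -/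
theorem card_charpoly (n : ℕ) (f : F[X]) (hf : f.Monic) (hn : f.natDegree = n) :
    {A : Matrix (Fin n) (Fin n) F | A.det ≠ 0}.ncard ≤
      Fintype.card F ^ n * {A : Matrix (Fin n) (Fin n) F | A.charpoly = f}.ncard := by
  classical
  obtain ⟨M, w, hM, hinj⟩ := exists_cyclic n f hf hn
  have e1 : {A : Matrix (Fin n) (Fin n) F | A.det ≠ 0}.ncard =
      (Finset.univ.filter fun A : Matrix (Fin n) (Fin n) F => A.det ≠ 0).card := by
    rw [← Set.ncard_coe_finset]
    congr 1
    ext A
    simp
  have e2 : {A : Matrix (Fin n) (Fin n) F | A.charpoly = f}.ncard =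
      (Finset.univ.filter fun A : Matrix (Fin n) (Fin n) F => A.charpoly = f).card := by
    rw [← Set.ncard_coe_finset]
    congr 1
    ext A
    simp
  rw [e1, e2]
  refine Finset.card_le_mul_card_image_of_maps_to (f := fun A => A * M * A⁻¹) ?_ _ ?_
  · intro A hA
    rw [Finset.mem_filter] at hA ⊢
    refine ⟨Finset.mem_univ _, ?_⟩
    have hu : IsUnit A.det := isUnit_iff_ne_zero.2 hA.2
    have h1 : (A * M * A⁻¹).charpoly = M.charpoly := by
      exact Matrix.charpoly_units_conj ((Matrix.isUnit_iff_isUnit_det A).2 hu).unit M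
    rw [h1, hM]
  · intro B _
    have hle : ((Finset.univ.filter fun A : Matrix (Fin n) (Fin n) F => A.det ≠ 0).filter
        fun A => A * M * A⁻¹ = B).card ≤ (Finset.univ : Finset (Fin n → F)).card := by
      refine Finset.card_le_card_of_injOn (fun A => A.mulVec w) (fun _ _ => Finset.mem_univ _) ?_
      intro A hA A' hA' hAA
      simp only [Finset.coe_filter, Finset.mem_filter, Finset.mem_univ, true_and,
        Set.mem_ofPred_eq] at hA hA'
      have hu : IsUnit A.det := isUnit_iff_ne_zero.2 hA.1
      have hu' : IsUnit A'.det := isUnit_iff_ne_zero.2 hA'.1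
      have h1 : A * M * A⁻¹ = A' * M * A'⁻¹ := hA.2.trans hA'.2.symm
      have h2 : (A'⁻¹ * A) * M = M * (A'⁻¹ * A) := by
        calc (A'⁻¹ * A) * M = A'⁻¹ * (A * M * A⁻¹) * A := by
              rw [Matrix.mul_assoc, Matrix.mul_assoc, Matrix.mul_assoc (A * M),
                Matrix.nonsing_inv_mul _ hu, Matrix.mul_one]
          _ = A'⁻¹ * (A' * M * A'⁻¹) * A := by rw [h1]
          _ = M * (A'⁻¹ * A) := by
              rw [← Matrix.mul_assoc, ← Matrix.mul_assoc, Matrix.nonsing_inv_mul _ hu',
                Matrix.one_mul, Matrix.mul_assoc]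
      have h3 : (A'⁻¹ * A).mulVec w = (1 : Matrix (Fin n) (Fin n) F).mulVec w := by
        rw [← Matrix.mulVec_mulVec]
        have h4 : A.mulVec w = A'.mulVec w := hAA
        rw [h4, Matrix.mulVec_mulVec, Matrix.nonsing_inv_mul _ hu']
      have h4 := hinj _ 1 h2 (by rw [Matrix.one_mul, Matrix.mul_one]) h3
      calc A = A' * (A'⁻¹ * A) := by
            rw [← Matrix.mul_assoc, Matrix.mul_nonsing_inv _ hu', Matrix.one_mul]
        _ = A' := by rw [h4, Matrix.mul_one]
    refine hle.trans ?_
    rw [Finset.card_univ, Fintype.card_fun, Fintype.card_fin]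

/-- The number of matrices with given determinant. -/
theorem card_det (n : ℕ) (hn : 0 < n) (D : F) (hD : D ≠ 0) :
    {A : Matrix (Fin n) (Fin n) F | A.det ≠ 0}.ncard =
      (Fintype.card F - 1) * {A : Matrix (Fin n) (Fin n) F | A.det = D}.ncard := by
  classical
  have : NeZero n := ⟨hn.ne'⟩
  have hdet : ∀ c : F, (Matrix.diagonal (Function.update (1 : Fin n → F) 0 c)).det = c := by
    intro c
    rw [Matrix.det_diagonal, Finset.prod_update_of_mem (Finset.mem_univ _)]
    simp
  have e1 : {A : Matrix (Fin n) (Fin n) F | A.det ≠ 0}.ncard =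
      (Finset.univ.filter fun A : Matrix (Fin n) (Fin n) F => A.det ≠ 0).card := by
    rw [← Set.ncard_coe_finset]
    congr 1
    ext A
    simp
  have e2 : {A : Matrix (Fin n) (Fin n) F | A.det = D}.ncard =
      (Finset.univ.filter fun A : Matrix (Fin n) (Fin n) F => A.det = D).card := by
    rw [← Set.ncard_coe_finset]
    congr 1
    ext A
    simp
  rw [e1, e2]
  have e3 : Fintype.card F - 1 = ((Finset.univ : Finset F).erase 0).card := by
    rw [Finset.card_erase_of_mem (Finset.mem_univ _), Finset.card_univ]
  rw [e3, Finset.card_eq_sum_card_fiberwise (f := fun A => A.det) (t := Finset.univ.erase 0)]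
  · rw [Finset.sum_const_nat (m := (Finset.univ.filter fun A : Matrix (Fin n) (Fin n) F =>
      A.det = D).card)]
    intro c hc
    have hc0 : c ≠ 0 := Finset.ne_of_mem_erase hc
    set U : Matrix (Fin n) (Fin n) F := Matrix.diagonal (Function.update (1 : Fin n → F) 0 (D / c))
      with hU
    have hUd : U.det = D / c := hdet _
    have hUu : IsUnit U.det := by
      rw [hUd]
      exact isUnit_iff_ne_zero.2 (div_ne_zero hD hc0)
    refine Finset.card_bij (fun A _ => U * A) ?_ ?_ ?_
    · intro A hA
      rw [Finset.mem_filter, Finset.mem_filter] at hA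
      rw [Finset.mem_filter]
      refine ⟨Finset.mem_univ _, ?_⟩
      rw [Matrix.det_mul, hUd, hA.2, div_mul_cancel₀ _ hc0]
    · intro A _ A' _ h
      have h1 := congrArg (fun B => U⁻¹ * B) h
      simp only [← Matrix.mul_assoc, Matrix.nonsing_inv_mul _ hUu, Matrix.one_mul] at h1
      exact h1
    · intro B hB
      rw [Finset.mem_filter] at hB
      refine ⟨U⁻¹ * B, ?_, ?_⟩
      · have h1 : (U⁻¹ * B).det = c := by
          rw [Matrix.det_mul, Matrix.det_nonsing_inv, hUd, hB.2, Ring.inverse_eq_inv']
          field_simp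
        rw [Finset.mem_filter, Finset.mem_filter]
        refine ⟨⟨Finset.mem_univ _, ?_⟩, h1⟩
        rw [h1]
        exact hc0
      · rw [← Matrix.mul_assoc, Matrix.mul_nonsing_inv _ hUu, Matrix.one_mul]
  · intro A hA
    simp only [Finset.coe_filter, Finset.mem_univ, true_and, Set.mem_ofPred_eq] at hA
    simp only [Finset.coe_erase, Finset.coe_univ, Set.mem_sdiff, Set.mem_univ, true_and,
      Set.mem_singleton_iff]
    exact hA

/-- **The proportion of the matrices with characteristic polynomial in `S` among the matrices with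
determinant `D`.** -/
theorem card_det_charpoly (n : ℕ) (hn : 0 < n) (D : F) (hD : D ≠ 0) (S : Finset F[X])
    (hS : ∀ f ∈ S, f.Monic ∧ f.natDegree = n ∧ f.coeff 0 = (-1) ^ n * D) :
    (S.card * (Fintype.card F - 1)) * {A : Matrix (Fin n) (Fin n) F | A.det = D}.ncard ≤
      Fintype.card F ^ n *
        {A : Matrix (Fin n) (Fin n) F | A.det = D ∧ A.charpoly ∈ S}.ncard := by
  classical
  have h1 : {A : Matrix (Fin n) (Fin n) F | A.det = D ∧ A.charpoly ∈ S}.ncard =
      ∑ f ∈ S, {A : Matrix (Fin n) (Fin n) F | A.charpoly = f}.ncard := by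
    have e1 : {A : Matrix (Fin n) (Fin n) F | A.det = D ∧ A.charpoly ∈ S}.ncard =
        (Finset.univ.filter fun A : Matrix (Fin n) (Fin n) F => A.charpoly ∈ S).card := by
      rw [← Set.ncard_coe_finset]
      congr 1
      ext A
      simp only [Set.mem_ofPred_eq, Finset.coe_filter, Finset.mem_univ, true_and]
      refine ⟨fun h => h.2, fun h => ⟨?_, h⟩⟩
      have h2 := (hS _ h).2.2
      rw [Matrix.det_eq_sign_charpoly_coeff, h2, Fintype.card_fin, ← mul_assoc, ← mul_pow,
        neg_one_mul, neg_neg, one_pow, one_mul]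
    rw [e1, Finset.card_eq_sum_card_fiberwise (f := fun A => A.charpoly) (t := S)]
    · refine Finset.sum_congr rfl fun f hf => ?_
      rw [← Set.ncard_coe_finset]
      congr 1
      ext A
      simp only [Finset.coe_filter, Finset.mem_filter, Finset.mem_univ, true_and,
        Set.mem_ofPred_eq]
      exact ⟨fun h => h.2, fun h => ⟨h ▸ hf, h⟩⟩
    · intro A hA
      simpa using hA
  rw [h1, Finset.mul_sum]
  calc (S.card * (Fintype.card F - 1)) * {A : Matrix (Fin n) (Fin n) F | A.det = D}.ncard
      = ∑ _f ∈ S, {A : Matrix (Fin n) (Fin n) F | A.det ≠ 0}.ncard := by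
        rw [Finset.sum_const, smul_eq_mul, card_det n hn D hD, mul_assoc]
    _ ≤ ∑ f ∈ S, Fintype.card F ^ n *
        {A : Matrix (Fin n) (Fin n) F | A.charpoly = f}.ncard :=
        Finset.sum_le_sum fun f hf => card_charpoly n f (hS f hf).1 (hS f hf).2.1

end Pool.Agent.V8H88.UF
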