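import Mathlib

/-!
# The number of irreducible polynomials over a finite field with given constant term
-/

set_option autoImplicit false
set_option linter.unusedSectionVars false

open Polynomial

namespace Pool.Agent.V8H88.UF

section Norm

variable (l : ℕ) [hl : Fact l.Prime] (n : ℕ)

noncomputable local instance fintypeGF [NeZero n] : Fintype (GaloisField l n) := Fintype.ofFinite _

/-- The number of elements of given norm. -/
theorem card_norm [NeZero n] (b : ZMod l) (hb : b ≠ 0) :
    l ^ (n - 1) ≤
      {x : GaloisField l n | Algebra.norm (ZMod l) x = b}.ncard := by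
  classical
  set E := GaloisField l n with hE
  have hn : n ≠ 0 := NeZero.ne n
  have hcard : Fintype.card E = l ^ n := by
    rw [← Nat.card_eq_fintype_card]
    exact GaloisField.card l n hn
  have e : ∀ c : ZMod l, {x : E | Algebra.norm (ZMod l) x = c}.ncard =
      (Finset.univ.filter fun x : E => Algebra.norm (ZMod l) x = c).card := by
    intro c
    rw [← Set.ncard_coe_finset]
    congr 1
    ext A
    simp
  rw [e]
  have hsum : ((Finset.univ : Finset E).erase 0).card =
      ∑ c ∈ (Finset.univ : Finset (ZMod l)).erase 0,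
        (((Finset.univ : Finset E).erase 0).filter fun x : E => Algebra.norm (ZMod l) x = c).card :=
    Finset.card_eq_sum_card_fiberwise fun x hx => by
      simp only [Finset.coe_erase, Finset.coe_univ, Set.mem_sdiff, Set.mem_univ, true_and,
        Set.mem_singleton_iff] at hx ⊢
      exact (Algebra.norm_ne_zero_iff).2 hx
  have hfib : ∀ c ∈ (Finset.univ : Finset (ZMod l)).erase 0,
      (((Finset.univ : Finset E).erase 0).filter fun x : E => Algebra.norm (ZMod l) x = c).card =
        (Finset.univ.filter fun x : E => Algebra.norm (ZMod l) x = b).card := by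
    intro c hc
    have hc0 : c ≠ 0 := Finset.ne_of_mem_erase hc
    obtain ⟨y, hy⟩ := FiniteField.norm_surjective (ZMod l) E (b / c)
    have hy0 : y ≠ 0 := by
      rintro rfl
      rw [Algebra.norm_zero] at hy
      exact (div_ne_zero hb hc0) hy.symm
    refine Finset.card_bij (fun x _ => y * x) ?_ ?_ ?_
    · intro x hx
      rw [Finset.mem_filter] at hx ⊢
      refine ⟨Finset.mem_univ _, ?_⟩
      rw [map_mul, hy, hx.2, div_mul_cancel₀ _ hc0]
    · intro x _ x' _ h
      exact mul_left_cancel₀ hy0 h
    · intro z hz
      rw [Finset.mem_filter] at hz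
      refine ⟨y⁻¹ * z, ?_, mul_inv_cancel_left₀ hy0 z⟩
      have h1 : Algebra.norm (ZMod l) (y⁻¹ * z) = c := by
        have h0 : Algebra.norm (ZMod l) y * Algebra.norm (ZMod l) (y⁻¹ * z) = b := by
          rw [← map_mul, mul_inv_cancel_left₀ hy0, hz.2]
        rw [hy] at h0
        have h2 : b * Algebra.norm (ZMod l) (y⁻¹ * z) = b * c := by
          rw [← mul_div_right_comm, div_eq_iff hc0] at h0
          exact h0
        exact mul_left_cancel₀ hb h2
      rw [Finset.mem_filter, Finset.mem_erase]
      refine ⟨⟨?_, Finset.mem_univ _⟩, h1⟩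
      intro h0
      rw [h0, Algebra.norm_zero] at h1
      exact hc0 h1.symm
  rw [Finset.sum_congr rfl hfib, Finset.sum_const, smul_eq_mul,
    Finset.card_erase_of_mem (Finset.mem_univ _), Finset.card_erase_of_mem (Finset.mem_univ _),
    Finset.card_univ, Finset.card_univ, hcard, ZMod.card] at hsum
  have hl2 : 2 ≤ l := hl.out.two_le
  obtain ⟨r, hr⟩ := Nat.exists_eq_succ_of_ne_zero hn
  have h1 : (l - 1) * l ^ (n - 1) ≤ l ^ n - 1 := by
    rw [hr, Nat.succ_eq_add_one, Nat.add_sub_cancel, pow_succ', Nat.sub_mul, one_mul]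
    have h2 : 1 ≤ l ^ r := Nat.one_le_pow _ _ (by omega)
    omega
  rw [hsum] at h1
  exact Nat.le_of_mul_le_mul_left h1 (by omega)

/-- Elements which do not generate the field. -/
theorem card_nongen [NeZero n] (b : ZMod l) (hl2 : 2 * n + 4 ≤ l) :
    2 * {x : GaloisField l n | Algebra.norm (ZMod l) x = b ∧
      (minpoly (ZMod l) x).natDegree ≠ n}.ncard ≤ l ^ (n - 1) := by
  classical
  set E := GaloisField l n with hE
  have hn : n ≠ 0 := NeZero.ne n
  have hrank : Module.finrank (ZMod l) E = n := GaloisField.finrank l hn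
  have hdeg : ∀ x : E, ∃ e, (minpoly (ZMod l) x).natDegree * e = n := by
    intro x
    have h1 : IsIntegral (ZMod l) x := Algebra.IsIntegral.isIntegral x
    refine ⟨Module.finrank (IntermediateField.adjoin (ZMod l) {x}) E, ?_⟩
    rw [← IntermediateField.adjoin.finrank h1, Module.finrank_mul_finrank, hrank]
  have hpos : ∀ x : E, 0 < (minpoly (ZMod l) x).natDegree := fun x =>
    minpoly.natDegree_pos (Algebra.IsIntegral.isIntegral x)
  have hfrob : ∀ x : E, x ^ l ^ (minpoly (ZMod l) x).natDegree = x := by
    intro x
    have h1 : IsIntegral (ZMod l) x := Algebra.IsIntegral.isIntegral x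
    set A := IntermediateField.adjoin (ZMod l) {x} with hA
    have : Fintype A := Fintype.ofFinite _
    have hc : Fintype.card A = l ^ (minpoly (ZMod l) x).natDegree := by
      rw [← Nat.card_eq_fintype_card, Module.natCard_eq_pow_finrank (K := ZMod l) (V := A),
        Nat.card_zmod, IntermediateField.adjoin.finrank h1]
    have h2 := FiniteField.pow_card (⟨x, IntermediateField.mem_adjoin_simple_self _ x⟩ : A)
    rw [hc] at h2
    exact congrArg Subtype.val h2
  have e : {x : E | Algebra.norm (ZMod l) x = b ∧
      (minpoly (ZMod l) x).natDegree ≠ n}.ncard =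
      (Finset.univ.filter fun x : E => Algebra.norm (ZMod l) x = b ∧
        (minpoly (ZMod l) x).natDegree ≠ n).card := by
    rw [← Set.ncard_coe_finset]
    congr 1
    ext A
    simp
  rw [e]
  rcases Nat.lt_or_ge n 3 with hn3 | hn3
  · -- `n = 1` or `n = 2`
    have h12 : n = 1 ∨ n = 2 := by omega
    rcases h12 with h12 | h12
    · -- no elements
      have h0 : (Finset.univ.filter fun x : E => Algebra.norm (ZMod l) x = b ∧
          (minpoly (ZMod l) x).natDegree ≠ n) = ∅ := by
        rw [Finset.filter_eq_empty_iff]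
        rintro x - ⟨-, h1⟩
        obtain ⟨e, he⟩ := hdeg x
        apply h1
        have he1 : (minpoly (ZMod l) x).natDegree * e = 1 := he.trans h12
        exact (Nat.eq_one_of_mul_eq_one_right he1).trans h12.symm
      rw [h0, Finset.card_empty, mul_zero]
      exact Nat.zero_le _
    · -- square roots of `b`
      have hsub : (Finset.univ.filter fun x : E => Algebra.norm (ZMod l) x = b ∧
          (minpoly (ZMod l) x).natDegree ≠ n) ⊆
          (nthRoots 2 (algebraMap (ZMod l) E b)).toFinset := by
        intro x hx
        rw [Finset.mem_filter] at hx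
        obtain ⟨-, h1, h2⟩ := hx
        obtain ⟨e, he⟩ := hdeg x
        have h3 : (minpoly (ZMod l) x).natDegree = 1 := by
          have h4 : (minpoly (ZMod l) x).natDegree ∣ 2 := ⟨e, by rw [he, h12]⟩
          rcases (Nat.dvd_prime Nat.prime_two).1 h4 with h5 | h5
          · exact h5
          · exact absurd (h5.trans h12.symm) h2
        obtain ⟨y, rfl⟩ := (minpoly.natDegree_eq_one_iff.1 h3)
        rw [Algebra.norm_algebraMap, hrank, h12] at h1
        rw [Multiset.mem_toFinset, mem_nthRoots (by norm_num), ← map_pow, h1]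
      have h3 := (Finset.card_le_card hsub).trans
        ((Multiset.toFinset_card_le _).trans (card_nthRoots 2 _))
      have h5 : l ^ (n - 1) = l := by
        have h6 : n - 1 = 1 := by omega
        rw [h6, pow_one]
      rw [h5]
      omega
  · -- `n ≥ 3`
    have hsub : (Finset.univ.filter fun x : E => Algebra.norm (ZMod l) x = b ∧
        (minpoly (ZMod l) x).natDegree ≠ n) ⊆
        (Finset.Icc 1 (n / 2)).biUnion fun d =>
          ((X ^ l ^ d - X : E[X]).roots).toFinset := by
      intro x hx
      rw [Finset.mem_filter] at hx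
      obtain ⟨-, -, h2⟩ := hx
      obtain ⟨e, he⟩ := hdeg x
      have hp := hpos x
      rw [Finset.mem_biUnion]
      refine ⟨(minpoly (ZMod l) x).natDegree, ?_, ?_⟩
      · rw [Finset.mem_Icc]
        refine ⟨hp, ?_⟩
        have he2 : 2 ≤ e := by
          rcases Nat.lt_or_ge e 2 with h3 | h3
          · exfalso
            have : e = 0 ∨ e = 1 := by omega
            rcases this with h4 | h4
            · rw [h4, mul_zero] at he
              exact hn he.symm
            · rw [h4, mul_one] at he
              exact h2 he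
          · exact h3
        rw [Nat.le_div_iff_mul_le (by norm_num)]
        calc (minpoly (ZMod l) x).natDegree * 2 ≤ (minpoly (ZMod l) x).natDegree * e :=
              Nat.mul_le_mul_left _ he2
          _ = n := he
      · have hne : (X ^ l ^ (minpoly (ZMod l) x).natDegree - X : E[X]) ≠ 0 :=
          FiniteField.X_pow_card_pow_sub_X_ne_zero E hp.ne' hl.out.one_lt
        rw [Multiset.mem_toFinset, mem_roots hne, IsRoot.def, eval_sub, eval_pow, eval_X,
          hfrob x, sub_self]
    have h1 := Finset.card_le_card hsub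
    have h2 : ((Finset.Icc 1 (n / 2)).biUnion fun d =>
        ((X ^ l ^ d - X : E[X]).roots).toFinset).card ≤ (n / 2) * l ^ (n - 2) := by
      refine (Finset.card_biUnion_le_card_mul _ _ (l ^ (n - 2)) ?_).trans ?_
      · intro d hd
        rw [Finset.mem_Icc] at hd
        refine (Multiset.toFinset_card_le _).trans ((card_roots' _).trans ?_)
        rw [FiniteField.X_pow_card_pow_sub_X_natDegree_eq E (by omega) hl.out.one_lt]
        exact Nat.pow_le_pow_right hl.out.pos (by omega)
      · rw [Nat.card_Icc, Nat.add_sub_cancel]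
    calc 2 * _ ≤ 2 * ((n / 2) * l ^ (n - 2)) := Nat.mul_le_mul_left _ (h1.trans h2)
      _ = (2 * (n / 2)) * l ^ (n - 2) := by ring
      _ ≤ l * l ^ (n - 2) := Nat.mul_le_mul_right _ (by omega)
      _ = l ^ (n - 1) := by
        rw [← pow_succ']
        congr 1
        omega

/-- **The number of irreducible polynomials with given constant term.** -/
theorem card_irr [NeZero n] (a : ZMod l) (ha : a ≠ 0) (hl2 : 2 * n + 4 ≤ l) :
    ∃ S : Finset (ZMod l)[X], (∀ f ∈ S, f.Monic ∧ f.natDegree = n ∧ f.coeff 0 = a ∧
      Irreducible f) ∧ l ^ (n - 1) ≤ 2 * n * S.card := by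
  classical
  set E := GaloisField l n with hE
  have hn : n ≠ 0 := NeZero.ne n
  have hrank : Module.finrank (ZMod l) E = n := GaloisField.finrank l hn
  set b : ZMod l := (-1) ^ n * a with hb
  have hb0 : b ≠ 0 := mul_ne_zero (pow_ne_zero _ (neg_ne_zero.2 one_ne_zero)) ha
  set G : Finset E := Finset.univ.filter fun x : E => Algebra.norm (ZMod l) x = b ∧
    (minpoly (ZMod l) x).natDegree = n with hG
  have h1 : l ^ (n - 1) ≤ {x : E | Algebra.norm (ZMod l) x = b}.ncard := card_norm l n b hb0
  have h2 : 2 * {x : E | Algebra.norm (ZMod l) x = b ∧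
      (minpoly (ZMod l) x).natDegree ≠ n}.ncard ≤ l ^ (n - 1) := card_nongen l n b hl2
  have e1 : {x : E | Algebra.norm (ZMod l) x = b}.ncard = G.card +
      {x : E | Algebra.norm (ZMod l) x = b ∧ (minpoly (ZMod l) x).natDegree ≠ n}.ncard := by
    rw [← Set.ncard_coe_finset G, ← Set.ncard_union_eq]
    · congr 1
      ext x
      simp only [hG, Finset.coe_filter, Finset.mem_univ, true_and, Set.mem_union,
        Set.mem_ofPred_eq]
      tauto
    · rw [Set.disjoint_left]
      intro x hx hx'
      simp only [hG, Finset.coe_filter, Finset.mem_univ, true_and, Set.mem_ofPred_eq] at hx hx'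
      exact hx'.2 hx.2
  have h3 : l ^ (n - 1) ≤ 2 * G.card := by
    rw [e1] at h1
    omega
  refine ⟨G.image (minpoly (ZMod l)), ?_, ?_⟩
  · intro f hf
    obtain ⟨x, hx, rfl⟩ := Finset.mem_image.1 hf
    rw [hG, Finset.mem_filter] at hx
    obtain ⟨-, hx1, hx2⟩ := hx
    have hxi : IsIntegral (ZMod l) x := Algebra.IsIntegral.isIntegral x
    refine ⟨minpoly.monic hxi, hx2, ?_, minpoly.irreducible hxi⟩
    have htop : IntermediateField.adjoin (ZMod l) {x} = ⊤ := by
      rw [Field.primitive_element_iff_minpoly_natDegree_eq, hrank, hx2]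
    have htop' : Algebra.adjoin (ZMod l) {x} = ⊤ := by
      rw [← IntermediateField.adjoin_simple_toSubalgebra_of_isAlgebraic hxi.isAlgebraic, htop]
      rfl
    set pb : PowerBasis (ZMod l) E := PowerBasis.ofAdjoinEqTop hxi htop' with hpb
    have hpg : pb.gen = x := PowerBasis.ofAdjoinEqTop_gen _ _
    have h4 := Algebra.PowerBasis.norm_gen_eq_coeff_zero_minpoly pb
    have h5 : pb.dim = n := by
      rw [← pb.finrank, hrank]
    rw [hpg, hx1, h5, hb] at h4
    exact (mul_left_cancel₀ (pow_ne_zero _ (neg_ne_zero.2 one_ne_zero)) h4).symm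
  · have h4 : G.card ≤ n * (G.image (minpoly (ZMod l))).card := by
      refine Finset.card_le_mul_card_image G n ?_
      intro f hf
      obtain ⟨y, hy, rfl⟩ := Finset.mem_image.1 hf
      rw [hG, Finset.mem_filter] at hy
      have hyi : IsIntegral (ZMod l) y := Algebra.IsIntegral.isIntegral y
      have hsub : (G.filter fun x => minpoly (ZMod l) x = minpoly (ZMod l) y) ⊆
          ((minpoly (ZMod l) y).aroots E).toFinset := by
        intro x hx
        rw [Finset.mem_filter] at hx
        rw [Multiset.mem_toFinset, mem_aroots, ← hx.2]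
        exact ⟨minpoly.ne_zero (Algebra.IsIntegral.isIntegral x), minpoly.aeval _ _⟩
      refine (Finset.card_le_card hsub).trans ((Multiset.toFinset_card_le _).trans ?_)
      refine (card_roots' _).trans ?_
      rw [(minpoly.monic hyi).natDegree_map, hy.2.2]
    calc l ^ (n - 1) ≤ 2 * G.card := h3
      _ ≤ 2 * (n * (G.image (minpoly (ZMod l))).card) := Nat.mul_le_mul_left _ h4
      _ = _ := by ring

end Norm

end Pool.Agent.V8H88.UF
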