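import Pool.Agent.V8H88.UF.Pat

/-!
# The automorphisms given by the patterns
-/

set_option autoImplicit false
set_option linter.unusedSectionVars false

open Polynomial NumberField

namespace Pool.Agent.V8H88.UF

open Pool.Agent.W521.Frob Pool.Agent.W458.MF

variable {I : Type} {K : I → Type} [∀ i, Field (K i)] [∀ i, NumberField (K i)]
  [∀ i, IsCMField (K i)] {q : I → ℕ} {h : I → ℤ[X]} {P : ∀ i, (𝓞 (K i))[X]} {L : Type} [Field L]
  [NumberField L] [IsGalois ℚ L] {j : L →+* ℂ} {em : ∀ i, (K i →+* ℂ) → (K i →+* L)}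
  {θ : ∀ i, 𝓞 (K i)} {Nθ : I → ℕ}

/-- Automorphisms which fix the embedded field permute the roots. -/
lemma bl_stable (H : UData K q h P) (i : I) (φ : K i →+* ℂ) (g : L ≃ₐ[ℚ] L)
    (hg : ∀ x : K i, g (em i φ x) = em i φ x) (x : L) (hx : x ∈ bl P em i φ) :
    g x ∈ bl P em i φ := by
  rw [mem_bl H] at hx ⊢
  have h1 : (blkL (em i φ) (P i)).map (g : L →+* L) = blkL (em i φ) (P i) := by
    unfold blkL
    rw [Polynomial.map_map]
    congr 1
    ext y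
    exact hg _
  have h2 : (blkL (em i φ) (P i)).eval (g x) =
      ((blkL (em i φ) (P i)).map (g : L →+* L)).eval ((g : L →+* L) x) := by
    rw [h1]
    rfl
  rw [h2, eval_map_apply, hx, map_zero]

/-- The first automorphism. -/
theorem exists_g (H : UData K q h P) (E : EData K q h j em)
    (hθ : ∀ i, IsGen (K i) (θ i) (Nθ i)) (R : ℤ[X]) (hRm : R.Monic) (i₀ : I) (l : ℕ)
    (hl : l.Prime) (hRl : SplitsMod R l) (hspl : ∀ i, SplitsMod (minpoly ℤ (θ i)) l)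
    (hN : ∀ i, ¬ l ∣ Nθ i) (χ₀ : 𝓞 (K i₀) →+* ZMod l)
    (hA : PatA (K i₀) l χ₀ (fun χ => (P i₀).map χ))
    (hpass : ∀ i, i ≠ i₀ → Pass (K i) l (fun χ => (P i).map χ)) (φ₀ : K i₀ →+* ℂ) :
    ∃ g : L ≃ₐ[ℚ] L, (∀ β : L, aeval β R = 0 → g β = β) ∧
      (∀ i (f : K i →+* L) (x : K i), g (f x) = f x) ∧
      Moves (fun _ φ => ComplexEmbedding.conjugate φ) (bl P em) i₀ φ₀ g ∧
      (∀ x ∈ bl P em i₀ φ₀, ∀ y ∈ bl P em i₀ φ₀, ∃ n : ℕ, (g ^ n) x = y) ∧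
      (blkL (em i₀ φ₀) (P i₀)).Separable := by
  classical
  have : Fact l.Prime := ⟨hl⟩
  obtain ⟨k, _, _, hchar, ρ, σ, hσ, hρ⟩ := exists_frob_over L (K i₀) (em i₀ φ₀) l hl χ₀
  have hχ₀ : (ZMod.castHom (dvd_refl l) k).comp χ₀ =
      ρ.comp (RingOfIntegers.mapRingHom (em i₀ φ₀)) := by
    ext x
    exact (hρ x).symm
  choose T hT using hspl
  have hfix : ∀ i (f : K i →+* L) (x : K i), σ (f x) = f x := fun i f x =>
    emb_fixed hσ (hθ i) (T i) (hT i) f x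
  have hcc : ∀ i (φ : K i →+* ℂ) (χ : 𝓞 (K i) →+* ZMod l),
      (ZMod.castHom (dvd_refl l) k).comp χ = ρ.comp (RingOfIntegers.mapRingHom (em i φ)) →
      (ZMod.castHom (dvd_refl l) k).comp (χ.comp (cc (K i))) =
        ρ.comp (RingOfIntegers.mapRingHom (em i (ComplexEmbedding.conjugate φ))) := by
    intro i φ χ hχ
    rw [em_conj E, ← RingHom.comp_assoc, hχ, RingHom.comp_assoc]
  -- blocks with linear factors are fixed
  have hlin : ∀ i (φ : K i →+* ℂ) (χ : 𝓞 (K i) →+* ZMod l),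
      (ZMod.castHom (dvd_refl l) k).comp χ = ρ.comp (RingOfIntegers.mapRingHom (em i φ)) →
      Lin ((P i).map χ) ∨ Lin ((P i).map (χ.comp (cc (K i)))) →
      ∀ x ∈ bl P em i φ, σ x = x := by
    intro i φ χ hχ hor x hx
    rcases hor with ⟨T', hT'⟩ | ⟨T', hT'⟩
    · exact block_fixed hσ (hfix i) (em i φ) (H.monic i) χ hχ T' hT' x ((mem_bl H i φ x).1 hx)
    · have h1 := block_fixed hσ (hfix i) (em i (ComplexEmbedding.conjugate φ)) (H.monic i)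
        (χ.comp (cc (K i))) (hcc i φ χ hχ) T' hT' ((q i : L) / x)
        ((mem_bl H i _ _).1 (bl_inv H E i φ x hx))
      have hx0 := bl_ne_zero H E i φ x hx
      have hq : ((q i : ℕ) : L) ≠ 0 := Nat.cast_ne_zero.2 (H.q_pos i).ne'
      rw [map_div₀, map_natCast] at h1
      have h2 : (q i : L) / ((q i : L) / σ x) = (q i : L) / ((q i : L) / x) := by rw [h1]
      rwa [div_div_cancel₀ hq, div_div_cancel₀ hq] at h2
  have hirr : Irreducible ((P i₀).map χ₀) := hA.1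
  have hsep : (blkL (em i₀ φ₀) (P i₀)).Separable := by
    have h1 : ((blk (em i₀ φ₀) (P i₀)).map ρ).Separable := by
      rw [blk_map_red (em i₀ φ₀) (P i₀) χ₀ hχ₀]
      exact (PerfectField.separable_of_irreducible hirr).map
    have hnd : (blkL (em i₀ φ₀) (P i₀)).roots.Nodup := by
      obtain ⟨M, hM⟩ := exists_roots (blk (em i₀ φ₀) (P i₀)) ((H.monic i₀).map _)
        (by rw [blk_map]; exact blkL_splits H E i₀ φ₀)
      have h2 : (blk (em i₀ φ₀) (P i₀)).map ρ = ((M.map ρ).map (fun a => X - C a)).prod := by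
        rw [hM, Polynomial.map_multiset_prod, Multiset.map_map, Multiset.map_map]
        congr 1
        refine Multiset.map_congr rfl fun x _ => ?_
        simp
      have h3 : (M.map ρ).Nodup := by
        have h4 := nodup_roots h1
        rw [h2, roots_multiset_prod_X_sub_C] at h4
        exact h4
      have h5 : blkL (em i₀ φ₀) (P i₀) =
          ((M.map (algebraMap (𝓞 L) L)).map (fun a => X - C a)).prod := by
        rw [← blk_map, hM, Polynomial.map_multiset_prod, Multiset.map_map, Multiset.map_map]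
        congr 1
        refine Multiset.map_congr rfl fun x _ => ?_
        simp
      rw [h5, roots_multiset_prod_X_sub_C]
      exact (Multiset.Nodup.of_map ρ h3).map RingOfIntegers.coe_injective
    have h2 := blkL_splits H E i₀ φ₀
    exact (nodup_roots_iff_of_splits ((H.monic i₀).map _).ne_zero h2).1 hnd
  refine ⟨σ, ?_, hfix, ⟨?_, ?_⟩, ?_, hsep⟩
  · intro β hβ
    obtain ⟨TR, hTR⟩ := hRl
    have h1 : IsIntegral ℤ β := ⟨R, hRm, hβ⟩
    obtain ⟨b, rfl⟩ : ∃ b : 𝓞 L, (b : L) = β := ⟨⟨β, h1⟩, rfl⟩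
    have hb : aeval b R = 0 := by
      apply RingOfIntegers.coe_injective
      have h5 := aeval_algebraMap_apply L b R
      exact h5.symm.trans (hβ.trans (map_zero _).symm)
    exact congrArg (fun x : 𝓞 L => (x : L)) (fixed_int hσ R TR hTR b hb).2
  · intro i' φ' hn x hx
    obtain ⟨χ', hχ'⟩ := exists_red hσ (hθ i') (hN i') (T i') (hT i') (em i' φ')
    refine hlin i' φ' χ' hχ' ?_ x hx
    by_cases hi : i' = i₀
    · subst hi
      have hn1 : φ' ≠ φ₀ := fun e => hn ⟨rfl, Or.inl e⟩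
      have hn2 : φ' ≠ ComplexEmbedding.conjugate φ₀ := fun e => hn ⟨rfl, Or.inr e⟩
      have hinj : ∀ ψ : K i' →+* ℂ, ρ.comp (RingOfIntegers.mapRingHom (em i' φ')) =
          ρ.comp (RingOfIntegers.mapRingHom (em i' ψ)) → φ' = ψ := by
        intro ψ hψ
        have h1 := red_injective (hθ i') (T i') (hT i') _ _ hψ
        rw [← E.em_comp i' φ', ← E.em_comp i' ψ, h1]
      refine hA.2 χ' ?_ ?_
      · rintro rfl
        exact hn1 (hinj φ₀ (by rw [← hχ', ← hχ₀]))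
      · rintro rfl
        exact hn2 (hinj _ (by rw [← hχ', ← hcc i' φ₀ χ₀ hχ₀]))
    · exact hpass i' hi χ'
  · exact fun x hx => bl_stable H i₀ φ₀ σ (hfix i₀ _) x hx
  · intro x hx y hy
    exact block_trans hσ (hfix i₀) (em i₀ φ₀) (H.monic i₀) χ₀ hχ₀ hirr x y
      ((mem_bl H i₀ φ₀ x).1 hx) ((mem_bl H i₀ φ₀ y).1 hy)

/-- The second automorphism. -/
theorem exists_h (H : UData K q h P) (E : EData K q h j em) (i₀ : I)
    (hθ : IsGen (K i₀) (θ i₀) (Nθ i₀)) (l : ℕ)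
    (hl : l.Prime) (hspl : SplitsMod (minpoly ℤ (θ i₀)) l) (χ₀ : 𝓞 (K i₀) →+* ZMod l)
    (hB : PatB (K i₀) l χ₀ (fun χ => (P i₀).map χ)) (φ₀ : K i₀ →+* ℂ) :
    ∃ (g : L ≃ₐ[ℚ] L) (x₁ : L), (∀ x ∈ bl P em i₀ φ₀, g x ∈ bl P em i₀ φ₀) ∧
      x₁ ∈ bl P em i₀ φ₀ ∧ g x₁ = x₁ ∧
      (∀ x ∈ bl P em i₀ φ₀, ∀ y ∈ bl P em i₀ φ₀, x ≠ x₁ → y ≠ x₁ →
        ∃ n : ℕ, (g ^ n) x = y) := by
  classical
  have : Fact l.Prime := ⟨hl⟩
  obtain ⟨k, _, _, hchar, ρ, σ, hσ, hρ⟩ := exists_frob_over L (K i₀) (em i₀ φ₀) l hl χ₀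
  have hχ₀ : (ZMod.castHom (dvd_refl l) k).comp χ₀ =
      ρ.comp (RingOfIntegers.mapRingHom (em i₀ φ₀)) := by
    ext x
    exact (hρ x).symm
  obtain ⟨T, hT⟩ := hspl
  have hfix : ∀ (f : K i₀ →+* L) (x : K i₀), σ (f x) = f x := fun f x =>
    emb_fixed hσ hθ T hT f x
  obtain ⟨u, g, hg, hirr, hu⟩ := hB
  obtain ⟨x₁, h1, h2, h3⟩ := block_trans_one hσ hfix (em i₀ φ₀) (H.monic i₀)
    (blkL_splits H E i₀ φ₀) χ₀ hχ₀ u g hg hirr hu
  refine ⟨σ, x₁, fun x hx => bl_stable H i₀ φ₀ σ (hfix _) x hx, (mem_bl H i₀ φ₀ x₁).2 h1, h2, ?_⟩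
  intro x hx y hy hxx hyy
  exact h3 x y ((mem_bl H i₀ φ₀ x).1 hx) ((mem_bl H i₀ φ₀ y).1 hy) hxx hyy

/-- Not all quotients are roots of unity. -/
theorem exists_ne (H : UData K q h P) (E : EData K q h j em) (i₀ : I) (N : ℕ)
    (huni : ∀ z : ℂ, (∃ t : ℕ, 0 < t ∧ z ^ t = 1) → (∃ Q : ℚ[X], Q ≠ 0 ∧
      Q.natDegree ≤ (2 * (h i₀).natDegree) * (2 * (h i₀).natDegree) ∧ aeval z Q = 0) → z ^ N = 1)
    (l : ℕ) (hl : l.Prime) (χ₀ : 𝓞 (K i₀) →+* ZMod l)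
    (hC : PatC (K i₀) l N χ₀ (fun χ => (P i₀).map χ)) (φ₀ : K i₀ →+* ℂ) (T : ℕ) (hT : 0 < T) :
    ∃ x ∈ bl P em i₀ φ₀, ∃ y ∈ bl P em i₀ φ₀, x ^ T ≠ y ^ T := by
  classical
  have : Fact l.Prime := ⟨hl⟩
  obtain ⟨k, _, _, hchar, ρ, σ, hσ, hρ⟩ := exists_frob_over L (K i₀) (em i₀ φ₀) l hl χ₀
  have hχ₀ : (ZMod.castHom (dvd_refl l) k).comp χ₀ =
      ρ.comp (RingOfIntegers.mapRingHom (em i₀ φ₀)) := by
    ext x
    exact (hρ x).symm
  obtain ⟨u, v, hu, hv, huv⟩ := hC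
  obtain ⟨x, y, hx, hy, hxy⟩ := block_pow_ne (em i₀ φ₀) (H.monic i₀) (blkL_splits H E i₀ φ₀) χ₀
    hχ₀ u v hu hv N huv
  have hx' := (mem_bl H i₀ φ₀ x).2 hx
  have hy' := (mem_bl H i₀ φ₀ y).2 hy
  refine ⟨x, hx', y, hy', fun he => hxy ?_⟩
  have hy0 := bl_ne_zero H E i₀ φ₀ y hy'
  have hjy0 : j y ≠ 0 := fun e => hy0 ((map_eq_zero j).1 e)
  have hrx := root_weil H i₀ φ₀ _ (bl_root H E i₀ φ₀ x hx')
  have hry := root_weil H i₀ φ₀ _ (bl_root H E i₀ φ₀ y hy')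
  set W : ℚ[X] := (weil (q i₀) (h i₀)).map (Int.castRingHom ℚ) with hW
  have hWm : W.Monic := (weil_monic _ (H.hmonic i₀)).map _
  have hWd : W.natDegree = 2 * (h i₀).natDegree := by
    rw [hW, (weil_monic _ (H.hmonic i₀)).natDegree_map, weil_natDegree _ (H.hmonic i₀)]
  have hWr : ∀ z : ℂ, aeval z (weil (q i₀) (h i₀)) = 0 → aeval z W = 0 := by
    intro z hz
    rw [hW, aeval_def, eval₂_map, RingHom.ext_int ((algebraMap ℚ ℂ).comp _) (algebraMap ℤ ℂ)]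
    exact hz
  obtain ⟨Q, hQ0, hQd, hQ⟩ := exists_quotient_poly (j x) (j y) W hWm.ne_zero (hWr _ hrx)
    (hWr _ hry)
  rw [hWd] at hQd
  have h1 : (j x / j y) ^ N = 1 := by
    refine huni _ ⟨T, hT, ?_⟩ ⟨Q, hQ0, hQd, hQ⟩
    rw [div_pow, ← map_pow, ← map_pow, he, div_self]
    exact fun e => pow_ne_zero _ hy0 ((map_eq_zero j).1 e)
  rw [div_pow, div_eq_one_iff_eq (pow_ne_zero _ hjy0), ← map_pow, ← map_pow] at h1
  exact j.injective h1

end Pool.Agent.V8H88.UF
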