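import Pool.Agent.V8H88.UF.Fld

/-!
# Patterns of factorisation
-/

set_option autoImplicit false
set_option linter.unusedSectionVars false

open Polynomial NumberField

namespace Pool.Agent.V8H88.UF

open Pool.Agent.W521.Frob Pool.Agent.W458.MF

/-- A product of different linear factors. -/
def Lin {l : ℕ} (f : (ZMod l)[X]) : Prop := ∃ T : Finset (ZMod l), f = ∏ t ∈ T, (X - C t)

section

variable (K : Type) [Field K] [NumberField K] [IsCMField K] (l : ℕ)

/-- All polynomials are products of different linear factors (or the conjugate ones are). -/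
def Pass (Q : (𝓞 K →+* ZMod l) → (ZMod l)[X]) : Prop := ∀ χ, Lin (Q χ) ∨ Lin (Q (χ.comp (cc K)))

/-- All polynomials with the exception of those for `χ₀` and its conjugate are products of
different linear factors (or the conjugate ones are). -/
def Rest (χ₀ : 𝓞 K →+* ZMod l) (Q : (𝓞 K →+* ZMod l) → (ZMod l)[X]) : Prop :=
  ∀ χ, χ ≠ χ₀ → χ ≠ χ₀.comp (cc K) → Lin (Q χ) ∨ Lin (Q (χ.comp (cc K)))

/-- The pattern with an irreducible polynomial. -/
def PatA (χ₀ : 𝓞 K →+* ZMod l) (Q : (𝓞 K →+* ZMod l) → (ZMod l)[X]) : Prop :=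
  Irreducible (Q χ₀) ∧ Rest K l χ₀ Q

/-- The pattern with a linear factor and an irreducible one. -/
def PatB (χ₀ : 𝓞 K →+* ZMod l) (Q : (𝓞 K →+* ZMod l) → (ZMod l)[X]) : Prop :=
  ∃ (u : ZMod l) (g : (ZMod l)[X]), Q χ₀ = (X - C u) * g ∧ Irreducible g ∧ g.eval u ≠ 0

/-- The pattern with two roots whose `N`-th powers are different. -/
def PatC (N : ℕ) (χ₀ : 𝓞 K →+* ZMod l) (Q : (𝓞 K →+* ZMod l) → (ZMod l)[X]) : Prop :=
  ∃ u v : ZMod l, (Q χ₀).eval u = 0 ∧ (Q χ₀).eval v = 0 ∧ u ^ N ≠ v ^ N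

end

/-- The data of the pieces: the polynomials `P i` over the rings of integers of the fields `K i`,
whose norms are the polynomials `weil (q i) (h i)`. -/
structure UData {I : Type} (K : I → Type) [∀ i, Field (K i)] [∀ i, NumberField (K i)]
    (q : I → ℕ) (h : I → ℤ[X]) (P : ∀ i, (𝓞 (K i))[X]) : Prop where
  q_pos : ∀ i, 0 < q i
  hmonic : ∀ i, (h i).Monic
  monic : ∀ i, (P i).Monic
  degree : ∀ i, 2 ≤ (P i).natDegree
  norm : ∀ i, (weil (q i) (h i)).map (Int.castRingHom ℂ) =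
    ∏ φ : K i →+* ℂ, (P i).map (emb φ)
  weight : ∀ i (φ : K i →+* ℂ) (z : ℂ), ((P i).map (emb φ)).IsRoot z → ‖z‖ ^ 2 = (q i : ℝ)

/-- The embeddings of the fields in `L`. -/
structure EData {I : Type} (K : I → Type) [∀ i, Field (K i)] [∀ i, NumberField (K i)]
    (q : I → ℕ) (h : I → ℤ[X]) {L : Type} [Field L] [NumberField L] (j : L →+* ℂ)
    (em : ∀ i, (K i →+* ℂ) → (K i →+* L)) : Prop where
  em_comp : ∀ i φ, j.comp (em i φ) = φ
  root : ∀ i, ∀ z : ℂ, aeval z (weil (q i) (h i)) = 0 → ∃ x : L, j x = z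

section Blocks

variable {I : Type} {K : I → Type} [∀ i, Field (K i)] [∀ i, NumberField (K i)]
  [∀ i, IsCMField (K i)] {q : I → ℕ} {h : I → ℤ[X]} {P : ∀ i, (𝓞 (K i))[X]} {L : Type} [Field L]
  [NumberField L] {j : L →+* ℂ} {em : ∀ i, (K i →+* ℂ) → (K i →+* L)}

open Classical in
/-- The blocks of roots. -/
noncomputable def bl (P : ∀ i, (𝓞 (K i))[X]) (em : ∀ i, (K i →+* ℂ) → (K i →+* L)) (i : I)
    (φ : K i →+* ℂ) : Finset L :=
  (blkL (em i φ) (P i)).roots.toFinset

lemma mem_bl (H : UData K q h P) (i : I) (φ : K i →+* ℂ) (x : L) :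
    x ∈ bl P em i φ ↔ (blkL (em i φ) (P i)).eval x = 0 := by
  classical
  have h0 : blkL (em i φ) (P i) ≠ 0 := ((H.monic i).map _).ne_zero
  unfold bl
  rw [Multiset.mem_toFinset, mem_roots h0, IsRoot.def]

lemma blkL_map (E : EData K q h j em) (P : ∀ i, (𝓞 (K i))[X]) (i : I) (φ : K i →+* ℂ) :
    (blkL (em i φ) (P i)).map j = (P i).map (emb φ) := by
  unfold blkL emb
  rw [Polynomial.map_map, ← RingHom.comp_assoc, E.em_comp]

lemma root_weil (H : UData K q h P) (i : I) (φ : K i →+* ℂ) (z : ℂ)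
    (hz : ((P i).map (emb φ)).IsRoot z) : aeval z (weil (q i) (h i)) = 0 := by
  have h1 : ((weil (q i) (h i)).map (Int.castRingHom ℂ)).eval z = 0 := by
    rw [H.norm i, eval_prod]
    exact Finset.prod_eq_zero (Finset.mem_univ φ) hz
  rw [eval_map] at h1
  exact h1

lemma bl_root (H : UData K q h P) (E : EData K q h j em) (i : I) (φ : K i →+* ℂ) (x : L)
    (hx : x ∈ bl P em i φ) : ((P i).map (emb φ)).IsRoot (j x) := by
  rw [mem_bl H] at hx
  rw [← blkL_map E P i φ, IsRoot.def, eval_map_apply, hx, map_zero]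

lemma bl_of_root (H : UData K q h P) (E : EData K q h j em) (i : I) (φ : K i →+* ℂ) (x : L)
    (hx : ((P i).map (emb φ)).IsRoot (j x)) : x ∈ bl P em i φ := by
  rw [mem_bl H]
  rw [← blkL_map E P i φ, IsRoot.def, eval_map_apply] at hx
  exact (map_eq_zero j).1 hx

lemma blkL_splits (H : UData K q h P) (E : EData K q h j em) (i : I) (φ : K i →+* ℂ) :
    (blkL (em i φ) (P i)).Splits := by
  refine Splits.of_splits_map j (IsAlgClosed.splits _) ?_
  intro a ha
  have h1 := (mem_roots'.1 ha).2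
  rw [blkL_map E P i φ] at h1
  exact E.root i a (root_weil H i φ a h1)

lemma conj_eq (H : UData K q h P) (i : I) (φ : K i →+* ℂ) (z : ℂ)
    (hz : ((P i).map (emb φ)).IsRoot z) : z ≠ 0 ∧ (starRingEnd ℂ) z = (q i : ℂ) / z := by
  have h1 := H.weight i φ z hz
  have hq : (0 : ℝ) < q i := Nat.cast_pos.2 (H.q_pos i)
  have hz0 : z ≠ 0 := by
    rintro rfl
    rw [norm_zero, zero_pow two_ne_zero] at h1
    exact hq.ne h1
  refine ⟨hz0, ?_⟩
  rw [eq_div_iff hz0, mul_comm, Complex.mul_conj, Complex.normSq_eq_norm_sq, h1]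
  push_cast
  rfl

lemma root_conj' (H : UData K q h P) (i : I) (φ : K i →+* ℂ) (z : ℂ)
    (hz : ((P i).map (emb φ)).IsRoot z) :
    ((P i).map (emb (ComplexEmbedding.conjugate φ))).IsRoot ((q i : ℂ) / z) := by
  rw [← (conj_eq H i φ z hz).2, IsRoot.def, eval_map]
  have h1 : emb (ComplexEmbedding.conjugate φ) = (starRingEnd ℂ).comp (emb φ) := rfl
  rw [h1, ← hom_eval₂]
  rw [IsRoot.def, eval_map] at hz
  rw [hz, map_zero]

lemma bl_ne_zero (H : UData K q h P) (E : EData K q h j em) (i : I) (φ : K i →+* ℂ) (x : L)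
    (hx : x ∈ bl P em i φ) : x ≠ 0 := by
  rintro rfl
  have h1 := (conj_eq H i φ _ (bl_root H E i φ 0 hx)).1
  exact h1 (map_zero j)

lemma bl_inv (H : UData K q h P) (E : EData K q h j em) (i : I) (φ : K i →+* ℂ) (x : L)
    (hx : x ∈ bl P em i φ) : (q i : L) / x ∈ bl P em i (ComplexEmbedding.conjugate φ) := by
  refine bl_of_root H E i _ _ ?_
  rw [map_div₀, map_natCast]
  exact root_conj' H i φ _ (bl_root H E i φ x hx)

lemma bl_card (H : UData K q h P) (E : EData K q h j em) (i : I) (φ : K i →+* ℂ)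
    (hs : (blkL (em i φ) (P i)).Separable) : (bl P em i φ).card = (P i).natDegree := by
  classical
  unfold bl
  rw [Multiset.toFinset_card_of_nodup (nodup_roots hs),
    ← (blkL_splits H E i φ).natDegree_eq_card_roots]
  exact (H.monic i).natDegree_map _

lemma bl_prod (H : UData K q h P) (E : EData K q h j em) (i : I) (φ : K i →+* ℂ)
    (hs : (blkL (em i φ) (P i)).Separable) :
    j (∏ x ∈ bl P em i φ, x) = (-1) ^ (P i).natDegree * emb φ ((P i).coeff 0) := by
  classical
  have h1 : (∏ x ∈ bl P em i φ, x) = (blkL (em i φ) (P i)).roots.prod := by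
    unfold bl
    rw [Finset.prod_multiset_count_of_subset _ _ (Finset.Subset.refl _)]
    refine Finset.prod_congr rfl fun x hx => ?_
    rw [Multiset.count_eq_one_of_mem (nodup_roots hs) (Multiset.mem_toFinset.1 hx), pow_one]
  have h2 := (blkL_splits H E i φ).coeff_zero_eq_prod_roots_of_monic
    ((H.monic i).map ((em i φ).comp (algebraMap (𝓞 (K i)) (K i))))
  have h3 : (blkL (em i φ) (P i)).natDegree = (P i).natDegree := (H.monic i).natDegree_map _
  rw [h3] at h2
  have h4 : (∏ x ∈ bl P em i φ, x) =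
      (-1) ^ (P i).natDegree * (blkL (em i φ) (P i)).coeff 0 := by
    rw [h1, h2, ← mul_assoc, ← mul_pow, neg_one_mul, neg_neg, one_pow, one_mul]
  rw [h4, map_mul, map_pow, map_neg, map_one]
  congr 1
  have h5 := congrArg (fun f => f.coeff 0) (blkL_map E P i φ)
  simp only [coeff_map] at h5
  exact h5

lemma em_conj (E : EData K q h j em) (i : I) (φ : K i →+* ℂ) :
    RingOfIntegers.mapRingHom (em i (ComplexEmbedding.conjugate φ)) =
      (RingOfIntegers.mapRingHom (em i φ)).comp (cc (K i)) := by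
  ext x
  apply j.injective
  have h1 : j (em i (ComplexEmbedding.conjugate φ) x) = ComplexEmbedding.conjugate φ x :=
    RingHom.congr_fun (E.em_comp i (ComplexEmbedding.conjugate φ)) x
  have h2 : j (em i φ (cc (K i) x)) = φ (cc (K i) x) := RingHom.congr_fun (E.em_comp i φ) _
  have h3 : φ (cc (K i) x) = ComplexEmbedding.conjugate φ x :=
    RingHom.congr_fun (emb_cc φ) x
  change j (em i (ComplexEmbedding.conjugate φ) x) = j (em i φ (cc (K i) x))
  rw [h1, h2, h3]

end Blocks

end Pool.Agent.V8H88.UF
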