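import Pool.Agent.V8H88.UF.Main

/-!
# MP_950c68_ag: the Tate conjecture for the products of almost all members of unitary families

Let `Y` be a smooth proper variety over an algebraic closure of a finite field such that the Tate
conjecture and the semisimplicity of the Frobenius endomorphism for the Tate classes hold for all
products of copies of `Y`, for example a projective space or a point. Let `F i`, for `i` in a
finite set, be families of varieties `X_s` over `Y` whose cohomology is the sum of the pull-back of
the cohomology of `Y` and of a subspace `P_s` of the cohomology of degree `dim X_s`, on which a CM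
field `K i` acts, and let the monodromy of each of the families be the full unitary group of rank
`n i ≥ 2` over `K i`, modulo all large primes which split completely in `K i`. Let the determinants
of the Frobenius endomorphisms over `K i` be geometrically constant (up to twist by a character of
finite order), so that they are, up to roots of unity, the powers of a number `δ i` of `K i`.
Examples are the families of the Picard curves `y ^ 3 = f x` with `f` of degree `4`, or of the
curves `y ^ ℓ = f x` for a prime `ℓ ≥ 3`, with `K i = ℚ(ζ_ℓ)`; here `δ i` is a product of Jacobi
sums.

Assume that the determinants are nondegenerate: apart from the relations `δ * conj δ = power of p`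
there are no multiplicative relations among the conjugates of the numbers `δ i`, modulo
rational numbers and eigenvalues of Frobenius for `Y` (in the example of the curves `y ^ ℓ = f x`
this holds if `p` is congruent to `1` modulo `ℓ`, by the factorization of Gauss sums). Then for all
`ε > 0` and all large `m`, for all but at most `ε * ∏ i, #S_i(m)` of the tuples `s` in the product
of the sets `S_i(m)` of the parameters with coordinates in the field with `p ^ m` elements, the
Tate conjecture and the semisimplicity hold, in all codimensions, for **all products** of copies
of `Y` and of the members `X_{i, s_i}` of the families.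

Without the hypothesis on the determinants the powers of all the members of such a family have
Tate classes (the determinants of the unitary representations, as for the Weil classes of abelian
varieties of Weil type) which are not generated by classes of divisors and of graphs, and for which
the Tate conjecture is not known.
-/

open CategoryTheory AlgebraicGeometry Polynomial NumberField

universe u v

namespace Pool.Agent.V8H88.UF.Result

open Pool.Agent.H914 Pool.Agent.W534 Pool.Agent.W458.MF Pool.Agent.V8H88.UF VarClass Obj
  WeilCohomology

/-- **The Tate conjecture and semisimplicity for all products of almost all members of families of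
varieties with multiplication by CM fields and full unitary monodromy.** -/
theorem result {k : Type u} [Field k] {𝒱 : VarClass k} {ops : CycleOps 𝒱}
    (W : WeilCohomology.{u, v} ops) [IsAlgClosed W.K] (σ : W.K →+* ℂ) (p : ℕ)
    (hp : p.Prime) (Φ : FrobSystem W p) (Y : 𝒱.Obj)
    (hint : ∀ μ : W.K, Module.End.HasEigenvalue (W.map (Φ.Fr Y)).toLinearMap μ → IsIntegral ℤ μ)
    (hY : ∀ Z, IsProductOf {Y} Z → ∀ j ≤ Z.dim, SemisimpleTateIn Φ Z j)
    {I : Type} [Fintype I] (K : I → Type) [∀ i, Field (K i)] [∀ i, NumberField (K i)]
    [∀ i, IsCMField (K i)] (F : ∀ i, UFamily W Y (K i)) (d n l₀ : I → ℕ)
    (D : ∀ i, ℕ → 𝓞 (K i)) (δ : ∀ i, 𝓞 (K i))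
    (hF : ∀ i, (F i).HasUnitaryMonodromy Φ (d i) (n i) (l₀ i) (D i) (δ i))
    (hnd : NonDegenerate K δ (frobeniusNumbers Φ Y)) (ε : ℝ) (hε : 0 < ε) :
    ∃ m₀ : ℕ, ∀ m ≥ m₀, ((uexceptions F m fun Z => ∀ j, SemisimpleTateIn Φ Z j).ncard : ℝ) ≤
      ε * ∏ i, (Nat.card ((F i).S m) : ℝ) :=
  unitary_tate W σ p hp Φ Y hint hY K F d n l₀ D δ hF hnd ε hε

end Pool.Agent.V8H88.UF.Result
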