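import Mathlib

/-!
# Roots of polynomials and their reductions
-/

set_option autoImplicit false

namespace Pool.Agent.V8H88.UF

open Polynomial NumberField

/-- Two roots of a polynomial with separable reduction are equal if their reductions are. -/
theorem root_eq_of_map_eq {R k : Type*} [CommRing R] [IsDomain R] [Field k] (ρ : R →+* k)
    (f : R[X]) (hf : (f.map ρ).Separable) (x y : R) (hx : f.eval x = 0) (hy : f.eval y = 0)
    (h : ρ x = ρ y) : x = y := by
  by_contra hne
  obtain ⟨g, hg⟩ := dvd_iff_isRoot.2 hx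
  have h1 : g.eval y = 0 := by
    have h2 : (y - x) * g.eval y = 0 := by
      have h3 := hy
      rw [hg, eval_mul, eval_sub, eval_X, eval_C] at h3
      exact h3
    exact (mul_eq_zero.1 h2).resolve_left (sub_ne_zero.2 (Ne.symm hne))
  obtain ⟨g', hg'⟩ := dvd_iff_isRoot.2 h1
  have h4 : f.map ρ = (X - C (ρ x)) * (X - C (ρ x)) * g'.map ρ := by
    rw [hg, hg', Polynomial.map_mul, Polynomial.map_mul, Polynomial.map_sub, Polynomial.map_sub,
      map_X, map_C, map_C, h, mul_assoc]
  rw [h4] at hf
  exact (not_isUnit_X_sub_C (ρ x)) (hf.squarefree (X - C (ρ x)) (Dvd.intro _ rfl))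

/-- The roots of an irreducible polynomial over the prime field are conjugate under the powers of
the Frobenius automorphism. -/
theorem exists_pow_of_irreducible (l : ℕ) [Fact l.Prime] (k : Type) [Field k] [Finite k]
    [CharP k l] (g : (ZMod l)[X]) (hg : Irreducible g) (a b : k)
    (ha : (g.map (ZMod.castHom (dvd_refl l) k)).eval a = 0)
    (hb : (g.map (ZMod.castHom (dvd_refl l) k)).eval b = 0) : ∃ j : ℕ, b = a ^ l ^ j := by
  let _ : Algebra (ZMod l) k := ZMod.algebra k l
  have hψ : algebraMap (ZMod l) k = ZMod.castHom (dvd_refl l) k := rfl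
  have : Module.Finite (ZMod l) k := Module.Finite.of_finite
  have key : ∀ c : k, (g.map (ZMod.castHom (dvd_refl l) k)).eval c = 0 →
      minpoly (ZMod l) c = g * C (g.leadingCoeff)⁻¹ := by
    intro c hc
    rw [← hψ, eval_map_algebraMap] at hc
    exact (minpoly.eq_of_irreducible hg hc).symm
  have hconj : IsConjRoot (ZMod l) b a := by
    change minpoly (ZMod l) b = minpoly (ZMod l) a
    rw [key a ha, key b hb]
  obtain ⟨τ, hτ⟩ := isConjRoot_iff_exists_algEquiv.1 hconj
  obtain ⟨⟨j, hj⟩, hjτ⟩ := (FiniteField.bijective_frobeniusAlgEquivOfAlgebraic_pow (ZMod l) k).2 τ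
  refine ⟨j, ?_⟩
  rw [← hτ, ← hjτ]
  simp only [AlgEquiv.coe_pow, FiniteField.coe_frobeniusAlgEquivOfAlgebraic_iterate]
  rw [ZMod.card]

/-- The elements of the prime field are fixed by the Frobenius. -/
theorem cast_pow_card (l : ℕ) [Fact l.Prime] (k : Type) [Field k] [CharP k l] (s : ZMod l) :
    (ZMod.castHom (dvd_refl l) k s) ^ l = ZMod.castHom (dvd_refl l) k s := by
  rw [← map_pow, ZMod.pow_card]

end Pool.Agent.V8H88.UF
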