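import Pool.Agent.V8H88.UF.Dens

/-!
# Primes which split completely
-/

set_option autoImplicit false
set_option linter.unusedSectionVars false

open Polynomial NumberField

namespace Pool.Agent.V8H88.UF

open Pool.Agent.W521.Frob Pool.Agent.W458.MF Pool.Agent.W338.MF

variable {K : Type} [Field K] [NumberField K] {θ : 𝓞 K} {N : ℕ}

/-- A prime modulo which the minimal polynomial of the generator is a product of different linear
factors splits completely. -/
theorem splitsCompletely_of (hθ : IsGen K θ N) (l : ℕ) (hl : l.Prime)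
    (hs : SplitsMod (minpoly ℤ θ) l) (hN : ¬ l ∣ N) : SplitsCompletely K l := by
  classical
  have : Fact l.Prime := ⟨hl⟩
  obtain ⟨T, hT⟩ := hs
  have hθi : IsIntegral ℤ θ := Algebra.IsIntegral.isIntegral θ
  have hNl : (N : ZMod l) ≠ 0 := by
    rw [Ne, ZMod.natCast_eq_zero_iff]
    exact hN
  -- the upper bound
  have hdeg : T.card ≤ Module.finrank ℚ K := by
    have h1 : T.card = (minpoly ℤ θ).natDegree := by
      rw [← (minpoly.monic hθi).natDegree_map (Int.castRingHom (ZMod l)), hT,
        natDegree_finsetProd_X_sub_C_eq_card]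
    have h2 : (minpoly ℤ θ).natDegree = (minpoly ℚ (θ : K)).natDegree := by
      have h3 : minpoly ℤ θ = minpoly ℤ (θ : K) :=
        (minpoly.algebraMap_eq (RingOfIntegers.coe_injective) θ).symm
      rw [h3, minpoly.isIntegrallyClosed_eq_field_fractions' ℚ (θ.isIntegral_coe),
        (minpoly.monic θ.isIntegral_coe).natDegree_map]
    rw [h1, h2]
    exact minpoly.natDegree_le _
  have hmem : ∀ χ : 𝓞 K →+* ZMod l, χ θ ∈ T := by
    intro χ
    have h1 := minpoly.aeval ℤ θ
    have h2 := congrArg χ h1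
    rw [map_zero] at h2
    have e : aeval θ (minpoly ℤ θ) = eval₂ (Int.castRingHom (𝓞 K)) θ (minpoly ℤ θ) := rfl
    rw [e, hom_eval₂, RingHom.ext_int (χ.comp (Int.castRingHom (𝓞 K)))
      (Int.castRingHom (ZMod l)), ← eval_map, hT, eval_prod, Finset.prod_eq_zero_iff] at h2
    obtain ⟨t, ht, h3⟩ := h2
    rw [eval_sub, eval_X, eval_C, sub_eq_zero] at h3
    rw [h3]
    exact ht
  have hinj : Function.Injective fun χ : 𝓞 K →+* ZMod l => (⟨χ θ, hmem χ⟩ : T) := by
    intro χ χ' h
    exact hθ.hom_ext hNl (congrArg Subtype.val h)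
  have hfin : Finite (𝓞 K →+* ZMod l) := Finite.of_injective _ hinj
  have hle : Nat.card (𝓞 K →+* ZMod l) ≤ Module.finrank ℚ K := by
    refine (Nat.card_le_card_of_injective _ hinj).trans ?_
    rw [Nat.card_eq_fintype_card, Fintype.card_coe]
    exact hdeg
  -- the lower bound
  obtain ⟨L, _, _, _, j, hj⟩ := exists_field' (minpoly ℤ θ) (minpoly.monic hθi)
  obtain ⟨k, _, hchar, ρ, σ, hσ⟩ := exists_frob L l hl
  choose em hem using fun φ : K →+* ℂ => hθ.exists_emb j hj φ
  choose red hred using fun φ : K →+* ℂ => exists_red hσ hθ hN T hT (em φ)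
  have hri : Function.Injective red := by
    intro φ φ' h
    have h1 : em φ = em φ' := by
      refine red_injective (ρ := ρ) hθ T hT _ _ ?_
      rw [← hred φ, ← hred φ', h]
    rw [← hem φ, ← hem φ', h1]
  have hge : Module.finrank ℚ K ≤ Nat.card (𝓞 K →+* ZMod l) := by
    rw [← NumberField.Embeddings.card K ℂ, ← Nat.card_eq_fintype_card]
    exact Nat.card_le_card_of_injective _ hri
  exact le_antisymm hle hge

/-- The complex conjugation has no fixed points. -/
theorem comp_cc_ne [IsCMField K] (hθ : IsGen K θ N) (l : ℕ) (hl : l.Prime)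
    (hs : SplitsMod (minpoly ℤ θ) l) (χ : 𝓞 K →+* ZMod l) : χ.comp (cc K) ≠ χ := by
  classical
  have : Fact l.Prime := ⟨hl⟩
  obtain ⟨T, hT⟩ := hs
  intro h
  have hsep : (((minpoly ℤ θ).map (Int.castRingHom (𝓞 K))).map χ).Separable := by
    rw [Polynomial.map_map, RingHom.ext_int (χ.comp (Int.castRingHom (𝓞 K)))
      (Int.castRingHom (ZMod l)), hT]
    exact separable_prod_X_sub_C_iff'.2 fun a _ b _ hab => hab
  have h1 : ((minpoly ℤ θ).map (Int.castRingHom (𝓞 K))).eval θ = 0 := by
    rw [eval_map]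
    exact minpoly.aeval ℤ θ
  have h2 : ((minpoly ℤ θ).map (Int.castRingHom (𝓞 K))).eval (cc K θ) = 0 := by
    rw [eval_map]
    have h3 := congrArg (cc K) (minpoly.aeval ℤ θ)
    rw [map_zero] at h3
    have e : aeval θ (minpoly ℤ θ) = eval₂ (Int.castRingHom (𝓞 K)) θ (minpoly ℤ θ) := rfl
    rw [e, hom_eval₂] at h3
    rw [← h3]
    congr 1
    exact RingHom.ext_int _ _
  have h3 : cc K θ = θ := root_eq_of_map_eq χ _ hsep _ _ h2 h1 (RingHom.congr_fun h θ)
  have h4 : ∀ φ : K →+* ℂ, ComplexEmbedding.conjugate φ = φ := by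
    intro φ
    refine hθ.emb_ext ?_
    have h5 := RingHom.congr_fun (emb_cc φ) θ
    rw [RingHom.comp_apply, h3] at h5
    exact h5.symm
  have hne : Nonempty (K →+* ℂ) := inferInstance
  obtain ⟨φ⟩ := hne
  exact conjugate_ne φ (h4 φ)

end Pool.Agent.V8H88.UF
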